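import Pool.Agent.Q4.Lip.Disc

/-!
# The weights
-/

open Filter Topology ComplexConjugate

namespace Q4.Lip

open Q4.HC

/-- The weights. -/
noncomputable def wb (b : ℕ) (g : G 2) : ℝ := max (sz (g 0) ^ (2 * b)) (sz (g 1))

theorem one_le_wb (b : ℕ) (g : G 2) : 1 ≤ wb b g := (one_le_sz (g 1)).trans (le_max_right _ _)

theorem wb_weight (b : ℕ) : IsWeightFunction (wb b) where
  pos g := lt_of_lt_of_le one_pos (one_le_wb b g)
  submul g h := by
    have h0 := sz_mul (g 0) (h 0)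
    have h1 := sz_mul (g 1) (h 1)
    have a1 := sz_pos (g 0 * h 0)
    have a2 := sz_pos (g 0)
    have a3 := sz_pos (h 0)
    have a4 := sz_pos (g 1)
    have a5 := sz_pos (h 1)
    refine max_le ?_ ?_
    · change sz (g 0 * h 0) ^ (2 * b) ≤ _
      calc sz (g 0 * h 0) ^ (2 * b) ≤ (sz (g 0) * sz (h 0)) ^ (2 * b) := by gcongr
        _ = sz (g 0) ^ (2 * b) * sz (h 0) ^ (2 * b) := mul_pow _ _ _
        _ ≤ wb b g * wb b h := by
          unfold wb
          gcongr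
          · exact le_max_left _ _
          · exact le_max_left _ _
    · change sz (g 1 * h 1) ≤ _
      calc sz (g 1 * h 1) ≤ sz (g 1) * sz (h 1) := h1
        _ ≤ wb b g * wb b h := by
          unfold wb
          gcongr
          · exact le_max_right _ _
          · exact le_max_right _ _
  locallyBounded g := by
    refine ⟨wb b g + 1, ?_⟩
    have e : ∀ i : Fin 2, Continuous fun g : G 2 => sz (g i) := fun i =>
      Continuous.comp (g := sz) (f := fun g : G 2 => g i) continuous_sz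
        (continuous_apply (A := fun _ : Fin 2 => SL) i)
    have h1 : Continuous (wb b) := ((e 0).pow _).max (e 1)
    filter_upwards [h1.continuousAt.eventually_lt continuousAt_const (lt_add_one (wb b g))] with h hh
    exact hh.le

/-! ### The norm of the adjoint representation -/

theorem mat_bound (A B C : Matrix (Fin 2) (Fin 2) ℝ) {M : ℝ} (hM : 0 ≤ M)
    (hA : ∀ i k, |A i k| ≤ M) (hC : ∀ i k, |C i k| ≤ M) (hB : ∀ i k, |B i k| ≤ 1) (i k : Fin 2) :
    |(A * B * C) i k| ≤ 4 * M ^ 2 := by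
  have h1 : ∀ i k, |(A * B) i k| ≤ 2 * M := by
    intro i k
    rw [Matrix.mul_apply, Fin.sum_univ_two]
    refine (abs_add_le _ _).trans ?_
    rw [abs_mul, abs_mul]
    have e1 : |A i 0| * |B 0 k| ≤ M * 1 := mul_le_mul (hA _ _) (hB _ _) (abs_nonneg _) hM
    have e2 : |A i 1| * |B 1 k| ≤ M * 1 := mul_le_mul (hA _ _) (hB _ _) (abs_nonneg _) hM
    linarith
  rw [Matrix.mul_apply, Fin.sum_univ_two]
  refine (abs_add_le _ _).trans ?_
  rw [abs_mul, abs_mul]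
  have e1 : |(A * B) i 0| * |C 0 k| ≤ 2 * M * M := mul_le_mul (h1 _ _) (hC _ _) (abs_nonneg _)
    (by positivity)
  have e2 : |(A * B) i 1| * |C 1 k| ≤ 2 * M * M := mul_le_mul (h1 _ _) (hC _ _) (abs_nonneg _)
    (by positivity)
  nlinarith

theorem entry_le_frob (Y : Fin 2 → Matrix (Fin 2) (Fin 2) ℝ) (i a b : Fin 2) :
    |Y i a b| ≤ frob Y := by
  rw [frob, ← Real.sqrt_sq_eq_abs]
  refine Real.sqrt_le_sqrt ?_
  have h1 : Y i a b ^ 2 ≤ ∑ b, Y i a b ^ 2 :=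
    Finset.single_le_sum (f := fun b => Y i a b ^ 2) (fun _ _ => sq_nonneg _) (Finset.mem_univ b)
  have h2 : ∑ b, Y i a b ^ 2 ≤ ∑ a, ∑ b, Y i a b ^ 2 :=
    Finset.single_le_sum (f := fun a => ∑ b, Y i a b ^ 2)
      (fun _ _ => Finset.sum_nonneg fun _ _ => sq_nonneg _) (Finset.mem_univ a)
  have h3 : ∑ a, ∑ b, Y i a b ^ 2 ≤ ∑ i, ∑ a, ∑ b, Y i a b ^ 2 :=
    Finset.single_le_sum (f := fun i => ∑ a, ∑ b, Y i a b ^ 2)
      (fun _ _ => Finset.sum_nonneg fun _ _ => Finset.sum_nonneg fun _ _ => sq_nonneg _)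
      (Finset.mem_univ i)
  exact h1.trans (h2.trans h3)

theorem adNorm_bdd (g : G 2) :
    BddAbove {x | ∃ Y : Fin 2 → Matrix (Fin 2) (Fin 2) ℝ, (∀ i, (Y i).trace = 0) ∧ frob Y ≤ 1 ∧
      x = frob (Ad g Y)} := by
  obtain ⟨M, hM0, hM⟩ : ∃ M : ℝ, 0 ≤ M ∧ ∀ i a b, |g i a b| ≤ M ∧ |(g i)⁻¹ a b| ≤ M := by
    refine ⟨∑ i, ∑ a, ∑ b, (|g i a b| + |(g i)⁻¹ a b|), by positivity, fun i a b => ?_⟩
    have h1 : |g i a b| + |(g i)⁻¹ a b| ≤ ∑ b, (|g i a b| + |(g i)⁻¹ a b|) :=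
      Finset.single_le_sum (f := fun b => |g i a b| + |(g i)⁻¹ a b|) (fun _ _ => by positivity)
        (Finset.mem_univ b)
    have h2 : ∑ b, (|g i a b| + |(g i)⁻¹ a b|) ≤ ∑ a, ∑ b, (|g i a b| + |(g i)⁻¹ a b|) :=
      Finset.single_le_sum (f := fun a => ∑ b, (|g i a b| + |(g i)⁻¹ a b|))
        (fun _ _ => by positivity) (Finset.mem_univ a)
    have h3 : ∑ a, ∑ b, (|g i a b| + |(g i)⁻¹ a b|) ≤
        ∑ i, ∑ a, ∑ b, (|g i a b| + |(g i)⁻¹ a b|) :=
      Finset.single_le_sum (f := fun i => ∑ a, ∑ b, (|g i a b| + |(g i)⁻¹ a b|))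
        (fun _ _ => by positivity) (Finset.mem_univ i)
    have h4 := abs_nonneg (g i a b)
    have h5 := abs_nonneg ((g i)⁻¹ a b)
    constructor <;> linarith
  refine ⟨Real.sqrt (8 * (4 * M ^ 2) ^ 2), ?_⟩
  rintro _ ⟨Y, -, hY, rfl⟩
  rw [frob]
  refine Real.sqrt_le_sqrt ?_
  have h1 : ∀ i a b, (Ad g Y i a b) ^ 2 ≤ (4 * M ^ 2) ^ 2 := by
    intro i a b
    have h2 := mat_bound (g i : Matrix (Fin 2) (Fin 2) ℝ) (Y i)
      ((g i)⁻¹ : Matrix.SpecialLinearGroup (Fin 2) ℝ) hM0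
      (fun a b => (hM i a b).1) (fun a b => (hM i a b).2)
      (fun a b => (entry_le_frob Y i a b).trans hY) a b
    rw [← sq_abs]
    exact pow_le_pow_left₀ (abs_nonneg _) h2 2
  calc ∑ i, ∑ a, ∑ b, (Ad g Y i a b) ^ 2 ≤ ∑ _i : Fin 2, ∑ _a : Fin 2, ∑ _b : Fin 2, (4 * M ^ 2) ^ 2 :=
        Finset.sum_le_sum fun i _ => Finset.sum_le_sum fun a _ => Finset.sum_le_sum fun b _ =>
          h1 i a b
    _ = 8 * (4 * M ^ 2) ^ 2 := by
      simp
      ring

theorem sq_sum (g : SL) : g 0 0 ^ 2 + g 0 1 ^ 2 + g 1 0 ^ 2 + g 1 1 ^ 2 =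
    2 * (‖al g‖ ^ 2 + ‖be g‖ ^ 2) := by
  rw [← Complex.normSq_eq_norm_sq, ← Complex.normSq_eq_norm_sq, Complex.normSq_apply,
    Complex.normSq_apply]
  have h1 : (al g).re = (g 0 0 + g 1 1) / 2 := by
    rw [al]
    simp
  have h2 : (al g).im = (g 1 0 - g 0 1) / 2 := by
    rw [al]
    simp
  have h3 : (be g).re = (g 0 0 - g 1 1) / 2 := by
    rw [be]
    simp
  have h4 : (be g).im = (g 1 0 + g 0 1) / 2 := by
    rw [be]
    simp
  rw [h1, h2, h3, h4]
  ring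

theorem col_le_adNorm (g : G 2) (i : Fin 2) (k : Fin 2) :
    g i 0 k ^ 2 + g i 1 k ^ 2 ≤ adNorm g := by
  -- the test element
  set B : Matrix (Fin 2) (Fin 2) ℝ := if k = 0 then !![0, 1; 0, 0] else !![0, 0; 1, 0] with hB
  set Y : Fin 2 → Matrix (Fin 2) (Fin 2) ℝ := fun l => if l = i then B else 0 with hY
  have hsum : ∀ f : Fin 2 → ℝ, (∀ l, l ≠ i → f l = 0) → ∑ l, f l = f i := fun f hf =>
    Finset.sum_eq_single i (fun l _ hl => hf l hl) (fun h => absurd (Finset.mem_univ i) h)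
  have hfY : frob Y ≤ 1 := by
    rw [frob, hsum (fun l => ∑ a, ∑ b, Y l a b ^ 2) (fun l hl => by
      simp only [hY, if_neg hl]
      simp)]
    simp only [hY, if_true]
    refine Real.sqrt_le_iff.2 ⟨zero_le_one, ?_⟩
    fin_cases k <;> simp [hB, Fin.sum_univ_two]
  have htr : ∀ l, (Y l).trace = 0 := by
    intro l
    simp only [hY]
    split_ifs
    · fin_cases k <;> simp [hB, Matrix.trace_fin_two]
    · simp
  have hval : frob (Ad g Y) = g i 0 k ^ 2 + g i 1 k ^ 2 := by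
    rw [frob, hsum (fun l => ∑ a, ∑ b, Ad g Y l a b ^ 2) (fun l hl => by
      simp only [Ad, hY, if_neg hl]
      simp)]
    have e : Ad g Y i = (g i : Matrix (Fin 2) (Fin 2) ℝ) * B *
        ((g i)⁻¹ : Matrix.SpecialLinearGroup (Fin 2) ℝ) := by
      simp only [Ad, hY, if_true]
    have hv : ∑ a, ∑ b, Ad g Y i a b ^ 2 = (g i 0 k ^ 2 + g i 1 k ^ 2) ^ 2 := by
      rw [e, Matrix.SpecialLinearGroup.SL2_inv_expl]
      fin_cases k
      · simp [hB, Matrix.mul_apply, Fin.sum_univ_two]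
        ring
      · simp [hB, Matrix.mul_apply, Fin.sum_univ_two]
        ring
    rw [hv, Real.sqrt_sq (by positivity)]
  rw [← hval]
  exact le_csSup (adNorm_bdd g) ⟨Y, htr, hfY, rfl⟩

theorem sz_sq_le (g : G 2) (i : Fin 2) : sz (g i) ^ 2 ≤ 2 * adNorm g := by
  have h0 := col_le_adNorm g i 0
  have h1 := col_le_adNorm g i 1
  have h2 := sq_sum (g i)
  rw [sz]
  nlinarith [sq_nonneg (‖al (g i)‖ - ‖be (g i)‖)]

theorem sz_le (g : G 2) (i : Fin 2) : sz (g i) ≤ 2 * adNorm g ^ ((1 / 2 : NNReal) : ℝ) := by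
  have h1 := sz_sq_le g i
  have h2 := sz_pos (g i)
  have h3 : 0 ≤ adNorm g := by nlinarith
  have e : adNorm g ^ ((1 / 2 : NNReal) : ℝ) = Real.sqrt (adNorm g) := by
    rw [Real.sqrt_eq_rpow]
    norm_num
  rw [e]
  have h4 := Real.sq_sqrt h3
  have h5 := Real.sqrt_nonneg (adNorm g)
  nlinarith

/-- The weight `(w_b)_{1/2}` dominates the product of the two growth functions. -/
theorem prod_le (b : ℕ) (g : G 2) :
    sz (g 0) ^ (2 * b) * sz (g 1) ≤ 2 * wt (wb b) (1 / 2) g := by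
  have h1 := sz_le g 1
  have h2 := sz_pos (g 0)
  have h3 := sz_pos (g 1)
  rw [wt]
  calc sz (g 0) ^ (2 * b) * sz (g 1) ≤ wb b g * (2 * adNorm g ^ ((1 / 2 : NNReal) : ℝ)) := by
        gcongr
        · exact (zero_le_one.trans (one_le_wb b g))
        · exact le_max_left _ _
    _ = _ := by ring

/-- The weight `(w_b)_{1/2}` dominates the growth of the standard representation. -/
theorem std_le (b : ℕ) (g : G 2) :
    sz (g 0) ^ (2 * 0) * sz (g 1) ≤ 2 * wt (wb b) (1 / 2) g := by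
  refine le_trans ?_ (prod_le b g)
  have h2 := one_le_sz (g 0)
  have h3 := sz_pos (g 1)
  rw [mul_zero, pow_zero]
  gcongr
  exact one_le_pow₀ h2

theorem std_le' (b : ℕ) (g : G 2) : sz (g 0) ^ (2 * 0) * sz (g 1) ≤ 1 * wb b g := by
  rw [mul_zero, pow_zero, one_mul, one_mul]
  exact le_max_right _ _

end Q4.Lip
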