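import Pool.Agent.Q4.Lip.Glob
import Pool.Agent.Q4.Lip.Size

/-!
# An arbitrary norm for the weight `w_b`: one-parameter subgroups
-/

open Filter Topology ComplexConjugate

namespace Q4.Lip

open Q4.HC

/-! ### One-parameter subgroups -/

/-- A one-parameter subgroup of `SL(2, ℝ)` with generator `y`. -/
structure OneP (y : Matrix (Fin 2) (Fin 2) ℝ) (σ : ℝ → SL) : Prop where
  add : ∀ s t, σ (s + t) = σ s * σ t
  der : ∀ a b, HasDerivAt (fun t => σ t a b) (y a b) 0

/-- The diagonal subgroup. -/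
noncomputable def dg (t : ℝ) : SL := ⟨!![Real.exp t, 0; 0, Real.exp (-t)], by
  rw [Matrix.det_fin_two_of, ← Real.exp_add]
  simp⟩

/-- The upper triangular unipotent subgroup. -/
noncomputable def ug (t : ℝ) : SL := ⟨!![1, t; 0, 1], by
  rw [Matrix.det_fin_two_of]
  simp⟩

/-- The lower triangular unipotent subgroup. -/
noncomputable def lg (t : ℝ) : SL := ⟨!![1, 0; t, 1], by
  rw [Matrix.det_fin_two_of]
  simp⟩

/-- The conjugates of the rotation subgroup. -/
noncomputable def cg (t θ : ℝ) : SL :=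
  ⟨!![Real.cos θ, -(Real.exp (-2 * t) * Real.sin θ); Real.exp (2 * t) * Real.sin θ, Real.cos θ], by
    rw [Matrix.det_fin_two_of]
    have h1 := Real.sin_sq_add_cos_sq θ
    have h2 : Real.exp (-2 * t) * Real.exp (2 * t) = 1 := by
      rw [← Real.exp_add]
      simp
    linear_combination h1 + (Real.sin θ) ^ 2 * h2⟩

theorem SL_ext {A B : Matrix (Fin 2) (Fin 2) ℝ} (h00 : A 0 0 = B 0 0) (h01 : A 0 1 = B 0 1)
    (h10 : A 1 0 = B 1 0) (h11 : A 1 1 = B 1 1) : A = B := by
  ext i k
  fin_cases i <;> fin_cases k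
  · exact h00
  · exact h01
  · exact h10
  · exact h11

theorem onep_dg : OneP !![1, 0; 0, -1] dg where
  add s t := by
    apply Subtype.ext
    change !![Real.exp (s + t), 0; 0, Real.exp (-(s + t))] =
      !![Real.exp s, 0; 0, Real.exp (-s)] * !![Real.exp t, 0; 0, Real.exp (-t)]
    rw [Matrix.mul_fin_two, Real.exp_add, neg_add, Real.exp_add]
    simp
  der a b := by
    have h1 : HasDerivAt (fun t => Real.exp t) 1 0 := by
      simpa using Real.hasDerivAt_exp 0
    have h2 : HasDerivAt (fun t => Real.exp (-t)) (-1) 0 := by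
      have := (Real.hasDerivAt_exp (-0)).comp (0 : ℝ) (hasDerivAt_neg (0 : ℝ))
      simpa [Function.comp_def] using this
    fin_cases a <;> fin_cases b
    · exact h1
    · exact hasDerivAt_const _ _
    · exact hasDerivAt_const _ _
    · exact h2

theorem onep_ug : OneP !![0, 1; 0, 0] ug where
  add s t := by
    apply Subtype.ext
    change !![1, s + t; 0, 1] = !![1, s; 0, 1] * !![1, t; 0, 1]
    rw [Matrix.mul_fin_two]
    simp [add_comm]
  der a b := by
    fin_cases a <;> fin_cases b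
    · exact hasDerivAt_const _ _
    · exact hasDerivAt_id _
    · exact hasDerivAt_const _ _
    · exact hasDerivAt_const _ _

theorem onep_lg : OneP !![0, 0; 1, 0] lg where
  add s t := by
    apply Subtype.ext
    change !![1, 0; s + t, 1] = !![1, 0; s, 1] * !![1, 0; t, 1]
    rw [Matrix.mul_fin_two]
    simp
  der a b := by
    fin_cases a <;> fin_cases b
    · exact hasDerivAt_const _ _
    · exact hasDerivAt_const _ _
    · exact hasDerivAt_id _
    · exact hasDerivAt_const _ _

theorem der_sin : HasDerivAt Real.sin 1 0 := by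
  have := Real.hasDerivAt_sin 0
  rwa [Real.cos_zero] at this

theorem der_cos : HasDerivAt Real.cos 0 0 := by
  have := Real.hasDerivAt_cos 0
  rwa [Real.sin_zero, neg_zero] at this

theorem onep_cg (t : ℝ) :
    OneP !![0, -Real.exp (-2 * t); Real.exp (2 * t), 0] (cg t) where
  add s r := by
    apply Subtype.ext
    have h2 : Real.exp (-2 * t) * Real.exp (2 * t) = 1 := by
      rw [← Real.exp_add]
      simp
    change !![Real.cos (s + r), -(Real.exp (-2 * t) * Real.sin (s + r));
      Real.exp (2 * t) * Real.sin (s + r), Real.cos (s + r)] =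
      !![Real.cos s, -(Real.exp (-2 * t) * Real.sin s); Real.exp (2 * t) * Real.sin s, Real.cos s] *
      !![Real.cos r, -(Real.exp (-2 * t) * Real.sin r); Real.exp (2 * t) * Real.sin r, Real.cos r]
    rw [Matrix.mul_fin_two, Real.cos_add, Real.sin_add]
    refine SL_ext ?_ ?_ ?_ ?_
    · change Real.cos s * Real.cos r - Real.sin s * Real.sin r = Real.cos s * Real.cos r +
        -(Real.exp (-2 * t) * Real.sin s) * (Real.exp (2 * t) * Real.sin r)
      linear_combination (Real.sin s * Real.sin r) * h2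
    · change -(Real.exp (-2 * t) * (Real.sin s * Real.cos r + Real.cos s * Real.sin r)) =
        Real.cos s * (-(Real.exp (-2 * t) * Real.sin r)) +
        -(Real.exp (-2 * t) * Real.sin s) * Real.cos r
      ring
    · change Real.exp (2 * t) * (Real.sin s * Real.cos r + Real.cos s * Real.sin r) =
        Real.exp (2 * t) * Real.sin s * Real.cos r + Real.cos s * (Real.exp (2 * t) * Real.sin r)
      ring
    · change Real.cos s * Real.cos r - Real.sin s * Real.sin r =
        Real.exp (2 * t) * Real.sin s * (-(Real.exp (-2 * t) * Real.sin r)) +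
        Real.cos s * Real.cos r
      linear_combination (Real.sin s * Real.sin r) * h2
  der a b := by
    fin_cases a <;> fin_cases b
    · exact der_cos
    · have := ((der_sin.const_mul (Real.exp (-2 * t)))).fun_neg
      rw [mul_one] at this
      exact this
    · have := (der_sin.const_mul (Real.exp (2 * t)))
      rw [mul_one] at this
      exact this
    · exact der_cos

theorem cg_zero (θ : ℝ) : cg 0 θ = rotS θ := by
  apply Subtype.ext
  change !![Real.cos θ, -(Real.exp (-2 * 0) * Real.sin θ);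
    Real.exp (2 * 0) * Real.sin θ, Real.cos θ] = !![Real.cos θ, -Real.sin θ; Real.sin θ, Real.cos θ]
  simp

theorem onep_rot : OneP !![0, -1; 1, 0] rotS := by
  have h1 := onep_cg 0
  have h2 : cg 0 = rotS := funext cg_zero
  rw [h2] at h1
  simpa using h1

theorem rot_dg (t θ : ℝ) : rotS θ * dg t = dg t * cg t θ := by
  apply Subtype.ext
  change !![Real.cos θ, -Real.sin θ; Real.sin θ, Real.cos θ] *
    !![Real.exp t, 0; 0, Real.exp (-t)] = !![Real.exp t, 0; 0, Real.exp (-t)] *
    !![Real.cos θ, -(Real.exp (-2 * t) * Real.sin θ); Real.exp (2 * t) * Real.sin θ, Real.cos θ]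
  have h1 : Real.exp t * Real.exp (-2 * t) = Real.exp (-t) := by
    rw [← Real.exp_add]
    congr 1
    ring
  have h2 : Real.exp (-t) * Real.exp (2 * t) = Real.exp t := by
    rw [← Real.exp_add]
    congr 1
    ring
  rw [Matrix.mul_fin_two, Matrix.mul_fin_two]
  refine SL_ext ?_ ?_ ?_ ?_
  · change Real.cos θ * Real.exp t + -Real.sin θ * 0 = Real.exp t * Real.cos θ +
      0 * (Real.exp (2 * t) * Real.sin θ)
    ring
  · change Real.cos θ * 0 + -Real.sin θ * Real.exp (-t) =
      Real.exp t * (-(Real.exp (-2 * t) * Real.sin θ)) + 0 * Real.cos θ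
    linear_combination (Real.sin θ) * h1
  · change Real.sin θ * Real.exp t + Real.cos θ * 0 = 0 * Real.cos θ +
      Real.exp (-t) * (Real.exp (2 * t) * Real.sin θ)
    linear_combination (-(Real.sin θ)) * h2
  · change Real.sin θ * 0 + Real.cos θ * Real.exp (-t) =
      0 * (-(Real.exp (-2 * t) * Real.sin θ)) + Real.exp (-t) * Real.cos θ
    ring

theorem inl_mul (g h : SL) : inl (g * h) = inl g * inl h := by
  funext i
  fin_cases i
  · rfl
  · exact (one_mul (1 : SL)).symm

theorem inr_mul (g h : SL) : inr (g * h) = inr g * inr h := by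
  funext i
  fin_cases i
  · exact (one_mul (1 : SL)).symm
  · rfl

theorem inl_one' : inl 1 = 1 := by
  funext i
  fin_cases i <;> rfl

theorem inr_one' : inr 1 = 1 := by
  funext i
  fin_cases i <;> rfl

theorem OneP.zero {y : Matrix (Fin 2) (Fin 2) ℝ} {σ : ℝ → SL} (h : OneP y σ) : σ 0 = 1 := by
  have := h.add 0 0
  rw [add_zero] at this
  exact (mul_eq_left.1 this.symm)

section

variable {E : Type} [NormedAddCommGroup E] [NormedSpace ℂ E]
  {p : VW → ℝ} {π : G 2 →* (E →L[ℂ] E)} {j : VW →ₗ[ℂ] E}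

theorem orbit_deriv (hE : IsGlobalization DD p π j) {Y : Fin 2 → Matrix (Fin 2) (Fin 2) ℝ}
    {γ : ℝ → G 2} (hadd : ∀ s t, γ (s + t) = γ s * γ t)
    (hder : ∀ i a b, HasDerivAt (fun t => γ t i a b) (Y i a b) 0) (v : VW) (t : ℝ) :
    HasDerivAt (fun t => π (γ t) (j v)) (π (γ t) (j (DD.act Y v))) t := by
  have h1 := hE.deriv Y γ hadd hder v
  have h2 : HasDerivAt (fun s => π (γ t) (π (γ s) (j v))) (π (γ t) (j (DD.act Y v))) 0 :=
    ((π (γ t)).restrictScalars ℝ).hasFDerivAt.comp_hasDerivAt 0 h1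
  have h3 : HasDerivAt (fun s => π (γ s) (j v)) (π (γ t) (j (DD.act Y v))) (t + 0) := by
    have h4 : (fun s => π (γ t) (π (γ s) (j v))) = fun s => (fun s => π (γ s) (j v)) (t + s) := by
      funext s
      change π (γ t) (π (γ s) (j v)) = π (γ (t + s)) (j v)
      rw [hadd, map_mul]
      rfl
    rw [h4] at h2
    have h5 := (HasDerivAt.scomp (t + 0) (h := fun u => u - t) (g₁ := fun s => (fun s => π (γ s) (j v)) (t + s))
      (g₁' := π (γ t) (j (DD.act Y v))) (h' := 1) (by simpa using h2) (by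
        simpa using (hasDerivAt_id (t + 0)).sub_const t))
    simpa [Function.comp_def] using h5
  simpa using h3

theorem orbit_inl (hE : IsGlobalization DD p π j) {y : Matrix (Fin 2) (Fin 2) ℝ} {σ : ℝ → SL}
    (h : OneP y σ) (v : VW) (t : ℝ) :
    HasDerivAt (fun t => π (inl (σ t)) (j v)) (π (inl (σ t)) (j (hact y v.1, hact y v.2))) t := by
  have h1 := orbit_deriv hE (Y := fun i => if i = 0 then y else 0) (γ := fun t => inl (σ t))
    (fun s t => by rw [h.add, inl_mul]) (fun i a b => by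
      fin_cases i
      · exact h.der a b
      · exact hasDerivAt_const _ _) v t
  have h2 : DD.act (fun i => if i = 0 then y else 0) v = (hact y v.1, hact y v.2) := by
    rw [DD_act]
    simp
  rwa [h2] at h1

theorem orbit_inr (hE : IsGlobalization DD p π j) {y : Matrix (Fin 2) (Fin 2) ℝ} {σ : ℝ → SL}
    (h : OneP y σ) (v : VW) (t : ℝ) :
    HasDerivAt (fun t => π (inr (σ t)) (j v)) (π (inr (σ t))
      (j (((y 0 0 : ℝ) : ℂ) • v.1 + ((y 0 1 : ℝ) : ℂ) • v.2,
        ((y 1 0 : ℝ) : ℂ) • v.1 - ((y 0 0 : ℝ) : ℂ) • v.2))) t := by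
  have h1 := orbit_deriv hE (Y := fun i => if i = 0 then 0 else y) (γ := fun t => inr (σ t))
    (fun s t => by rw [h.add, inr_mul]) (fun i a b => by
      fin_cases i
      · exact hasDerivAt_const _ _
      · exact h.der a b) v t
  have h2 : DD.act (fun i => if i = 0 then 0 else y) v = (((y 0 0 : ℝ) : ℂ) • v.1 +
      ((y 0 1 : ℝ) : ℂ) • v.2, ((y 1 0 : ℝ) : ℂ) • v.1 - ((y 0 0 : ℝ) : ℂ) • v.2) := by
    rw [DD_act]
    simp [hact]
  rwa [h2] at h1

theorem const_of_deriv {f : ℝ → E} (h : ∀ t, HasDerivAt f 0 t) (t : ℝ) : f t = f 0 :=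
  is_const_of_deriv_eq_zero (fun t => (h t).differentiableAt) (fun t => (h t).deriv) t 0

/-- The upper unipotent element of the second factor. -/
theorem pi_ug (hE : IsGlobalization DD p π j) (v : VW) :
    π (inr (ug 1)) (j v) = j v + j (v.2, 0) := by
  have h0 : ∀ (u : VP) (t : ℝ), π (inr (ug t)) (j (u, 0)) = j (u, 0) := by
    intro u t
    have h1 : π (inr (ug t)) (j (u, 0)) = π (inr (ug 0)) (j (u, 0)) :=
      const_of_deriv (f := fun t => π (inr (ug t)) (j (u, 0))) (fun t => by
        have h2 := orbit_inr hE onep_ug (u, 0) t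
        refine h2.congr_deriv ?_
        have e : ((0, 0) : VW) = 0 := rfl
        simp [e]) t
    rw [h1, onep_ug.zero, inr_one', map_one]
    rfl
  have h1 := const_of_deriv (f := fun t : ℝ => π (inr (ug t)) (j v) - t • j (v.2, 0)) (fun t => by
    have h2 := orbit_inr hE onep_ug v t
    have h3 := (hasDerivAt_id t).smul_const (j (v.2, 0))
    refine (h2.fun_sub h3).congr_deriv ?_
    have h4 : (((!![0, 1; 0, 0] : Matrix (Fin 2) (Fin 2) ℝ) 0 0 : ℝ) : ℂ) • v.1 +
      (((!![0, 1; 0, 0] : Matrix (Fin 2) (Fin 2) ℝ) 0 1 : ℝ) : ℂ) • v.2 = v.2 := by simp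
    have h5 : (((!![0, 1; 0, 0] : Matrix (Fin 2) (Fin 2) ℝ) 1 0 : ℝ) : ℂ) • v.1 -
      (((!![0, 1; 0, 0] : Matrix (Fin 2) (Fin 2) ℝ) 0 0 : ℝ) : ℂ) • v.2 = 0 := by simp
    rw [h4, h5, h0, one_smul, sub_self]) 1
  simp only [one_smul, zero_smul, sub_zero] at h1
  rw [onep_ug.zero, inr_one', map_one] at h1
  exact sub_eq_iff_eq_add.1 h1

/-- The lower unipotent element of the second factor. -/
theorem pi_lg (hE : IsGlobalization DD p π j) (v : VW) :
    π (inr (lg 1)) (j v) = j v + j (0, v.1) := by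
  have h0 : ∀ (u : VP) (t : ℝ), π (inr (lg t)) (j (0, u)) = j (0, u) := by
    intro u t
    have h1 : π (inr (lg t)) (j (0, u)) = π (inr (lg 0)) (j (0, u)) :=
      const_of_deriv (f := fun t => π (inr (lg t)) (j (0, u))) (fun t => by
        have h2 := orbit_inr hE onep_lg (0, u) t
        refine h2.congr_deriv ?_
        have e : ((0, 0) : VW) = 0 := rfl
        simp [e]) t
    rw [h1, onep_lg.zero, inr_one', map_one]
    rfl
  have h1 := const_of_deriv (f := fun t : ℝ => π (inr (lg t)) (j v) - t • j (0, v.1)) (fun t => by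
    have h2 := orbit_inr hE onep_lg v t
    have h3 := (hasDerivAt_id t).smul_const (j (0, v.1))
    refine (h2.fun_sub h3).congr_deriv ?_
    have h4 : (((!![0, 0; 1, 0] : Matrix (Fin 2) (Fin 2) ℝ) 0 0 : ℝ) : ℂ) • v.1 +
      (((!![0, 0; 1, 0] : Matrix (Fin 2) (Fin 2) ℝ) 0 1 : ℝ) : ℂ) • v.2 = 0 := by simp
    have h5 : (((!![0, 0; 1, 0] : Matrix (Fin 2) (Fin 2) ℝ) 1 0 : ℝ) : ℂ) • v.1 -
      (((!![0, 0; 1, 0] : Matrix (Fin 2) (Fin 2) ℝ) 0 0 : ℝ) : ℂ) • v.2 = v.1 := by simp
    rw [h4, h5, h0, one_smul, sub_self]) 1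
  simp only [one_smul, zero_smul, sub_zero] at h1
  rw [onep_lg.zero, inr_one', map_one] at h1
  exact sub_eq_iff_eq_add.1 h1

/-- The diagonal elements of the second factor. -/
theorem pi_dg (hE : IsGlobalization DD p π j) (u : VP) (t : ℝ) :
    π (inr (dg t)) (j (u, 0)) = Real.exp t • j (u, 0) := by
  have h1 := const_of_deriv (f := fun t : ℝ => Real.exp (-t) • π (inr (dg t)) (j (u, 0)))
    (fun t => by
      have h2 := orbit_inr hE onep_dg (u, 0) t
      have h3 : HasDerivAt (fun t : ℝ => Real.exp (-t)) (-Real.exp (-t)) t := by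
        have := (Real.hasDerivAt_exp (-t)).comp t (hasDerivAt_neg t)
        simpa [Function.comp_def] using this
      refine (h3.fun_smul h2).congr_deriv ?_
      have h4 : (((!![1, 0; 0, -1] : Matrix (Fin 2) (Fin 2) ℝ) 0 0 : ℝ) : ℂ) • u +
        (((!![1, 0; 0, -1] : Matrix (Fin 2) (Fin 2) ℝ) 0 1 : ℝ) : ℂ) • (0 : VP) = u := by simp
      have h5 : (((!![1, 0; 0, -1] : Matrix (Fin 2) (Fin 2) ℝ) 1 0 : ℝ) : ℂ) • u -
        (((!![1, 0; 0, -1] : Matrix (Fin 2) (Fin 2) ℝ) 0 0 : ℝ) : ℂ) • (0 : VP) = 0 := by simp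
      rw [h4, h5, neg_smul, add_neg_cancel]) t
  simp only [neg_zero, Real.exp_zero, one_smul] at h1
  rw [onep_dg.zero, inr_one', map_one] at h1
  change Real.exp (-t) • π (inr (dg t)) (j (u, 0)) = j (u, 0) at h1
  conv_rhs => rw [← h1]
  rw [smul_smul, ← Real.exp_add, add_neg_cancel, Real.exp_zero, one_smul]

/-- The rotations of the first factor. -/
theorem pi_rot (hE : IsGlobalization DD p π j) (n : ℕ) (c d : ℂ) (θ : ℝ) :
    π (inl (rotS θ)) (j (Finsupp.single n c, Finsupp.single n d)) =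
      Complex.exp (-(2 * ((n : ℂ) + 1)) * Complex.I * θ) •
        j (Finsupp.single n c, Finsupp.single n d) := by
  set v : VW := (Finsupp.single n c, Finsupp.single n d) with hv
  have hact_rot : ∀ c : ℂ, hact !![0, -1; 1, 0] (Finsupp.single n c) =
      (-(2 * ((n : ℂ) + 1)) * Complex.I) • Finsupp.single n c := by
    intro c
    have h1 : hact !![0, -1; 1, 0] (Finsupp.single n c) = of (Finsupp.single n c) -
        oe (Finsupp.single n c) := by
      simp [hact]
      abel
    rw [h1, of_sub_oe, Mm_single, Finsupp.smul_single, Finsupp.smul_single, smul_eq_mul,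
      smul_eq_mul]
    congr 1
    ring
  have h1 := const_of_deriv (f := fun θ : ℝ => Complex.exp ((2 * ((n : ℂ) + 1)) * Complex.I * θ) •
      π (inl (rotS θ)) (j v)) (fun θ => by
    have h2 := orbit_inl hE onep_rot v θ
    have h3 : HasDerivAt (fun θ : ℝ => Complex.exp ((2 * ((n : ℂ) + 1)) * Complex.I * θ))
        (Complex.exp ((2 * ((n : ℂ) + 1)) * Complex.I * θ) * ((2 * ((n : ℂ) + 1)) * Complex.I)) θ := by
      have h4 : HasDerivAt (fun θ : ℝ => (2 * ((n : ℂ) + 1)) * Complex.I * (θ : ℂ))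
          ((2 * ((n : ℂ) + 1)) * Complex.I) θ := by
        have := (Complex.ofRealCLM.hasDerivAt (x := θ)).const_mul ((2 * ((n : ℂ) + 1)) * Complex.I)
        simpa using this
      exact h4.cexp
    refine (h3.fun_smul h2).congr_deriv ?_
    have h5 : (hact !![0, -1; 1, 0] v.1, hact !![0, -1; 1, 0] v.2) =
        (-(2 * ((n : ℂ) + 1)) * Complex.I) • v := by
      rw [hv]
      exact Prod.ext (hact_rot c) (hact_rot d)
    rw [h5, map_smul, map_smul]
    module) θ
  simp only [Complex.ofReal_zero, mul_zero, Complex.exp_zero, one_smul] at h1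
  rw [onep_rot.zero, inl_one', map_one] at h1
  change Complex.exp ((2 * ((n : ℂ) + 1)) * Complex.I * θ) • π (inl (rotS θ)) (j v) = j v at h1
  have h2 : Complex.exp (-(2 * ((n : ℂ) + 1)) * Complex.I * θ) *
      Complex.exp ((2 * ((n : ℂ) + 1)) * Complex.I * θ) = 1 := by
    rw [← Complex.exp_add]
    ring_nf
    exact Complex.exp_zero
  conv_rhs => rw [← h1]
  rw [smul_smul, h2, one_smul]

end

end Q4.Lip
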