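import Mathlib

/-!
# The system of differential equations for the matrix coefficients
-/

open Filter Topology

namespace Q4.Lip

/-- The system satisfied by the matrix coefficients. -/
structure Sys (n : ℕ) (φ : ℕ → ℝ → ℂ) : Prop where
  der : ∀ m t, HasDerivAt (φ m) (((m : ℂ) + 2) * φ (m + 1) t - (m : ℂ) * φ (m - 1) t) t
  rel : ∀ m t, 2 * ((n : ℂ) + 1) * φ m t = 2 * (Real.cosh (2 * t) : ℂ) * ((m : ℂ) + 1) * φ m t +
    (Real.sinh (2 * t) : ℂ) * (((m : ℂ) + 2) * φ (m + 1) t + (m : ℂ) * φ (m - 1) t)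
  ini : φ n 0 = 1

variable {n : ℕ} {φ : ℕ → ℝ → ℂ}

theorem cosh_two (t : ℝ) : Real.cosh (2 * t) = Real.cosh t ^ 2 + Real.sinh t ^ 2 := Real.cosh_two_mul t

theorem sinh_two (t : ℝ) : Real.sinh (2 * t) = 2 * Real.sinh t * Real.cosh t := Real.sinh_two_mul t

theorem Sys.key (h : Sys n φ) (t : ℝ) : 2 * (Real.sinh t : ℂ) * Real.cosh t * φ 1 t =
    (((n : ℂ) + 1) - (Real.cosh t : ℂ) ^ 2 - (Real.sinh t : ℂ) ^ 2) * φ 0 t := by
  have h1 := h.rel 0 t
  rw [cosh_two, sinh_two] at h1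
  simp only [Complex.ofReal_add, Complex.ofReal_pow, Complex.ofReal_mul, Complex.ofReal_ofNat,
    Nat.cast_zero, zero_add, zero_mul, add_zero, mul_one] at h1
  linear_combination (-1 / 2 : ℂ) * h1

theorem Sys.const (h : Sys n φ) : ∃ c : ℂ, ∀ t : ℝ, 0 < t →
    φ 0 t * (Real.cosh t : ℂ) ^ (n + 2) = c * (Real.sinh t : ℂ) ^ n := by
  set W : ℝ → ℂ := fun t => φ 0 t * (Real.cosh t : ℂ) ^ (n + 2) with hW
  set Q : ℝ → ℂ := fun t => W t / (Real.sinh t : ℂ) ^ n with hQ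
  have hch : ∀ t : ℝ, HasDerivAt (fun t : ℝ => (Real.cosh t : ℂ)) (Real.sinh t : ℂ) t := fun t =>
    (Real.hasDerivAt_cosh t).ofReal_comp
  have hsh : ∀ t : ℝ, HasDerivAt (fun t : ℝ => (Real.sinh t : ℂ)) (Real.cosh t : ℂ) t := fun t =>
    (Real.hasDerivAt_sinh t).ofReal_comp
  have hder : ∀ t : ℝ, 0 < t → HasDerivAt Q 0 t := by
    intro t ht
    have hs : (Real.sinh t : ℂ) ≠ 0 := by
      have : Real.sinh t ≠ 0 := (Real.sinh_pos_iff.2 ht).ne'
      exact_mod_cast this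
    have h1 := ((h.der 0 t).fun_mul ((hch t).fun_pow (n + 2))).fun_div ((hsh t).fun_pow n)
      (pow_ne_zero n hs)
    refine h1.congr_deriv ?_
    have hk := h.key t
    rw [div_eq_zero_iff]
    left
    simp only [Nat.cast_zero, zero_add, zero_mul, sub_zero]
    have hcs : (Real.cosh t : ℂ) ^ 2 - (Real.sinh t : ℂ) ^ 2 = 1 := by
      exact_mod_cast Real.cosh_sq_sub_sinh_sq t
    rcases n with _ | n
    · simp only [Nat.cast_zero, zero_mul, mul_zero, sub_zero, pow_zero, mul_one, zero_add,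
        Nat.cast_ofNat] at hk ⊢
      have h3 : (Real.sinh t : ℂ) * (2 * φ 1 t * (Real.cosh t : ℂ) ^ 2 + φ 0 t *
          (2 * (Real.cosh t : ℂ) ^ (2 - 1) * (Real.sinh t : ℂ))) = 0 := by
        rw [show (2 - 1 : ℕ) = 1 from rfl, pow_one]
        linear_combination (Real.cosh t : ℂ) * hk - (Real.cosh t : ℂ) * φ 0 t * hcs
      exact (mul_eq_zero.1 h3).resolve_left hs
    · rw [Nat.add_sub_cancel, show n + 1 + 2 - 1 = n + 2 from rfl]
      simp only [Nat.cast_add, Nat.cast_one, Nat.cast_ofNat] at hk ⊢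
      rw [pow_succ (Real.sinh t : ℂ) n, pow_succ (Real.cosh t : ℂ) (n + 2)]
      linear_combination ((Real.cosh t : ℂ) ^ (n + 2) * (Real.sinh t : ℂ) ^ n) * hk -
        ((n : ℂ) + 2) * ((Real.cosh t : ℂ) ^ (n + 2) * (Real.sinh t : ℂ) ^ n) * φ 0 t * hcs
  refine ⟨Q 1, fun t ht => ?_⟩
  have hs : (Real.sinh t : ℂ) ≠ 0 := by
    have : Real.sinh t ≠ 0 := (Real.sinh_pos_iff.2 ht).ne'
    exact_mod_cast this
  have h1 : Q t = Q 1 := by
    have hconv : Convex ℝ (Set.Ioi (0 : ℝ)) := convex_Ioi 0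
    refine hconv.is_const_of_fderivWithin_eq_zero (𝕜 := ℝ) (f := Q) (fun x hx =>
      (hder x hx).differentiableAt.differentiableWithinAt) (fun x hx => ?_) ht (Set.mem_Ioi.2 one_pos)
    have h2 := (hder x hx).hasFDerivAt.hasFDerivWithinAt (s := Set.Ioi (0 : ℝ))
    rw [h2.fderivWithin (isOpen_Ioi.uniqueDiffWithinAt hx)]
    ext
    simp
  rw [← h1]
  simp only [hQ]
  rw [div_mul_cancel₀ _ (pow_ne_zero n hs)]

theorem tendsto_sinh_div : Tendsto (fun t : ℝ => Real.sinh t / t) (𝓝[>] 0) (𝓝 1) := by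
  have h := (Real.hasDerivAt_sinh 0)
  rw [hasDerivAt_iff_tendsto_slope] at h
  have h1 := h.mono_left (nhdsWithin_mono 0 (fun x hx => ne_of_gt hx : Set.Ioi (0 : ℝ) ⊆ {0}ᶜ))
  rw [Real.cosh_zero] at h1
  refine h1.congr fun t => ?_
  simp [slope, div_eq_inv_mul]

theorem tendsto_div_sinh_two : Tendsto (fun t : ℝ => t / Real.sinh (2 * t)) (𝓝[>] 0) (𝓝 (1 / 2)) := by
  have h0 : Tendsto (fun t : ℝ => 2 * t) (𝓝[>] 0) (𝓝[>] 0) := by
    refine tendsto_nhdsWithin_iff.2 ⟨?_, ?_⟩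
    · have : Tendsto (fun t : ℝ => 2 * t) (𝓝 0) (𝓝 (2 * 0)) := (continuous_const.mul continuous_id).tendsto 0
      rw [mul_zero] at this
      exact this.mono_left nhdsWithin_le_nhds
    · filter_upwards [self_mem_nhdsWithin] with t ht
      exact Set.mem_Ioi.2 (by have : (0 : ℝ) < t := ht; linarith)
  have h1 := (tendsto_sinh_div.comp h0).inv₀ one_ne_zero
  have h2 := h1.mul_const (1 / 2 : ℝ)
  rw [inv_one, one_mul] at h2
  refine h2.congr fun t => ?_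
  simp only [Function.comp_apply, inv_div]
  rcases eq_or_ne t 0 with rfl | ht
  · simp
  · by_cases hs : Real.sinh (2 * t) = 0
    · rw [hs]
      simp
    · field_simp

theorem Sys.limit (h : Sys n φ) {c : ℂ} (hc : ∀ t : ℝ, 0 < t →
    φ 0 t * (Real.cosh t : ℂ) ^ (n + 2) = c * (Real.sinh t : ℂ) ^ n) (m : ℕ) :
    (m ≤ n → Tendsto (fun t : ℝ => φ m t / (t : ℂ) ^ (n - m)) (𝓝[>] 0)
      (𝓝 (c * (n.choose m) / (m + 1)))) ∧
    (m + 1 ≤ n → Tendsto (fun t : ℝ => φ (m + 1) t / (t : ℂ) ^ (n - (m + 1))) (𝓝[>] 0)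
      (𝓝 (c * (n.choose (m + 1)) / ((m + 1 : ℕ) + 1)))) := by
  have hcont : ∀ f : ℝ → ℝ, Continuous f → Tendsto (fun t : ℝ => ((f t : ℝ) : ℂ)) (𝓝[>] 0)
      (𝓝 ((f 0 : ℝ) : ℂ)) := fun f hf =>
    ((Complex.continuous_ofReal.comp hf).tendsto 0).mono_left nhdsWithin_le_nhds
  -- the step
  have step : ∀ (m : ℕ), m + 1 ≤ n → ∀ (L : ℂ),
      Tendsto (fun t : ℝ => φ m t / (t : ℂ) ^ (n - m)) (𝓝[>] 0) (𝓝 L) →
      (Tendsto (fun t : ℝ => (m : ℂ) * ((Real.sinh (2 * t) * t : ℝ) : ℂ) *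
        (φ (m - 1) t / (t : ℂ) ^ (n - m + 1))) (𝓝[>] 0) (𝓝 0)) →
      Tendsto (fun t : ℝ => φ (m + 1) t / (t : ℂ) ^ (n - (m + 1))) (𝓝[>] 0)
        (𝓝 ((1 / 2) * (1 / ((m : ℂ) + 2)) * (2 * ((n : ℂ) - m) * L))) := by
    intro m hm L hL h0
    have h1 : Tendsto (fun t : ℝ => (((t / Real.sinh (2 * t) : ℝ) : ℂ)) * (1 / ((m : ℂ) + 2)) *
        ((2 * ((n : ℂ) + 1) - 2 * (Real.cosh (2 * t) : ℂ) * ((m : ℂ) + 1)) *
          (φ m t / (t : ℂ) ^ (n - m)) - (m : ℂ) * ((Real.sinh (2 * t) * t : ℝ) : ℂ) *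
        (φ (m - 1) t / (t : ℂ) ^ (n - m + 1)))) (𝓝[>] 0)
        (𝓝 ((((1 / 2 : ℝ) : ℂ)) * (1 / ((m : ℂ) + 2)) *
          ((2 * ((n : ℂ) + 1) - 2 * ((1 : ℝ) : ℂ) * ((m : ℂ) + 1)) * L - 0))) := by
      refine (((Complex.continuous_ofReal.tendsto _).comp tendsto_div_sinh_two).mul_const _).mul
        ((Tendsto.mul ?_ hL).sub h0)
      refine tendsto_const_nhds.sub ((Tendsto.mul tendsto_const_nhds ?_).mul_const _)
      have := hcont (fun t => Real.cosh (2 * t)) (Real.continuous_cosh.comp (continuous_const.mul continuous_id))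
      simpa using this
    have e : (((1 / 2 : ℝ) : ℂ)) * (1 / ((m : ℂ) + 2)) *
          ((2 * ((n : ℂ) + 1) - 2 * ((1 : ℝ) : ℂ) * ((m : ℂ) + 1)) * L - 0) =
        (1 / 2) * (1 / ((m : ℂ) + 2)) * (2 * ((n : ℂ) - m) * L) := by
      push_cast
      ring
    rw [e] at h1
    refine h1.congr' ?_
    filter_upwards [self_mem_nhdsWithin] with t ht
    have ht0 : (0 : ℝ) < t := ht
    have htc : (t : ℂ) ≠ 0 := by exact_mod_cast ht0.ne'
    have hs : Real.sinh (2 * t) ≠ 0 := (Real.sinh_pos_iff.2 (by linarith)).ne'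
    have hsc : (Real.sinh (2 * t) : ℂ) ≠ 0 := by exact_mod_cast hs
    have hm2 : (m : ℂ) + 2 ≠ 0 := by exact_mod_cast (by omega : m + 2 ≠ 0)
    have hr := h.rel m t
    obtain ⟨d, hd⟩ : ∃ d, n - m = d + 1 := ⟨n - m - 1, by omega⟩
    have hd' : n - (m + 1) = d := by omega
    rw [hd, hd', Complex.ofReal_div, Complex.ofReal_mul]
    generalize (Real.sinh (2 * t) : ℂ) = S at hr hsc ⊢
    generalize (Real.cosh (2 * t) : ℂ) = Q at hr ⊢
    have e1 : (t : ℂ) ^ (d + 1) = (t : ℂ) ^ d * t := pow_succ _ _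
    have e2 : (t : ℂ) ^ (d + 1 + 1) = (t : ℂ) ^ d * t * t := by rw [pow_succ, pow_succ]
    have e3 : (t : ℂ) ^ d ≠ 0 := pow_ne_zero _ htc
    rw [e1, e2]
    field_simp
    linear_combination hr
  have base : (0 ≤ n → Tendsto (fun t : ℝ => φ 0 t / (t : ℂ) ^ (n - 0)) (𝓝[>] 0)
      (𝓝 (c * (n.choose 0) / ((0 : ℕ) + 1)))) := by
    intro _
    have h1 : Tendsto (fun t : ℝ => c * (((Real.sinh t / t) : ℝ) : ℂ) ^ n / (Real.cosh t : ℂ) ^ (n + 2))
        (𝓝[>] 0) (𝓝 (c * ((1 : ℝ) : ℂ) ^ n / ((1 : ℝ) : ℂ) ^ (n + 2))) := by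
      refine Tendsto.div ((((Complex.continuous_ofReal.tendsto _).comp tendsto_sinh_div).pow n).const_mul c)
        ?_ (by simp)
      have := hcont Real.cosh Real.continuous_cosh
      rw [Real.cosh_zero] at this
      exact this.pow _
    have e : c * ((1 : ℝ) : ℂ) ^ n / ((1 : ℝ) : ℂ) ^ (n + 2) = c * (n.choose 0) / ((0 : ℕ) + 1) := by
      simp
    rw [e] at h1
    refine h1.congr' ?_
    filter_upwards [self_mem_nhdsWithin] with t ht
    have ht0 : (0 : ℝ) < t := ht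
    have htc : (t : ℂ) ≠ 0 := by exact_mod_cast ht0.ne'
    have hcc : (Real.cosh t : ℂ) ≠ 0 := by exact_mod_cast (Real.cosh_pos t).ne'
    have h2 := hc t ht0
    rw [Nat.sub_zero]
    push_cast
    rw [div_pow]
    push_cast at hcc h2
    field_simp
    linear_combination -h2
  induction m with
  | zero =>
    refine ⟨by simpa using base, fun h1n => ?_⟩
    have h1 := step 0 h1n _ (by simpa using base (Nat.zero_le n)) (by simp)
    convert! h1 using 2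
    rw [Nat.choose_one_right]
    push_cast
    field_simp
    ring
  | succ m ih =>
    refine ⟨ih.2, fun hm => ?_⟩
    have h1 := ih.2 (by omega)
    have h0 := ih.1 (by omega)
    have h2 : Tendsto (fun t : ℝ => ((m + 1 : ℕ) : ℂ) * ((Real.sinh (2 * t) * t : ℝ) : ℂ) *
        (φ (m + 1 - 1) t / (t : ℂ) ^ (n - (m + 1) + 1))) (𝓝[>] 0) (𝓝 0) := by
      have e1 : n - (m + 1) + 1 = n - m := by omega
      rw [e1, Nat.add_sub_cancel]
      have h3 := hcont (fun t => Real.sinh (2 * t) * t)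
        ((Real.continuous_sinh.comp (continuous_const.mul continuous_id)).mul continuous_id)
      have h4 := (h3.const_mul ((m + 1 : ℕ) : ℂ)).mul h0
      simpa using h4
    have h3 := step (m + 1) hm _ h1 h2
    convert! h3 using 2
    have h4 : ((n.choose (m + 1 + 1) : ℕ) : ℂ) * ((m : ℂ) + 2) = (n.choose (m + 1) : ℂ) * ((n : ℂ) - (m + 1)) := by
      have h5 := Nat.choose_succ_right_eq n (m + 1)
      have h6 : ((n - (m + 1) : ℕ) : ℂ) = (n : ℂ) - (m + 1) := by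
        rw [Nat.cast_sub (by omega)]
        push_cast
        ring
      rw [← h6]
      have h7 : (m : ℂ) + 2 = ((m + 1 + 1 : ℕ) : ℂ) := by push_cast; ring
      rw [h7]
      exact_mod_cast h5
    have hm2 : (m : ℂ) + 2 ≠ 0 := by exact_mod_cast (by omega : m + 2 ≠ 0)
    have hm3 : (m : ℂ) + 3 ≠ 0 := by exact_mod_cast (by omega : m + 3 ≠ 0)
    push_cast
    have e2 : (m : ℂ) + 1 + 1 = m + 2 := by ring
    have e3 : (m : ℂ) + 1 + 1 + 1 = m + 3 := by ring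
    have e4 : (m : ℂ) + 1 + 2 = m + 3 := by ring
    rw [e3, e4, e2]
    field_simp
    linear_combination c * h4

/-- The first matrix coefficient. -/
theorem Sys.zero_eq (h : Sys n φ) (t : ℝ) (ht : 0 < t) :
    φ 0 t = ((n : ℂ) + 1) * (Real.sinh t : ℂ) ^ n / (Real.cosh t : ℂ) ^ (n + 2) := by
  obtain ⟨c, hc⟩ := h.const
  have h1 := (h.limit hc n).1 le_rfl
  have h2 : Tendsto (fun t : ℝ => φ n t / (t : ℂ) ^ (n - n)) (𝓝[>] 0) (𝓝 1) := by
    rw [Nat.sub_self]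
    simp only [pow_zero, div_one]
    rw [← h.ini]
    exact (h.der n 0).continuousAt.tendsto.mono_left nhdsWithin_le_nhds
  have h3 := tendsto_nhds_unique h1 h2
  rw [Nat.choose_self, Nat.cast_one, mul_one] at h3
  have hn : (n : ℂ) + 1 ≠ 0 := by exact_mod_cast Nat.succ_ne_zero n
  rw [div_eq_one_iff_eq hn] at h3
  have hcc : (Real.cosh t : ℂ) ≠ 0 := by exact_mod_cast (Real.cosh_pos t).ne'
  rw [eq_div_iff (pow_ne_zero _ hcc), hc t ht, h3]

/-- All matrix coefficients for the lowest weight vector. -/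
theorem Sys.all_eq (h : Sys 0 φ) (t : ℝ) (ht : 0 < t) (m : ℕ) :
    φ m t * (Real.cosh t : ℂ) ^ (m + 2) = (-(Real.sinh t : ℂ)) ^ m ∧
      φ (m + 1) t * (Real.cosh t : ℂ) ^ (m + 1 + 2) = (-(Real.sinh t : ℂ)) ^ (m + 1) := by
  have hcc : (Real.cosh t : ℂ) ≠ 0 := by exact_mod_cast (Real.cosh_pos t).ne'
  have hs : (Real.sinh t : ℂ) ≠ 0 := by
    have : Real.sinh t ≠ 0 := (Real.sinh_pos_iff.2 ht).ne'
    exact_mod_cast this
  have hcs : (Real.cosh t : ℂ) ^ 2 - (Real.sinh t : ℂ) ^ 2 = 1 := by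
    exact_mod_cast Real.cosh_sq_sub_sinh_sq t
  have h0 : φ 0 t * (Real.cosh t : ℂ) ^ (0 + 2) = (-(Real.sinh t : ℂ)) ^ 0 := by
    rw [h.zero_eq t ht]
    simp only [Nat.cast_zero, zero_add, pow_zero, mul_one]
    rw [one_div, inv_mul_cancel₀ (pow_ne_zero _ hcc)]
  induction m with
  | zero =>
    refine ⟨h0, ?_⟩
    have h1 := h.key t
    have h2 : (2 * (Real.sinh t : ℂ)) * (φ 1 t * (Real.cosh t : ℂ) ^ (0 + 1 + 2)) =
        (2 * (Real.sinh t : ℂ)) * (-(Real.sinh t : ℂ)) ^ (0 + 1) := by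
      simp only [zero_add, pow_zero, pow_one, Nat.cast_zero] at h1 h0 ⊢
      linear_combination (Real.cosh t : ℂ) ^ 2 * h1 +
        (1 - (Real.cosh t : ℂ) ^ 2 - (Real.sinh t : ℂ) ^ 2) * h0 - hcs
    exact mul_left_cancel₀ (mul_ne_zero two_ne_zero hs) h2
  | succ m ih =>
    refine ⟨ih.2, ?_⟩
    obtain ⟨i1, i2⟩ := ih
    have h1 := h.rel (m + 1) t
    rw [cosh_two, sinh_two, Nat.add_sub_cancel] at h1
    simp only [Complex.ofReal_add, Complex.ofReal_pow, Complex.ofReal_mul, Complex.ofReal_ofNat,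
      Nat.cast_zero, zero_add, mul_one, Nat.cast_add, Nat.cast_one] at h1
    have hm3 : (m : ℂ) + 3 ≠ 0 := by exact_mod_cast (by omega : m + 3 ≠ 0)
    have h2 : (2 * (Real.sinh t : ℂ) * ((m : ℂ) + 3)) *
        (φ (m + 1 + 1) t * (Real.cosh t : ℂ) ^ (m + 1 + 1 + 2)) =
        (2 * (Real.sinh t : ℂ) * ((m : ℂ) + 3)) * (-(Real.sinh t : ℂ)) ^ (m + 1 + 1) := by
      have e1 : (Real.cosh t : ℂ) ^ (m + 1 + 1 + 2) = (Real.cosh t : ℂ) ^ (m + 2) * (Real.cosh t : ℂ) ^ 2 := by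
        rw [← pow_add]
      have e2 : (Real.cosh t : ℂ) ^ (m + 1 + 2) = (Real.cosh t : ℂ) ^ (m + 2) * (Real.cosh t : ℂ) := by
        rw [← pow_succ]
      have e3 : (-(Real.sinh t : ℂ)) ^ (m + 1 + 1) = (-(Real.sinh t : ℂ)) ^ m * (Real.sinh t : ℂ) ^ 2 := by
        rw [pow_succ, pow_succ]
        ring
      have e4 : (-(Real.sinh t : ℂ)) ^ (m + 1) = -((-(Real.sinh t : ℂ)) ^ m * (Real.sinh t : ℂ)) := by
        rw [pow_succ]
        ring
      rw [e2, e4] at i2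
      rw [e1, e3]
      generalize (Real.sinh t : ℂ) = S at *
      generalize (Real.cosh t : ℂ) = Q at *
      linear_combination (-Q ^ (m + 2) * Q) * h1 +
        (2 - 2 * ((m : ℂ) + 2) * (Q ^ 2 + S ^ 2)) * i2 -
        (2 * S * Q ^ 2 * ((m : ℂ) + 1)) * i1 +
        (2 * (-S) ^ m * S) * hcs
    exact mul_left_cancel₀ (mul_ne_zero (mul_ne_zero two_ne_zero hs) hm3) h2

end Q4.Lip
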