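import Pool.Agent.Q4.Lip.Arb
import Pool.Agent.Q4.Lip.Phi

/-!
# An arbitrary norm for the weight `w_b`: the norms of the weight vectors
-/

open Filter Topology ComplexConjugate

namespace Q4.Lip

open Q4.HC

theorem al_dg (t : ℝ) : al (dg t) = ((Real.cosh t : ℝ) : ℂ) := by
  rw [al]
  change (((Real.exp t + Real.exp (-t) : ℝ) : ℂ) + ((0 - 0 : ℝ) : ℂ) * Complex.I) / 2 = _
  rw [Real.cosh_eq]
  push_cast
  ring

theorem be_dg (t : ℝ) : be (dg t) = ((Real.sinh t : ℝ) : ℂ) := by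
  rw [be]
  change (((Real.exp t - Real.exp (-t) : ℝ) : ℂ) + ((0 + 0 : ℝ) : ℂ) * Complex.I) / 2 = _
  rw [Real.sinh_eq]
  push_cast
  ring

theorem sz_dg {t : ℝ} (ht : 0 ≤ t) : sz (dg t) = Real.exp t := by
  rw [sz, al_dg, be_dg, Complex.norm_real, Complex.norm_real, Real.norm_of_nonneg (Real.cosh_pos t).le,
    Real.norm_of_nonneg (Real.sinh_nonneg_iff.2 ht), Real.cosh_add_sinh]

theorem sz_one : sz 1 = 1 := by
  rw [sz, al_one, be_one]
  simp

theorem sz_rot_pow (k : ℕ) : sz (rotS 1 ^ k) ≤ 1 := by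
  induction k with
  | zero => rw [pow_zero, sz_one]
  | succ k ih =>
    rw [pow_succ]
    refine (sz_mul _ _).trans ?_
    rw [sz_rotS, mul_one]
    exact ih

theorem inl_pow (g : SL) (k : ℕ) : inl g ^ k = inl (g ^ k) := by
  induction k with
  | zero => rw [pow_zero, pow_zero, inl_one']
  | succ k ih => rw [pow_succ, pow_succ, inl_mul, ih]

section

variable {E : Type} [NormedAddCommGroup E] [NormedSpace ℂ E]
  {p : VW → ℝ} {π : G 2 →* (E →L[ℂ] E)} {j : VW →ₗ[ℂ] E} {b : ℕ} {C : ℝ}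

/-- The data of an element of `Norm(V, w_b)`. -/
structure Bd (p : VW → ℝ) (π : G 2 →* (E →L[ℂ] E)) (j : VW →ₗ[ℂ] E) (b : ℕ) (C : ℝ) : Prop where
  gl : IsGlobalization DD p π j
  pos : 0 < C
  gr : ∀ g x, ‖π g x‖ ≤ C * wb b g * ‖x‖

theorem Bd.of (hE : IsGlobalization DD p π j) (hC : 0 < C)
    (hg : ∀ g v, ‖π g (j v)‖ ≤ C * wb b g * p v) : Bd p π j b C where
  gl := hE
  pos := hC
  gr g x := by
    refine hE.dense.induction_on (p := fun x => ‖π g x‖ ≤ C * wb b g * ‖x‖) x ?_ fun v => ?_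
    · exact isClosed_le (π g).continuous.norm (continuous_const.mul continuous_norm)
    · rw [hE.norm_eq]
      exact hg g v

namespace Bd

variable (h : Bd p π j b C)

include h

theorem bounded (g : SL) (u : VP) : ‖π (inl g) (j (u, 0))‖ ≤ C * ‖j (u, 0)‖ := by
  set s : ℝ := sz g ^ (2 * b) with hs
  have hs1 : 1 ≤ s := one_le_pow₀ (one_le_sz g)
  have hs0 : 0 < s := by linarith
  set t : ℝ := Real.log s with ht
  have ht0 : 0 ≤ t := Real.log_nonneg hs1
  have hexp : Real.exp t = s := Real.exp_log hs0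
  have h1 := h.gr (inl g * inr (dg t)) (j (u, 0))
  have h2 : π (inl g * inr (dg t)) (j (u, 0)) = Real.exp t • π (inl g) (j (u, 0)) := by
    rw [map_mul]
    change π (inl g) (π (inr (dg t)) (j (u, 0))) = _
    rw [pi_dg h.gl]
    exact ((π (inl g)).restrictScalars ℝ).map_smul _ _
  have h3 : wb b (inl g * inr (dg t)) = s := by
    have e0 : (inl g * inr (dg t)) 0 = g := mul_one g
    have e1 : (inl g * inr (dg t)) 1 = dg t := one_mul (dg t)
    rw [wb, e0, e1, sz_dg ht0, hexp, ← hs, max_self]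
  rw [h2, h3, norm_smul, Real.norm_of_nonneg (Real.exp_pos t).le, hexp] at h1
  have h4 : s * ‖π (inl g) (j (u, 0))‖ ≤ s * (C * ‖j (u, 0)‖) := by
    calc s * ‖π (inl g) (j (u, 0))‖ ≤ C * s * ‖j (u, 0)‖ := h1
      _ = s * (C * ‖j (u, 0)‖) := by ring
  exact le_of_mul_le_mul_left h4 hs0

theorem proj : ∃ K : ℝ, 1 ≤ K ∧ ∀ v : VW, ‖j (v.2, 0)‖ ≤ K * ‖j v‖ ∧ ‖j (0, v.1)‖ ≤ K * ‖j v‖ ∧
    ‖j (v.1, 0)‖ ≤ K * ‖j v‖ ∧ ‖j (0, v.2)‖ ≤ K * ‖j v‖ := by
  set K : ℝ := C * (wb b (inr (ug 1)) + wb b (inr (lg 1))) + 1 with hK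
  have hC := h.pos
  have w1 := one_le_wb b (inr (ug 1))
  have w2 := one_le_wb b (inr (lg 1))
  have hK1 : 1 ≤ K := by
    rw [hK]
    have : 0 ≤ C * (wb b (inr (ug 1)) + wb b (inr (lg 1))) := by positivity
    linarith
  have e1 : ∀ v : VW, ‖j (v.2, 0)‖ ≤ K * ‖j v‖ := by
    intro v
    have h1 : j (v.2, 0) = π (inr (ug 1)) (j v) - j v := by
      rw [pi_ug h.gl]
      abel
    rw [h1]
    refine (norm_sub_le _ _).trans ?_
    have h2 := h.gr (inr (ug 1)) (j v)
    have h3 : 0 ≤ C * wb b (inr (lg 1)) * ‖j v‖ := by positivity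
    rw [hK]
    nlinarith
  have e2 : ∀ v : VW, ‖j (0, v.1)‖ ≤ K * ‖j v‖ := by
    intro v
    have h1 : j (0, v.1) = π (inr (lg 1)) (j v) - j v := by
      rw [pi_lg h.gl]
      abel
    rw [h1]
    refine (norm_sub_le _ _).trans ?_
    have h2 := h.gr (inr (lg 1)) (j v)
    have h3 : 0 ≤ C * wb b (inr (ug 1)) * ‖j v‖ := by positivity
    rw [hK]
    nlinarith
  refine ⟨K * K, by nlinarith, fun v => ?_⟩
  have hv := norm_nonneg (j v)
  have hKv : K * ‖j v‖ ≤ K * K * ‖j v‖ := by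
    have : 0 ≤ (K - 1) * (K * ‖j v‖) := by
      apply mul_nonneg
      · linarith
      · positivity
    nlinarith
  refine ⟨(e1 v).trans hKv, (e2 v).trans hKv, ?_, ?_⟩
  · have h1 := e1 (0, v.1)
    have h2 := e2 v
    calc ‖j (v.1, 0)‖ ≤ K * ‖j (0, v.1)‖ := h1
      _ ≤ K * (K * ‖j v‖) := by gcongr
      _ = _ := by ring
  · have h1 := e2 (v.2, 0)
    have h2 := e1 v
    calc ‖j (0, v.2)‖ ≤ K * ‖j (v.2, 0)‖ := h1
      _ ≤ K * (K * ‖j v‖) := by gcongr
      _ = _ := by ring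

theorem coef (v : VP) (n : ℕ) :
    ‖v n‖ * ‖j (Finsupp.single n 1, 0)‖ ≤ C * ‖j (v, 0)‖ := by
  have hT : ∀ (k : ℕ) (x : E), ‖(π (inl (rotS 1)) ^ k) x‖ ≤ C * ‖x‖ := by
    intro k x
    rw [← map_pow, inl_pow]
    refine (h.gr _ x).trans ?_
    have h1 : wb b (inl (rotS 1 ^ k)) ≤ 1 := by
      refine max_le ?_ ?_
      · change sz (rotS 1 ^ k) ^ (2 * b) ≤ 1
        exact pow_le_one₀ (sz_pos _).le (sz_rot_pow k)
      · change sz 1 ≤ 1
        rw [sz_one]
    have h2 := h.pos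
    have h3 : 0 ≤ ‖x‖ := norm_nonneg x
    have h4 : C * wb b (inl (rotS 1 ^ k)) ≤ C * 1 := by gcongr
    nlinarith
  have he : ∀ n : ℕ, π (inl (rotS 1)) (j (Finsupp.single n 1, 0)) =
      lam n • j (Finsupp.single n 1, 0) := by
    intro n
    have h1 := pi_rot h.gl n 1 0 1
    rw [Finsupp.single_zero] at h1
    rw [h1, lam_eq, Complex.ofReal_one, mul_one]
  have h1 := coef_bound h.pos.le hT he norm_lam lam_inj v n
  have h2 : Finsupp.linearCombination ℂ (fun n => j (Finsupp.single n 1, 0)) v = j (v, 0) := by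
    have h3 : Finsupp.linearCombination ℂ (fun n : ℕ => j (Finsupp.single n 1, 0)) =
        j ∘ₗ LinearMap.inl ℂ VP VP := by
      refine Finsupp.lhom_ext fun m c => ?_
      rw [Finsupp.linearCombination_single]
      change c • j (LinearMap.inl ℂ VP VP (Finsupp.single m 1)) = j (LinearMap.inl ℂ VP VP _)
      rw [← map_smul, ← map_smul, Finsupp.smul_single, smul_eq_mul, mul_one]
    rw [h3]
    rfl
  rw [h2, norm_smul] at h1
  exact h1

theorem q_pos (n : ℕ) : 0 < ‖j (Finsupp.single n 1, 0)‖ := by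
  rw [norm_pos_iff]
  intro h0
  have h1 : ((Finsupp.single n 1, 0) : VW) = 0 := h.gl.inj (h0.trans (map_zero j).symm)
  have h2 := congrArg Prod.fst h1
  have h3 := DFunLike.congr_fun h2 n
  simp at h3

theorem functional {K : ℝ} (hK : ∀ v : VW, ‖j (v.1, 0)‖ ≤ K * ‖j v‖) (n : ℕ) :
    ∃ Λ : E →L[ℂ] ℂ, (∀ v : VW, Λ (j v) = v.1 n) ∧
      ∀ x, ‖Λ x‖ ≤ (C * K / ‖j (Finsupp.single n 1, 0)‖) * ‖x‖ := by
  let f : VW →ₗ[ℂ] ℂ := Finsupp.lapply n ∘ₗ LinearMap.fst ℂ VP VP
  have hq := h.q_pos n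
  have hbd : ∀ v, ‖f v‖ ≤ (C * K / ‖j (Finsupp.single n 1, 0)‖) * ‖j v‖ := by
    intro v
    change ‖v.1 n‖ ≤ _
    rw [div_mul_eq_mul_div, le_div_iff₀ hq]
    have h1 := h.coef v.1 n
    have h2 := hK v
    have h3 := h.pos
    calc ‖v.1 n‖ * ‖j (Finsupp.single n 1, 0)‖ ≤ C * ‖j (v.1, 0)‖ := h1
      _ ≤ C * (K * ‖j v‖) := by gcongr
      _ = _ := by ring
  refine ⟨f.extendOfNorm j, fun v => ?_, fun x => ?_⟩
  · exact LinearMap.extendOfNorm_eq h.gl.dense ⟨_, hbd⟩ v
  · exact LinearMap.norm_extendOfNorm_apply_le h.gl.dense _ hbd x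

theorem functional_rot {n : ℕ} {Λ : E →L[ℂ] ℂ} (hΛ : ∀ v : VW, Λ (j v) = v.1 n) (θ : ℝ) (x : E) :
    Λ (π (inl (rotS θ)) x) = Complex.exp (-(2 * ((n : ℂ) + 1)) * Complex.I * θ) * Λ x := by
  refine h.gl.dense.induction_on (p := fun x => Λ (π (inl (rotS θ)) x) =
    Complex.exp (-(2 * ((n : ℂ) + 1)) * Complex.I * θ) * Λ x) x ?_ fun v => ?_
  · exact isClosed_eq (Λ.continuous.comp (π (inl (rotS θ))).continuous)
      (continuous_const.mul Λ.continuous)
  · have h1 : ∀ u : VP, Λ (π (inl (rotS θ)) (j (u, 0))) =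
        Complex.exp (-(2 * ((n : ℂ) + 1)) * Complex.I * θ) * u n := by
      intro u
      induction u using Finsupp.induction_linear with
      | zero =>
        have e : ((0, 0) : VW) = 0 := rfl
        rw [e, map_zero, map_zero, map_zero]
        simp
      | add f g hf hg =>
        have e : ((f + g, 0) : VW) = (f, 0) + (g, 0) := by simp
        rw [e, map_add, map_add, map_add, hf, hg, Finsupp.add_apply]
        ring
      | single m c =>
        have e := pi_rot h.gl m c 0 θ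
        rw [Finsupp.single_zero] at e
        rw [e, map_smul, hΛ, smul_eq_mul]
        by_cases hmn : m = n
        · rw [hmn]
        · change _ * (Finsupp.single m c : VP) n = _
          rw [Finsupp.single_eq_of_ne (Ne.symm hmn)]
          ring
    have h2 : ∀ u : VP, Λ (π (inl (rotS θ)) (j (0, u))) = 0 := by
      intro u
      induction u using Finsupp.induction_linear with
      | zero =>
        have e : ((0, 0) : VW) = 0 := rfl
        rw [e, map_zero, map_zero, map_zero]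
      | add f g hf hg =>
        have e : ((0, f + g) : VW) = (0, f) + (0, g) := by simp
        rw [e, map_add, map_add, map_add, hf, hg, add_zero]
      | single m c =>
        have e := pi_rot h.gl m 0 c θ
        rw [Finsupp.single_zero] at e
        rw [e, map_smul, hΛ, smul_eq_mul]
        simp
    have h3 : v = (v.1, 0) + (0, v.2) := by simp
    have h4 : Λ (π (inl (rotS θ)) (j v)) = Λ (π (inl (rotS θ)) (j (v.1, 0))) +
        Λ (π (inl (rotS θ)) (j (0, v.2))) := by
      rw [← map_add, ← map_add, ← map_add, ← h3]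
    change Λ (π (inl (rotS θ)) (j v)) = _ * Λ (j v)
    rw [h4, h1, h2, add_zero, hΛ]

/-- The matrix coefficients satisfy the system. -/
theorem sys {n : ℕ} {Λ : E →L[ℂ] ℂ} (hΛ : ∀ v : VW, Λ (j v) = v.1 n) :
    Sys n (fun m t => Λ (π (inl (dg t)) (j (Finsupp.single m 1, 0)))) where
  der m t := by
    have h1 := orbit_inl h.gl onep_dg (Finsupp.single m 1, 0) t
    have h2 := ((Λ.restrictScalars ℝ).hasFDerivAt
      (x := π (inl (dg t)) (j (Finsupp.single m 1, 0)))).comp_hasDerivAt t h1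
    refine h2.congr_deriv ?_
    change Λ (π (inl (dg t)) (j (hact !![1, 0; 0, -1] (Finsupp.single m 1),
      hact !![1, 0; 0, -1] 0))) = _
    have h3 : ((hact !![1, 0; 0, -1] (Finsupp.single m 1), hact !![1, 0; 0, -1] 0) : VW) =
        ((m : ℂ) + 2) • ((Finsupp.single (m + 1) 1, 0) : VW) -
          (m : ℂ) • ((Finsupp.single (m - 1) 1, 0) : VW) := by
      refine Prod.ext ?_ ?_
      · change hact !![1, 0; 0, -1] (Finsupp.single m 1) = ((m : ℂ) + 2) • Finsupp.single (m + 1) 1 -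
          (m : ℂ) • Finsupp.single (m - 1) 1
        rw [hact_single]
        simp [sub_eq_add_neg]
      · change hact !![1, 0; 0, -1] 0 = ((m : ℂ) + 2) • (0 : VP) - (m : ℂ) • (0 : VP)
        simp
    rw [h3, map_sub, map_sub, map_sub, map_smul, map_smul, map_smul, map_smul, map_smul, map_smul]
    rfl
  rel m t := by
    set y : Matrix (Fin 2) (Fin 2) ℝ := !![0, -Real.exp (-2 * t); Real.exp (2 * t), 0] with hy
    -- the first derivative
    have h1 := orbit_inl h.gl (onep_cg t) (Finsupp.single m 1, 0) 0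
    have h2 := ((Λ.comp (π (inl (dg t)))).restrictScalars ℝ).hasFDerivAt.comp_hasDerivAt (0 : ℝ) h1
    have h3 : HasDerivAt (fun θ : ℝ => Complex.exp (-(2 * ((n : ℂ) + 1)) * Complex.I * θ) *
        Λ (π (inl (dg t)) (j (Finsupp.single m 1, 0))))
        ((-(2 * ((n : ℂ) + 1)) * Complex.I) * Λ (π (inl (dg t)) (j (Finsupp.single m 1, 0)))) 0 := by
      have h4 : HasDerivAt (fun θ : ℝ => -(2 * ((n : ℂ) + 1)) * Complex.I * (θ : ℂ))
          (-(2 * ((n : ℂ) + 1)) * Complex.I) 0 := by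
        have := (Complex.ofRealCLM.hasDerivAt (x := (0 : ℝ))).const_mul
          (-(2 * ((n : ℂ) + 1)) * Complex.I)
        simpa using this
      refine (h4.cexp.mul_const _).congr_deriv ?_
      simp
    have h5 : (fun θ : ℝ => Complex.exp (-(2 * ((n : ℂ) + 1)) * Complex.I * θ) *
        Λ (π (inl (dg t)) (j (Finsupp.single m 1, 0)))) =
        fun θ : ℝ => Λ (π (inl (dg t)) (π (inl (cg t θ)) (j (Finsupp.single m 1, 0)))) := by
      funext θ
      rw [← h.functional_rot hΛ]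
      have e1 : π (inl (rotS θ)) (π (inl (dg t)) (j (Finsupp.single m 1, 0))) =
          π (inl (rotS θ * dg t)) (j (Finsupp.single m 1, 0)) := by
        rw [inl_mul, map_mul]
        rfl
      rw [e1, rot_dg, inl_mul, map_mul]
      rfl
    rw [h5] at h3
    have h6 := h3.unique h2
    have h7 : (inl (cg t 0)) = 1 := by rw [(onep_cg t).zero, inl_one']
    rw [h7, map_one] at h6
    change _ = Λ (π (inl (dg t)) (j (hact y (Finsupp.single m 1), hact y 0))) at h6
    have h8 : ((hact y (Finsupp.single m 1), hact y 0) : VW) =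
        (((m : ℂ) + 2) * (-((Real.sinh (2 * t) : ℂ) * Complex.I))) •
          ((Finsupp.single (m + 1) 1, 0) : VW) +
        ((m : ℂ) * (-((Real.sinh (2 * t) : ℂ) * Complex.I))) •
          ((Finsupp.single (m - 1) 1, 0) : VW) +
        (((m : ℂ) + 1) * (-(2 * (Real.cosh (2 * t) : ℂ) * Complex.I))) •
          ((Finsupp.single m 1, 0) : VW) := by
      have a1 : ((y 1 0 + y 0 1 : ℝ) : ℂ) = 2 * (Real.sinh (2 * t) : ℂ) := by
        have : y 1 0 + y 0 1 = 2 * Real.sinh (2 * t) := by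
          change Real.exp (2 * t) + -Real.exp (-2 * t) = _
          rw [Real.sinh_eq, neg_mul]
          ring
        rw [this]
        push_cast
        rfl
      have a2 : ((y 1 0 - y 0 1 : ℝ) : ℂ) = 2 * (Real.cosh (2 * t) : ℂ) := by
        have : y 1 0 - y 0 1 = 2 * Real.cosh (2 * t) := by
          change Real.exp (2 * t) - -Real.exp (-2 * t) = _
          rw [Real.cosh_eq, neg_mul]
          ring
        rw [this]
        push_cast
        rfl
      have a3 : ((y 0 0 : ℝ) : ℂ) = 0 := by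
        change ((0 : ℝ) : ℂ) = 0
        simp
      refine Prod.ext ?_ ?_
      · change hact y (Finsupp.single m 1) =
          (((m : ℂ) + 2) * (-((Real.sinh (2 * t) : ℂ) * Complex.I))) • Finsupp.single (m + 1) 1 +
          ((m : ℂ) * (-((Real.sinh (2 * t) : ℂ) * Complex.I))) • Finsupp.single (m - 1) 1 +
          (((m : ℂ) + 1) * (-(2 * (Real.cosh (2 * t) : ℂ) * Complex.I))) • Finsupp.single m 1
        rw [hact_single, a1, a2, a3, Finsupp.smul_single, Finsupp.smul_single, Finsupp.smul_single,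
          smul_eq_mul, smul_eq_mul, smul_eq_mul]
        congr 1
        · congr 1
          · congr 1
            ring
          · congr 1
            ring
        · congr 1
          ring
      · change hact y 0 = _ • (0 : VP) + _ • (0 : VP) + _ • (0 : VP)
        simp
    rw [h8] at h6
    simp only [map_add, map_smul, smul_eq_mul] at h6
    linear_combination (Complex.I) * h6 + (2 * ((n : ℂ) + 1) *
      Λ (π (inl (dg t)) (j (Finsupp.single m 1, 0))) - (Real.sinh (2 * t) : ℂ) *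
      (((m : ℂ) + 2) * Λ (π (inl (dg t)) (j (Finsupp.single (m + 1) 1, 0))) +
        (m : ℂ) * Λ (π (inl (dg t)) (j (Finsupp.single (m - 1) 1, 0)))) -
      2 * (Real.cosh (2 * t) : ℂ) * ((m : ℂ) + 1) *
        Λ (π (inl (dg t)) (j (Finsupp.single m 1, 0)))) * Complex.I_sq
  ini := by
    rw [onep_dg.zero, inl_one', map_one]
    change Λ (j (Finsupp.single n 1, 0)) = 1
    rw [hΛ]
    exact Finsupp.single_eq_same

end Bd

end

end Q4.Lip
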