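import Pool.Agent.Q4.Lip.Emb

/-!
# The closures of the images and the norms of the monomials
-/

open Filter Topology ComplexConjugate

namespace Q4.Lip

open Q4.HC

/-! ### The closed subspaces -/

/-- The closed subalgebra generated by the coordinate function. -/
noncomputable def DA : Subalgebra ℂ C(Ds, ℂ) := (Algebra.adjoin ℂ {Zc}).topologicalClosure

/-- The closure of the image of the module. -/
noncomputable def EB (b : ℕ) : Submodule ℂ C(Ds, ℂ) := (LinearMap.range (JJ b)).topologicalClosure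

theorem Zc_mem : Zc ∈ DA := subset_closure (Algebra.subset_adjoin rfl)

theorem norm_Zc_le : ‖Zc‖ ≤ 1 :=
  (ContinuousMap.norm_le _ zero_le_one).2 fun z => norm_Ds z

theorem io_mem (g : SL) : io g ∈ DA := by
  set x : C(Ds, ℂ) := algebraMap ℂ _ (conj (be g) / al g) * Zc with hx
  have hxn : ‖x‖ < 1 := by
    rw [hx]
    refine (norm_mul_le _ _).trans_lt ?_
    rw [norm_algebraMap', norm_div, RCLike.norm_conj]
    have h1 : ‖be g‖ / ‖al g‖ < 1 := by
      rw [div_lt_one (norm_pos_iff.2 (al_ne g))]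
      exact norm_be_lt g
    have h2 := norm_Zc_le
    have h3 : 0 ≤ ‖be g‖ / ‖al g‖ := by positivity
    nlinarith [norm_nonneg Zc]
  have hmem : x ∈ DA := DA.mul_mem (DA.algebraMap_mem _) Zc_mem
  have hsum : (∑' n : ℕ, x ^ n) ∈ DA := by
    have hs : HasSum (fun n : ℕ => x ^ n) (∑' n : ℕ, x ^ n) :=
      (summable_geometric_of_norm_lt_one hxn).hasSum
    have hcl : IsClosed (DA : Set C(Ds, ℂ)) := Subalgebra.isClosed_topologicalClosure _
    exact hcl.mem_of_tendsto hs (Eventually.of_forall fun s =>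
      DA.sum_mem fun n _ => DA.pow_mem hmem n)
  have h1 := geom_series_mul_neg x hxn
  have h2 : de g = algebraMap ℂ _ (al g) * (1 - x) := by
    rw [hx, mul_sub, mul_one, ← mul_assoc, ← map_mul, mul_div_cancel₀ _ (al_ne g)]
    rfl
  have h4 : algebraMap ℂ C(Ds, ℂ) (al g) * algebraMap ℂ _ (al g)⁻¹ = 1 := by
    rw [← map_mul, mul_inv_cancel₀ (al_ne g), map_one]
  have h3 : io g = algebraMap ℂ _ (al g)⁻¹ * ∑' n : ℕ, x ^ n := by
    have h5 := io_mul g
    rw [h2] at h5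
    linear_combination (algebraMap ℂ C(Ds, ℂ) (al g)⁻¹ * ∑' n : ℕ, x ^ n) * h5 -
      (io g * (∑' n : ℕ, x ^ n) * (1 - x)) * h4 - io g * h1
  rw [h3]
  exact DA.mul_mem (DA.algebraMap_mem _) hsum

theorem nu_mem (g : SL) : nu g ∈ DA :=
  DA.sub_mem (DA.mul_mem (DA.algebraMap_mem _) Zc_mem) (DA.algebraMap_mem _)

theorem mo_mem (b n : ℕ) : mo b n ∈ LinearMap.range (JJ b) :=
  ⟨Finsupp.single n 1, by rw [JJ_single, one_smul]⟩

theorem oc_mul_mem (b : ℕ) {f : C(Ds, ℂ)} (hf : f ∈ DA) : oc ^ (b + 1) * f ∈ EB b := by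
  have hcl : IsClosed {f : C(Ds, ℂ) | oc ^ (b + 1) * f ∈ EB b} :=
    (Submodule.isClosed_topologicalClosure (LinearMap.range (JJ b))).preimage
      (continuous_const.mul continuous_id)
  refine closure_minimal (fun f hf => ?_) hcl hf
  rw [SetLike.mem_coe, Algebra.adjoin_singleton_eq_range_aeval] at hf
  obtain ⟨P, rfl⟩ := hf
  change oc ^ (b + 1) * Polynomial.aeval Zc P ∈ EB b
  rw [Polynomial.aeval_eq_sum_range, Finset.mul_sum]
  refine Submodule.sum_mem _ fun n _ => ?_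
  rw [mul_smul_comm]
  exact Submodule.smul_mem _ _ (Submodule.le_topologicalClosure _ (mo_mem b n))

theorem RR_mem (b : ℕ) (g : SL) {F : C(Ds, ℂ)} (hF : F ∈ EB b) : RR b g F ∈ EB b := by
  have h0 : Set.MapsTo (RR b g) (LinearMap.range (JJ b) : Set C(Ds, ℂ)) (EB b) := by
    rintro _ ⟨v, rfl⟩
    rw [SetLike.mem_coe]
    induction v using Finsupp.induction_linear with
    | zero => rw [map_zero, map_zero]; exact Submodule.zero_mem _
    | add f g hf hg => rw [map_add, map_add]; exact Submodule.add_mem _ hf hg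
    | single n c =>
      rw [JJ_single, map_smul, RR_mo]
      exact Submodule.smul_mem _ _ (oc_mul_mem b
        (DA.mul_mem (DA.pow_mem (nu_mem g) _) (DA.pow_mem (io_mem g) _)))
  have h1 := h0.closure (RR b g).continuous hF
  have h2 : IsClosed (EB b : Set C(Ds, ℂ)) := Submodule.isClosed_topologicalClosure _
  rwa [h2.closure_eq] at h1

theorem span_mo (b : ℕ) : Submodule.span ℂ (Set.range (mo b)) = LinearMap.range (JJ b) := by
  rw [JJ, Finsupp.range_linearCombination]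

/-! ### Rotations -/

/-- The rotations. -/
noncomputable def rotS (θ : ℝ) : SL :=
  ⟨!![Real.cos θ, -Real.sin θ; Real.sin θ, Real.cos θ], by
    rw [Matrix.det_fin_two_of]
    have := Real.sin_sq_add_cos_sq θ
    nlinarith⟩

theorem al_rotS (θ : ℝ) : al (rotS θ) = Complex.exp (θ * Complex.I) := by
  rw [al]
  change (((Real.cos θ + Real.cos θ : ℝ) : ℂ) + ((Real.sin θ - -Real.sin θ : ℝ) : ℂ) *
    Complex.I) / 2 = _
  rw [Complex.exp_mul_I]
  push_cast
  ring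

theorem be_rotS (θ : ℝ) : be (rotS θ) = 0 := by
  rw [be]
  change (((Real.cos θ - Real.cos θ : ℝ) : ℂ) + ((Real.sin θ + -Real.sin θ : ℝ) : ℂ) *
    Complex.I) / 2 = _
  rw [sub_self, add_neg_cancel]
  simp

theorem norm_al_rotS (θ : ℝ) : ‖al (rotS θ)‖ = 1 := by
  rw [al_rotS, Complex.norm_exp_ofReal_mul_I]

theorem sz_rotS (θ : ℝ) : sz (rotS θ) = 1 := by
  rw [sz, norm_al_rotS, be_rotS, norm_zero, add_zero]

/-- An element of `SL(2, ℝ)` with `β = 0` acts diagonally. -/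
theorem RR_mo_of_be {g : SL} (hg : be g = 0) (b n : ℕ) :
    RR b g (mo b n) = ((al g)⁻¹ ^ (2 * (n + 1))) • mo b n := by
  have h1 := al_be g
  rw [hg, zero_mul, sub_zero] at h1
  have hc : conj (al g) = (al g)⁻¹ := eq_inv_of_mul_eq_one_right h1
  have h2 : nu g = algebraMap ℂ _ (al g)⁻¹ * Zc := by
    rw [nu, hg, map_zero, sub_zero, hc]
  have h3 : de g = algebraMap ℂ _ (al g) := by
    rw [de, hg, map_zero, map_zero, zero_mul, sub_zero]
  have h4 : io g = algebraMap ℂ _ (al g)⁻¹ := by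
    have h5 := io_mul g
    rw [h3] at h5
    have h6 : algebraMap ℂ C(Ds, ℂ) (al g) * algebraMap ℂ _ (al g)⁻¹ = 1 := by
      rw [← map_mul, mul_inv_cancel₀ (al_ne g), map_one]
    linear_combination (algebraMap ℂ C(Ds, ℂ) (al g)⁻¹) * h5 - io g * h6
  rw [RR_mo, h2, h4, Algebra.smul_def, mo, map_pow]
  ring

/-- The eigenvalues of the rotation by one radian. -/
noncomputable def lam (n : ℕ) : ℂ := (al (rotS 1))⁻¹ ^ (2 * (n + 1))

theorem norm_lam (n : ℕ) : ‖lam n‖ = 1 := by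
  rw [lam, norm_pow, norm_inv, norm_al_rotS, inv_one, one_pow]

theorem lam_eq (n : ℕ) : lam n = Complex.exp (-(2 * ((n : ℂ) + 1)) * Complex.I) := by
  rw [lam, al_rotS, ← Complex.exp_neg, ← Complex.exp_nat_mul]
  congr 1
  push_cast
  ring

theorem lam_inj : Function.Injective lam := by
  intro m n h
  rw [lam_eq, lam_eq, Complex.exp_eq_exp_iff_exists_int] at h
  obtain ⟨k, hk⟩ := h
  have h1 : ((n : ℂ) - m) * (2 * Complex.I) = (k * Real.pi) * (2 * Complex.I) := by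
    linear_combination hk
  have h2 : ((n : ℂ) - m) = k * Real.pi :=
    mul_right_cancel₀ (mul_ne_zero two_ne_zero Complex.I_ne_zero) h1
  have h3 : ((n : ℝ) - m) = k * Real.pi := by exact_mod_cast h2
  by_contra hne
  have hk0 : (k : ℝ) ≠ 0 := by
    intro h0
    rw [h0, zero_mul] at h3
    apply hne
    have : (m : ℝ) = n := by linarith
    exact_mod_cast this
  apply irrational_pi
  refine ⟨((n - m : ℤ) : ℚ) / k, ?_⟩
  push_cast
  rw [h3]
  field_simp

/-! ### The norms of the monomials -/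

theorem norm_oc (z : Ds) : ‖(1 - (z : ℂ) * conj (z : ℂ))‖ = 1 - ‖(z : ℂ)‖ ^ 2 := by
  rw [Complex.mul_conj, Complex.normSq_eq_norm_sq]
  have h : (1 - ((‖(z : ℂ)‖ ^ 2 : ℝ) : ℂ)) = ((1 - ‖(z : ℂ)‖ ^ 2 : ℝ) : ℂ) := by push_cast; ring
  rw [h, Complex.norm_real, Real.norm_of_nonneg]
  have := norm_Ds z
  nlinarith [norm_nonneg (z : ℂ)]

theorem norm_mo_apply (b n : ℕ) (z : Ds) :
    ‖mo b n z‖ = (1 - ‖(z : ℂ)‖ ^ 2) ^ (b + 1) * ‖(z : ℂ)‖ ^ n := by
  rw [mo_apply, norm_mul, norm_pow, norm_pow, norm_oc]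

theorem mul_pow_le {x : ℝ} (h0 : 0 ≤ x) (h1 : x ≤ 1) (m : ℕ) : (1 - x) * x ^ m ≤ 1 / ((m : ℝ) + 1) := by
  rw [le_div_iff₀ (by positivity)]
  have h2 : ((m : ℝ) + 1) * x ^ m ≤ ∑ i ∈ Finset.range (m + 1), x ^ i := by
    have h3 : ((m : ℝ) + 1) * x ^ m = ∑ _i ∈ Finset.range (m + 1), x ^ m := by
      rw [Finset.sum_const, Finset.card_range, nsmul_eq_mul]
      push_cast
      ring
    rw [h3]
    refine Finset.sum_le_sum fun i hi => ?_
    exact pow_le_pow_of_le_one h0 h1 (Finset.mem_range_succ_iff.1 hi)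
  have h3 := mul_neg_geom_sum x (m + 1)
  have h4 : 0 ≤ x ^ (m + 1) := by positivity
  have h5 : (1 - x) * (((m : ℝ) + 1) * x ^ m) ≤ (1 - x) * ∑ i ∈ Finset.range (m + 1), x ^ i :=
    mul_le_mul_of_nonneg_left h2 (by linarith)
  nlinarith

/-- The upper bound for the norm of a monomial. -/
theorem norm_mo_le (b n : ℕ) : ‖mo b n‖ ≤ (2 * ((b : ℝ) + 1) / ((n : ℝ) + 1)) ^ (b + 1) := by
  refine (ContinuousMap.norm_le _ (by positivity)).2 fun z => ?_
  rw [norm_mo_apply]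
  set x := ‖(z : ℂ)‖ with hx
  have h0 : 0 ≤ x := norm_nonneg _
  have h1 : x ≤ 1 := norm_Ds z
  set m := n / (b + 1) with hm
  have hmn : m * (b + 1) ≤ n := Nat.div_mul_le_self n (b + 1)
  have hmn' : n < (m + 1) * (b + 1) := by
    have := Nat.lt_div_mul_add (a := n) (b := b + 1) (Nat.succ_pos b)
    rw [← hm] at this
    linarith
  have h2 : x ^ n ≤ x ^ (m * (b + 1)) := pow_le_pow_of_le_one h0 h1 hmn
  have h3 : 1 - x ^ 2 ≤ 2 * (1 - x) := by nlinarith
  have h3' : 0 ≤ 1 - x ^ 2 := by nlinarith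
  have h4 := mul_pow_le h0 h1 m
  have h5 : (1 : ℝ) / ((m : ℝ) + 1) ≤ ((b : ℝ) + 1) / ((n : ℝ) + 1) := by
    rw [div_le_div_iff₀ (by positivity) (by positivity)]
    have : ((n + 1 : ℕ) : ℝ) ≤ (((m + 1) * (b + 1) : ℕ) : ℝ) := by exact_mod_cast hmn'
    push_cast at this
    nlinarith
  have h6 : 0 ≤ (1 - x) * x ^ m := mul_nonneg (by linarith) (by positivity)
  calc (1 - x ^ 2) ^ (b + 1) * x ^ n ≤ (2 * (1 - x)) ^ (b + 1) * x ^ (m * (b + 1)) := by
        gcongr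
    _ = (2 * ((1 - x) * x ^ m)) ^ (b + 1) := by
        rw [pow_mul, ← mul_pow]
        ring
    _ ≤ (2 * (((b : ℝ) + 1) / ((n : ℝ) + 1))) ^ (b + 1) := by
        gcongr
        linarith
    _ = _ := by rw [mul_div_assoc]

/-- An elementary inequality. -/
theorem half_le_pow {n : ℕ} {x : ℝ} (hx : 0 ≤ x) (h : x ^ 2 = (n : ℝ) / ((n : ℝ) + 1)) :
    1 / 2 ≤ x ^ n := by
  rcases Nat.eq_zero_or_pos n with hn | hn
  · rw [hn, pow_zero]
    norm_num
  · have hn' : (0 : ℝ) < n := by exact_mod_cast hn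
    have h1 : (x ^ n) ^ 2 = ((n : ℝ) / ((n : ℝ) + 1)) ^ n := by
      rw [← pow_mul, mul_comm, pow_mul, h]
    have h2 : (((n : ℝ) + 1) / n) ^ n ≤ 4 := by
      have h3 : ((n : ℝ) + 1) / n ≤ Real.exp (1 / n) := by
        have := Real.add_one_le_exp (1 / (n : ℝ))
        have e : ((n : ℝ) + 1) / n = 1 / n + 1 := by
          field_simp
          ring
        rw [e]
        exact this
      calc (((n : ℝ) + 1) / n) ^ n ≤ (Real.exp (1 / n)) ^ n := by gcongr
        _ = Real.exp 1 := by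
          rw [← Real.exp_nat_mul]
          congr 1
          field_simp
        _ ≤ 4 := by linarith [Real.exp_one_lt_d9]
    have h4 : 1 / 4 ≤ (x ^ n) ^ 2 := by
      rw [h1]
      have h5 : ((n : ℝ) / ((n : ℝ) + 1)) ^ n * (((n : ℝ) + 1) / n) ^ n = 1 := by
        rw [← mul_pow]
        have : (n : ℝ) / ((n : ℝ) + 1) * (((n : ℝ) + 1) / n) = 1 := by field_simp
        rw [this, one_pow]
      have h6 : 0 < ((n : ℝ) / ((n : ℝ) + 1)) ^ n := by positivity
      nlinarith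
    have h7 : 0 ≤ x ^ n := by positivity
    nlinarith

/-- The lower bound for the norm of a monomial. -/
theorem le_norm_mo (n : ℕ) : 1 / (2 * ((n : ℝ) + 1)) ≤ ‖mo 0 n‖ := by
  set x : ℝ := Real.sqrt ((n : ℝ) / ((n : ℝ) + 1)) with hx
  have hx0 : 0 ≤ x := Real.sqrt_nonneg _
  have hx2 : x ^ 2 = (n : ℝ) / ((n : ℝ) + 1) := Real.sq_sqrt (by positivity)
  have hx1 : x ≤ 1 := by
    have h1 : x ^ 2 ≤ 1 := by
      rw [hx2]
      exact div_le_one_of_le₀ (by linarith) (by positivity)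
    nlinarith
  have hxn : ‖(x : ℂ)‖ = x := by rw [Complex.norm_real, Real.norm_of_nonneg hx0]
  let z : Ds := ⟨(x : ℂ), by rw [mem_closedBall_zero_iff, hxn]; exact hx1⟩
  refine le_trans ?_ ((mo 0 n).norm_coe_le_norm z)
  rw [norm_mo_apply]
  change _ ≤ (1 - ‖(x : ℂ)‖ ^ 2) ^ (0 + 1) * ‖(x : ℂ)‖ ^ n
  rw [hxn, hx2, zero_add, pow_one]
  have h1 : 1 - (n : ℝ) / ((n : ℝ) + 1) = 1 / ((n : ℝ) + 1) := by field_simp; ring
  have h2 := half_le_pow hx0 hx2
  rw [h1]
  calc 1 / (2 * ((n : ℝ) + 1)) = 1 / ((n : ℝ) + 1) * (1 / 2) := by field_simp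
    _ ≤ 1 / ((n : ℝ) + 1) * x ^ n := by gcongr

theorem norm_mo_pos (b n : ℕ) : 0 < ‖mo b n‖ := by
  have hxn : ‖((1 / 2 : ℝ) : ℂ)‖ = 1 / 2 := by
    rw [Complex.norm_real, Real.norm_of_nonneg (by norm_num)]
  let z : Ds := ⟨((1 / 2 : ℝ) : ℂ), by rw [mem_closedBall_zero_iff, hxn]; norm_num⟩
  refine lt_of_lt_of_le ?_ ((mo b n).norm_coe_le_norm z)
  rw [norm_mo_apply]
  change 0 < (1 - ‖((1 / 2 : ℝ) : ℂ)‖ ^ 2) ^ (b + 1) * ‖((1 / 2 : ℝ) : ℂ)‖ ^ n
  rw [hxn]
  norm_num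

end Q4.Lip
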