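import Pool.Agent.Q4.HCB.Defs2

/-!
# The Sobolev gap and the weights `w_t`
-/

open Filter Topology
open scoped NNReal ENNReal

namespace Q4.HC

variable {r : ℕ}

/-- The norm on `𝔤 = sl(2, ℝ)^r` given by the `Ad(K)`-invariant inner product
`∑ tr (X_i Y_iᵀ)`. -/
noncomputable def frob (Y : Fin r → Matrix (Fin 2) (Fin 2) ℝ) : ℝ :=
  Real.sqrt (∑ i, ∑ a, ∑ b, Y i a b ^ 2)

/-- The adjoint action of `G = SL(2, ℝ)^r` on `𝔤 = sl(2, ℝ)^r`. -/
def Ad (g : G r) (Y : Fin r → Matrix (Fin 2) (Fin 2) ℝ) : Fin r → Matrix (Fin 2) (Fin 2) ℝ :=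
  fun i => (g i : Matrix (Fin 2) (Fin 2) ℝ) * Y i * ((g i)⁻¹ : Matrix.SpecialLinearGroup (Fin 2) ℝ)

/-- The operator norm `‖Ad(g)‖` on `𝔤`. -/
noncomputable def adNorm (g : G r) : ℝ :=
  sSup {x | ∃ Y : Fin r → Matrix (Fin 2) (Fin 2) ℝ, (∀ i, (Y i).trace = 0) ∧ frob Y ≤ 1 ∧
    x = frob (Ad g Y)}

/-- The function `w_t(g) = w(g) ‖Ad(g)‖ ^ t`. -/
noncomputable def wt (w : G r → ℝ) (t : ℝ≥0) (g : G r) : ℝ := w g * adNorm g ^ (t : ℝ)

variable {V : Type} [AddCommGroup V] [Module ℂ V]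

/-- The Sobolev gap `s(V, w)`, the supremum of the distances `d([p], [q])` of two classes of
norms of `Norm(V, w)` (it is the distance of the minimal and the maximal class). The number `c`
is the normalization of the invariant form. -/
noncomputable def gap (D : Ops r V) (c : ℝ) (w : G r → ℝ) : ℝ≥0∞ :=
  ⨆ (p : V → ℝ) (_ : InNorm D w p) (q : V → ℝ) (_ : InNorm D w q), sobDist D c p q

/-- If `Norm(V, w)` has a minimal class and a maximal class, then the gap is their distance. -/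
theorem gap_eq (D : Ops r V) (c : ℝ) (w : G r → ℝ) {p q : V → ℝ} (hp : InNorm D w p)
    (hq : InNorm D w q) (h : ∀ p', InNorm D w p' → Dominated p p' ∧ Dominated p' q) :
    gap D c w = sobDist D c p q := by
  have key : ∀ p₁ p₂, InNorm D w p₁ → InNorm D w p₂ → dArrow D c p₁ p₂ ≤ dArrow D c q p := by
    intro p₁ p₂ h1 h2
    refine le_iInf₂ fun s hs => ?_
    obtain ⟨T, hT, C, hC, hle⟩ := hs
    obtain ⟨C₁, hC₁, hle₁⟩ := (h p₁ h1).2
    obtain ⟨C₂, hC₂, hle₂⟩ := (h p₂ h2).1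
    refine iInf₂_le s ⟨T, hT, C₁ * (C * C₂), by positivity, fun v => ?_⟩
    calc p₁ v ≤ C₁ * q v := hle₁ v
      _ ≤ C₁ * (C * p (T v)) := mul_le_mul_of_nonneg_left (hle v) hC₁.le
      _ ≤ C₁ * (C * (C₂ * p₂ (T v))) :=
        mul_le_mul_of_nonneg_left (mul_le_mul_of_nonneg_left (hle₂ _) hC.le) hC₁.le
      _ = C₁ * (C * C₂) * p₂ (T v) := by ring
  apply le_antisymm
  · refine iSup₂_le fun p₁ h1 => iSup₂_le fun p₂ h2 => ?_
    exact (max_le (key p₁ p₂ h1 h2) (key p₂ p₁ h2 h1)).trans (le_max_right _ _)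
  · exact le_iSup₂_of_le p hp (le_iSup₂_of_le q hq le_rfl)

end Q4.HC
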