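import Pool.Agent.Q4.Lip.VMod
import Pool.Agent.Q4.HC.Mob

/-!
# The action of `SL(2, ℝ)` on the continuous functions on the closed unit disc
-/

open Filter Topology ComplexConjugate

namespace Q4.Lip

open Q4.HC

/-- The closed unit disc. -/
abbrev Ds : Type := Metric.closedBall (0 : ℂ) 1

instance : CompactSpace Ds := isCompact_iff_compactSpace.1 (isCompact_closedBall 0 1)

theorem norm_Ds (z : Ds) : ‖(z : ℂ)‖ ≤ 1 := by
  have := z.2
  rwa [mem_closedBall_zero_iff] at this

theorem norm_al_be (g : SL) : ‖al g‖ ^ 2 - ‖be g‖ ^ 2 = 1 := by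
  have h1 := al_be g
  rw [Complex.mul_conj, Complex.mul_conj, Complex.normSq_eq_norm_sq, Complex.normSq_eq_norm_sq] at h1
  exact_mod_cast h1

theorem norm_be_lt (g : SL) : ‖be g‖ < ‖al g‖ := by
  have h1 := norm_al_be g
  by_contra h
  push Not at h
  have := norm_nonneg (al g)
  nlinarith

theorem al_ne (g : SL) : al g ≠ 0 := by
  intro h
  have := norm_be_lt g
  rw [h, norm_zero] at this
  exact absurd this (not_lt.2 (norm_nonneg _))

/-- The size of an element of `SL(2, ℝ)`. -/
noncomputable def sz (g : SL) : ℝ := ‖al g‖ + ‖be g‖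

theorem sz_mul (g h : SL) : sz (g * h) ≤ sz g * sz h := by
  rw [sz, sz, sz, al_mul, be_mul]
  have h1 : ‖al g * al h + be g * conj (be h)‖ ≤ ‖al g‖ * ‖al h‖ + ‖be g‖ * ‖be h‖ := by
    refine (norm_add_le _ _).trans ?_
    rw [norm_mul, norm_mul, RCLike.norm_conj]
  have h2 : ‖al g * be h + be g * conj (al h)‖ ≤ ‖al g‖ * ‖be h‖ + ‖be g‖ * ‖al h‖ := by
    refine (norm_add_le _ _).trans ?_
    rw [norm_mul, norm_mul, RCLike.norm_conj]
  linarith

theorem sz_mul_sub (g : SL) : sz g * (‖al g‖ - ‖be g‖) = 1 := by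
  rw [sz]
  linarith [norm_al_be g]

theorem one_le_sz (g : SL) : 1 ≤ sz g := by
  have h1 := norm_al_be g
  have h2 := norm_nonneg (al g)
  have h3 := norm_nonneg (be g)
  rw [sz]
  nlinarith

theorem sz_pos (g : SL) : 0 < sz g := lt_of_lt_of_le one_pos (one_le_sz g)

theorem continuous_sz : Continuous sz := continuous_al.norm.add continuous_be.norm

theorem sz_inv (g : SL) : sz g⁻¹ = sz g := by
  rw [sz, sz, al_inv, be_inv, RCLike.norm_conj, norm_neg]

theorem den_ne' (g : SL) (z : Ds) : den g z ≠ 0 := by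
  intro h
  rw [den] at h
  have h1 : conj (al g) = -(conj (be g) * z) := by linear_combination h
  have h2 : ‖al g‖ = ‖be g‖ * ‖(z : ℂ)‖ := by
    rw [← RCLike.norm_conj (al g), h1, norm_neg, norm_mul, RCLike.norm_conj]
  have h3 := norm_be_lt g
  have h4 := norm_Ds z
  nlinarith [norm_nonneg (be g), norm_nonneg (z : ℂ)]

/-- The conformal identity. -/
theorem den_num (g : SL) (z : ℂ) :
    den g z * conj (den g z) - num g z * conj (num g z) = 1 - z * conj z := by
  have h := al_be g
  rw [den, num]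
  simp only [map_add, map_mul, Complex.conj_conj]
  linear_combination (1 - z * conj z) * h

theorem norm_num_le (g : SL) (z : Ds) : ‖num g z‖ ≤ ‖den g z‖ := by
  have h1 := den_num g z
  rw [Complex.mul_conj, Complex.mul_conj, Complex.mul_conj, Complex.normSq_eq_norm_sq,
    Complex.normSq_eq_norm_sq, Complex.normSq_eq_norm_sq] at h1
  have h2 : ‖den g z‖ ^ 2 - ‖num g z‖ ^ 2 = 1 - ‖(z : ℂ)‖ ^ 2 := by exact_mod_cast h1
  have h3 := norm_Ds z
  have h4 := norm_nonneg (z : ℂ)
  have h5 : ‖(z : ℂ)‖ ^ 2 ≤ 1 := by nlinarith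
  exact le_of_sq_le_sq (by linarith) (norm_nonneg _)

theorem norm_dmob (g : SL) (z : Ds) : ‖num g z / den g z‖ ≤ 1 := by
  rw [norm_div]
  exact div_le_one_of_le₀ (norm_num_le g z) (norm_nonneg _)

/-- The action on the closed disc. -/
noncomputable def dmob (g : SL) (z : Ds) : Ds :=
  ⟨num g z / den g z, mem_closedBall_zero_iff.2 (norm_dmob g z)⟩

theorem dmob_coe (g : SL) (z : Ds) : (dmob g z : ℂ) = num g z / den g z := rfl

theorem den_mul (g h : SL) (z : Ds) : den (g * h) z = den g (dmob h z) * den h z := by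
  have h1 := den_ne' h z
  have hq : num h z / den h z * den h z = num h z := div_mul_cancel₀ _ h1
  rw [dmob_coe]
  generalize num h z / den h z = q at hq
  simp only [num, den, al_mul, be_mul, map_add, map_mul, Complex.conj_conj] at hq ⊢
  linear_combination (-(conj (be g))) * hq

theorem num_mul (g h : SL) (z : Ds) : num (g * h) z = num g (dmob h z) * den h z := by
  have h1 := den_ne' h z
  have hq : num h z / den h z * den h z = num h z := div_mul_cancel₀ _ h1
  rw [dmob_coe]
  generalize num h z / den h z = q at hq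
  simp only [num, den, al_mul, be_mul] at hq ⊢
  linear_combination (-(al g)) * hq

theorem dmob_mul (g h : SL) (z : Ds) : dmob (g * h) z = dmob g (dmob h z) := by
  apply Subtype.ext
  rw [dmob_coe, dmob_coe, den_mul, num_mul, mul_div_mul_right _ _ (den_ne' h z)]

theorem dmob_one (z : Ds) : dmob 1 z = z := by
  apply Subtype.ext
  rw [dmob_coe, num, den, al_one, be_one]
  simp

theorem continuous_num : Continuous fun p : SL × Ds => num p.1 p.2 := by
  have h1 : Continuous fun p : SL × Ds => al p.1 := continuous_al.comp continuous_fst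
  have h2 : Continuous fun p : SL × Ds => be p.1 := continuous_be.comp continuous_fst
  have h3 : Continuous fun p : SL × Ds => (p.2 : ℂ) :=
    continuous_subtype_val.comp continuous_snd
  exact (h1.mul h3).add h2

theorem continuous_den : Continuous fun p : SL × Ds => den p.1 p.2 := by
  have h1 : Continuous fun p : SL × Ds => al p.1 := continuous_al.comp continuous_fst
  have h2 : Continuous fun p : SL × Ds => be p.1 := continuous_be.comp continuous_fst
  have h3 : Continuous fun p : SL × Ds => (p.2 : ℂ) :=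
    continuous_subtype_val.comp continuous_snd
  exact ((Complex.continuous_conj.comp h2).mul h3).add (Complex.continuous_conj.comp h1)

theorem continuous_dmob : Continuous fun p : SL × Ds => dmob p.1 p.2 := by
  refine Continuous.subtype_mk ?_ _
  exact continuous_num.div continuous_den fun p => den_ne' p.1 p.2

theorem norm_den_le (g : SL) (z : Ds) : ‖den g z‖ ≤ sz g := by
  rw [den, sz]
  refine (norm_add_le _ _).trans ?_
  rw [norm_mul, RCLike.norm_conj, RCLike.norm_conj]
  have := norm_Ds z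
  nlinarith [norm_nonneg (be g)]

/-- The multiplier. -/
noncomputable def mlt (b : ℕ) (g : SL) (z : Ds) : ℂ :=
  (den g⁻¹ z * conj (den g⁻¹ z)) ^ (b + 1) / den g⁻¹ z ^ 2

theorem norm_mlt_le (b : ℕ) (g : SL) (z : Ds) : ‖mlt b g z‖ ≤ sz g ^ (2 * b) := by
  have h1 := den_ne' g⁻¹ z
  have h2 : 0 < ‖den g⁻¹ z‖ := norm_pos_iff.2 h1
  have h3 : ‖mlt b g z‖ = ‖den g⁻¹ z‖ ^ (2 * b) := by
    rw [mlt, norm_div, norm_pow, norm_pow, norm_mul, RCLike.norm_conj]
    rw [div_eq_iff (by positivity)]
    ring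
  rw [h3]
  have h4 := norm_den_le g⁻¹ z
  rw [sz_inv] at h4
  gcongr

theorem mlt_mul (b : ℕ) (g h : SL) (z : Ds) :
    mlt b (g * h) z = mlt b g z * mlt b h (dmob g⁻¹ z) := by
  rw [mlt, mlt, mlt, mul_inv_rev, den_mul, map_mul, div_mul_div_comm]
  congr 1
  · rw [← mul_pow]
    congr 1
    ring
  · rw [← mul_pow]
    congr 1
    ring

theorem den_one (z : Ds) : den 1 z = 1 := by
  rw [den, al_one, be_one]
  simp

theorem mlt_one (b : ℕ) (z : Ds) : mlt b 1 z = 1 := by
  rw [mlt, inv_one, den_one]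
  simp

theorem continuous_mlt (b : ℕ) : Continuous fun p : SL × Ds => mlt b p.1 p.2 := by
  have h1 : Continuous fun p : SL × Ds => (p.1⁻¹, p.2) := (continuous_fst.inv).prodMk continuous_snd
  have h2 : Continuous fun p : SL × Ds => den p.1⁻¹ p.2 :=
    Continuous.comp (g := fun p : SL × Ds => den p.1 p.2) (f := fun p : SL × Ds => (p.1⁻¹, p.2))
      continuous_den h1
  exact ((h2.mul (Complex.continuous_conj.comp h2)).pow _).div (h2.pow 2) fun p =>
    pow_ne_zero _ (den_ne' p.1⁻¹ p.2)

theorem continuous_dmob_inv : Continuous fun p : SL × Ds => dmob p.1⁻¹ p.2 := by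
  have h1 : Continuous fun p : SL × Ds => (p.1⁻¹, p.2) := (continuous_fst.inv).prodMk continuous_snd
  exact Continuous.comp (g := fun p : SL × Ds => dmob p.1 p.2)
    (f := fun p : SL × Ds => (p.1⁻¹, p.2)) continuous_dmob h1

theorem continuous_pair (g : SL) : Continuous fun z : Ds => (g, z) :=
  continuous_const.prodMk continuous_id

theorem continuous_mlt_right (b : ℕ) (g : SL) : Continuous (mlt b g) :=
  Continuous.comp (g := fun p : SL × Ds => mlt b p.1 p.2) (f := fun z : Ds => (g, z))
    (continuous_mlt b) (continuous_pair g)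

theorem continuous_dmob_right (g : SL) : Continuous (dmob g) :=
  Continuous.comp (g := fun p : SL × Ds => dmob p.1 p.2) (f := fun z : Ds => (g, z))
    continuous_dmob (continuous_pair g)

/-- The function `R(g) F`. -/
noncomputable def rfun (b : ℕ) (g : SL) (F : C(Ds, ℂ)) : C(Ds, ℂ) :=
  (⟨mlt b g, continuous_mlt_right b g⟩ : C(Ds, ℂ)) * F.comp ⟨dmob g⁻¹, continuous_dmob_right g⁻¹⟩

theorem rfun_apply (b : ℕ) (g : SL) (F : C(Ds, ℂ)) (z : Ds) :
    rfun b g F z = mlt b g z * F (dmob g⁻¹ z) := rfl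

theorem norm_rfun_le (b : ℕ) (g : SL) (F : C(Ds, ℂ)) : ‖rfun b g F‖ ≤ sz g ^ (2 * b) * ‖F‖ := by
  have := sz_pos g
  refine (ContinuousMap.norm_le _ (by positivity)).2 fun z => ?_
  rw [rfun_apply, norm_mul]
  exact mul_le_mul (norm_mlt_le b g z) (F.norm_coe_le_norm _) (norm_nonneg _) (by positivity)

/-- The representation of `SL(2, ℝ)` on the continuous functions on the closed disc. -/
noncomputable def RR (b : ℕ) : SL →* (C(Ds, ℂ) →L[ℂ] C(Ds, ℂ)) where
  toFun g := LinearMap.mkContinuous
    { toFun := rfun b g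
      map_add' := fun F F' => by
        ext z
        change mlt b g z * (F (dmob g⁻¹ z) + F' (dmob g⁻¹ z)) = mlt b g z * F (dmob g⁻¹ z) +
          mlt b g z * F' (dmob g⁻¹ z)
        ring
      map_smul' := fun c F => by
        ext z
        change mlt b g z * (c * F (dmob g⁻¹ z)) = c * (mlt b g z * F (dmob g⁻¹ z))
        ring } (sz g ^ (2 * b)) (norm_rfun_le b g)
  map_one' := by
    ext F z
    change mlt b 1 z * F (dmob 1⁻¹ z) = F z
    rw [mlt_one, inv_one, dmob_one, one_mul]
  map_mul' g h := by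
    ext F z
    change mlt b (g * h) z * F (dmob (g * h)⁻¹ z) =
      mlt b g z * (mlt b h (dmob g⁻¹ z) * F (dmob h⁻¹ (dmob g⁻¹ z)))
    rw [mlt_mul, mul_inv_rev, dmob_mul, mul_assoc]

theorem RR_apply (b : ℕ) (g : SL) (F : C(Ds, ℂ)) (z : Ds) :
    RR b g F z = mlt b g z * F (dmob g⁻¹ z) := rfl

theorem norm_RR_le (b : ℕ) (g : SL) (F : C(Ds, ℂ)) : ‖RR b g F‖ ≤ sz g ^ (2 * b) * ‖F‖ :=
  norm_rfun_le b g F

theorem continuous_RR (b : ℕ) (F : C(Ds, ℂ)) : Continuous fun g => RR b g F := by
  refine ContinuousMap.continuous_of_continuous_uncurry _ ?_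
  have h1 : Continuous (F ∘ fun p : SL × Ds => dmob p.1⁻¹ p.2) :=
    Continuous.comp F.continuous continuous_dmob_inv
  have h2 : Continuous fun p : SL × Ds => mlt b p.1 p.2 * F (dmob p.1⁻¹ p.2) :=
    (continuous_mlt b).mul h1
  exact h2

end Q4.Lip
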