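import Pool.Agent.Q4.Lip.Disc

/-!
# The embeddings of the lowest weight module
-/

open Filter Topology ComplexConjugate

namespace Q4.Lip

open Q4.HC

/-- The coordinate function on the disc. -/
noncomputable def Zc : C(Ds, ℂ) := ⟨fun z => (z : ℂ), continuous_subtype_val⟩

theorem Zc_apply (z : Ds) : Zc z = z := rfl

/-- The function `1 - |z|²`. -/
noncomputable def oc : C(Ds, ℂ) := 1 - Zc * star Zc

theorem oc_apply (z : Ds) : oc z = 1 - (z : ℂ) * conj (z : ℂ) := rfl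

/-- The numerator of the inverse transformation. -/
noncomputable def nu (g : SL) : C(Ds, ℂ) :=
  algebraMap ℂ _ (conj (al g)) * Zc - algebraMap ℂ _ (be g)

/-- The denominator of the inverse transformation. -/
noncomputable def de (g : SL) : C(Ds, ℂ) :=
  algebraMap ℂ _ (al g) - algebraMap ℂ _ (conj (be g)) * Zc

theorem num_inv (g : SL) (z : ℂ) : num g⁻¹ z = conj (al g) * z - be g := by
  rw [num, al_inv, be_inv]
  ring

theorem den_inv (g : SL) (z : ℂ) : den g⁻¹ z = al g - conj (be g) * z := by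
  rw [den, al_inv, be_inv, Complex.conj_conj, map_neg]
  ring

theorem nu_apply (g : SL) (z : Ds) : nu g z = num g⁻¹ z := by
  rw [num_inv]
  rfl

theorem de_apply (g : SL) (z : Ds) : de g z = den g⁻¹ z := by
  rw [den_inv]
  rfl

theorem continuous_dinv : Continuous fun p : SL × Ds => (den p.1⁻¹ p.2)⁻¹ := by
  have h1 : Continuous fun p : SL × Ds => (p.1⁻¹, p.2) := (continuous_fst.inv).prodMk continuous_snd
  have h2 : Continuous fun p : SL × Ds => den p.1⁻¹ p.2 :=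
    Continuous.comp (g := fun p : SL × Ds => den p.1 p.2) (f := fun p : SL × Ds => (p.1⁻¹, p.2))
      continuous_den h1
  exact h2.inv₀ fun p => den_ne' p.1⁻¹ p.2

/-- The inverse of the denominator. -/
noncomputable def io (g : SL) : C(Ds, ℂ) := ⟨fun z => (den g⁻¹ z)⁻¹,
  Continuous.comp (g := fun p : SL × Ds => (den p.1⁻¹ p.2)⁻¹) (f := fun z : Ds => (g, z))
    continuous_dinv (continuous_pair g)⟩

theorem io_apply (g : SL) (z : Ds) : io g z = (den g⁻¹ z)⁻¹ := rfl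

theorem continuous_io : Continuous io :=
  ContinuousMap.continuous_of_continuous_uncurry _ continuous_dinv

theorem io_mul (g : SL) : io g * de g = 1 := by
  ext z
  change io g z * de g z = 1
  rw [io_apply, de_apply, inv_mul_cancel₀ (den_ne' _ _)]

/-- The monomials. -/
noncomputable def mo (b n : ℕ) : C(Ds, ℂ) := oc ^ (b + 1) * Zc ^ n

theorem mo_apply (b n : ℕ) (z : Ds) : mo b n z = (1 - (z : ℂ) * conj (z : ℂ)) ^ (b + 1) * (z : ℂ) ^ n :=
  rfl

theorem RR_mo (b n : ℕ) (g : SL) : RR b g (mo b n) = oc ^ (b + 1) * (nu g ^ n * io g ^ (n + 2)) := by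
  ext z
  change mlt b g z * mo b n (dmob g⁻¹ z) = (1 - (z : ℂ) * conj (z : ℂ)) ^ (b + 1) *
    (nu g z ^ n * io g z ^ (n + 2))
  have h1 := den_num g⁻¹ z
  have h2 := den_ne' g⁻¹ z
  rw [nu_apply, io_apply, mo_apply, dmob_coe, mlt, map_div₀]
  have h3 : conj (den g⁻¹ z) ≠ 0 := by
    rw [Ne, map_eq_zero]
    exact h2
  have h4 : (1 - num g⁻¹ z / den g⁻¹ z * (conj (num g⁻¹ z) / conj (den g⁻¹ z))) =
      (1 - (z : ℂ) * conj (z : ℂ)) / (den g⁻¹ z * conj (den g⁻¹ z)) := by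
    rw [← h1]
    field_simp
  rw [h4, div_pow, div_pow]
  have h5 : (den g⁻¹ z * conj (den g⁻¹ z)) ^ (b + 1) ≠ 0 := pow_ne_zero _ (mul_ne_zero h2 h3)
  rw [inv_pow, pow_add (den g⁻¹ z) n 2]
  field_simp

/-- The embeddings. -/
noncomputable def JJ (b : ℕ) : VP →ₗ[ℂ] C(Ds, ℂ) := Finsupp.linearCombination ℂ (mo b)

theorem JJ_single (b n : ℕ) (c : ℂ) : JJ b (Finsupp.single n c) = c • mo b n :=
  Finsupp.linearCombination_single ..

variable {r : ℕ}

theorem hasDerivAt_nu {Y : Fin r → Matrix (Fin 2) (Fin 2) ℝ} {γ : ℝ → G r} (h : Curve Y γ)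
    (i : Fin r) : HasDerivAt (fun t => nu (γ t i))
      (algebraMap ℂ _ (conj (((Y i 1 0 - Y i 0 1 : ℝ) : ℂ) * Complex.I / 2)) * Zc -
        algebraMap ℂ _ ((Y i 0 0 : ℂ) + ((Y i 1 0 + Y i 0 1 : ℝ) : ℂ) * Complex.I / 2)) 0 := by
  have hbe := h.be_der i
  have hal' := (h.al_der i).star
  let J : ℂ →L[ℝ] C(Ds, ℂ) := (Algebra.linearMap ℂ C(Ds, ℂ)).toContinuousLinearMap.restrictScalars ℝ
  have hJ : ∀ z, J z = algebraMap ℂ _ z := fun z => rfl
  have hbeJ := J.hasFDerivAt.comp_hasDerivAt (0 : ℝ) hbe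
  have halJ' := J.hasFDerivAt.comp_hasDerivAt (0 : ℝ) hal'
  simp only [Function.comp_def, hJ] at hbeJ halJ'
  exact (halJ'.mul_const Zc).fun_sub hbeJ

theorem hasDerivAt_de {Y : Fin r → Matrix (Fin 2) (Fin 2) ℝ} {γ : ℝ → G r} (h : Curve Y γ)
    (i : Fin r) : HasDerivAt (fun t => de (γ t i))
      (algebraMap ℂ _ (((Y i 1 0 - Y i 0 1 : ℝ) : ℂ) * Complex.I / 2) -
        algebraMap ℂ _ (conj ((Y i 0 0 : ℂ) + ((Y i 1 0 + Y i 0 1 : ℝ) : ℂ) * Complex.I / 2)) * Zc)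
        0 := by
  have hal := h.al_der i
  have hbe' := (h.be_der i).star
  let J : ℂ →L[ℝ] C(Ds, ℂ) := (Algebra.linearMap ℂ C(Ds, ℂ)).toContinuousLinearMap.restrictScalars ℝ
  have hJ : ∀ z, J z = algebraMap ℂ _ z := fun z => rfl
  have halJ := J.hasFDerivAt.comp_hasDerivAt (0 : ℝ) hal
  have hbeJ' := J.hasFDerivAt.comp_hasDerivAt (0 : ℝ) hbe'
  simp only [Function.comp_def, hJ] at halJ hbeJ'
  exact halJ.fun_sub (hbeJ'.mul_const Zc)

theorem de_one : de 1 = 1 := by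
  rw [de, al_one, be_one, map_one, map_zero, map_zero, zero_mul, sub_zero]

theorem nu_one : nu 1 = Zc := by
  rw [nu, al_one, be_one, map_one, map_one, map_zero, one_mul, sub_zero]

theorem io_one : io 1 = 1 := by
  have := io_mul 1
  rwa [de_one, mul_one] at this

theorem hasDerivAt_io {Y : Fin r → Matrix (Fin 2) (Fin 2) ℝ} {γ : ℝ → G r} (h : Curve Y γ)
    (i : Fin r) : HasDerivAt (fun t => io (γ t i))
      (-(algebraMap ℂ _ (((Y i 1 0 - Y i 0 1 : ℝ) : ℂ) * Complex.I / 2) -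
        algebraMap ℂ _ (conj ((Y i 0 0 : ℂ) + ((Y i 1 0 + Y i 0 1 : ℝ) : ℂ) * Complex.I / 2)) * Zc))
        0 := by
  have hc : ContinuousAt (fun t => io (γ t i)) 0 := by
    have h1 : ContinuousAt (fun t => γ t i) 0 := (continuousAt_pi.1 h.continuousAt) i
    exact ContinuousAt.comp (f := fun t => γ t i) (g := io) continuous_io.continuousAt h1
  have hW : HasDerivAt (fun t => 1 - de (γ t i))
      (-(algebraMap ℂ _ (((Y i 1 0 - Y i 0 1 : ℝ) : ℂ) * Complex.I / 2) -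
        algebraMap ℂ _ (conj ((Y i 0 0 : ℂ) + ((Y i 1 0 + Y i 0 1 : ℝ) : ℂ) * Complex.I / 2)) * Zc))
        0 := (hasDerivAt_de h i).const_sub 1
  have h0 : (fun t => 1 - de (γ t i)) 0 = 0 := by
    change 1 - de (γ 0 i) = 0
    rw [h.one, Pi.one_apply, de_one, sub_self]
  have hprod := (hasDerivAt_mul_of_zero hc hW h0).const_add (1 : C(Ds, ℂ))
  have hfun : (fun t => 1 + io (γ t i) * (1 - de (γ t i))) = fun t => io (γ t i) := by
    funext t
    rw [mul_sub, io_mul, mul_one]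
    ring
  rw [hfun] at hprod
  refine hprod.congr_deriv ?_
  rw [h.one, Pi.one_apply, io_one, one_mul]

theorem hact_single (Y : Matrix (Fin 2) (Fin 2) ℝ) (n : ℕ) (c : ℂ) :
    hact Y (Finsupp.single n c) =
      Finsupp.single (n + 1) (c * ((n : ℂ) + 2) *
        ((Y 0 0 : ℂ) - ((Y 1 0 + Y 0 1 : ℝ) : ℂ) * Complex.I / 2)) +
      Finsupp.single (n - 1) (c * (n : ℂ) *
        (-((Y 0 0 : ℂ) + ((Y 1 0 + Y 0 1 : ℝ) : ℂ) * Complex.I / 2))) +
      Finsupp.single n (c * ((n : ℂ) + 1) * (-(((Y 1 0 - Y 0 1 : ℝ) : ℂ) * Complex.I))) := by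
  have h1 : hact Y (Finsupp.single n c) = ((Y 0 0 : ℂ) - ((Y 1 0 + Y 0 1 : ℝ) : ℂ) * Complex.I / 2) •
      Sp (Finsupp.single n c) + (-((Y 0 0 : ℂ) + ((Y 1 0 + Y 0 1 : ℝ) : ℂ) * Complex.I / 2)) •
      Sm (Finsupp.single n c) + (-(((Y 1 0 - Y 0 1 : ℝ) : ℂ) * Complex.I)) •
      Mm (Finsupp.single n c) := by
    rw [hact, LinearMap.add_apply, LinearMap.add_apply, LinearMap.smul_apply, LinearMap.smul_apply,
      LinearMap.smul_apply, oh_apply, oe_apply, of_apply]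
    push_cast
    module
  rw [h1, Sp_single, Sm_single, Mm_single, Finsupp.smul_single, Finsupp.smul_single,
    Finsupp.smul_single, smul_eq_mul, smul_eq_mul, smul_eq_mul]
  congr 1
  · congr 1
    · congr 1
      ring
    · congr 1
      ring
  · congr 1
    ring

theorem JJ_hact (b : ℕ) (Y : Matrix (Fin 2) (Fin 2) ℝ) (n : ℕ) (c : ℂ) :
    JJ b (hact Y (Finsupp.single n c)) = c • (oc ^ (b + 1) *
      ((n : C(Ds, ℂ)) * Zc ^ (n - 1) * (algebraMap ℂ _ (conj (((Y 1 0 - Y 0 1 : ℝ) : ℂ) *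
        Complex.I / 2)) * Zc -
        algebraMap ℂ _ ((Y 0 0 : ℂ) + ((Y 1 0 + Y 0 1 : ℝ) : ℂ) * Complex.I / 2)) * 1 ^ (n + 2) +
      Zc ^ n * (((n + 2 : ℕ) : C(Ds, ℂ)) * 1 ^ (n + 2 - 1) *
        (-(algebraMap ℂ _ (((Y 1 0 - Y 0 1 : ℝ) : ℂ) * Complex.I / 2) -
        algebraMap ℂ _ (conj ((Y 0 0 : ℂ) + ((Y 1 0 + Y 0 1 : ℝ) : ℂ) * Complex.I / 2)) * Zc))))) := by
  rw [hact_single, map_add, map_add, JJ_single, JJ_single, JJ_single]
  ext z
  change _ * (_ * (z : ℂ) ^ (n + 1)) + _ * (_ * (z : ℂ) ^ (n - 1)) + _ * (_ * (z : ℂ) ^ n) =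
    c * ((1 - (z : ℂ) * conj (z : ℂ)) ^ (b + 1) * ((n : ℂ) * (z : ℂ) ^ (n - 1) *
      (conj (((Y 1 0 - Y 0 1 : ℝ) : ℂ) * Complex.I / 2) * (z : ℂ) -
        ((Y 0 0 : ℂ) + ((Y 1 0 + Y 0 1 : ℝ) : ℂ) * Complex.I / 2)) * 1 ^ (n + 2) +
      (z : ℂ) ^ n * (((n + 2 : ℕ) : ℂ) * 1 ^ (n + 2 - 1) *
        (-((((Y 1 0 - Y 0 1 : ℝ) : ℂ) * Complex.I / 2) -
        (conj ((Y 0 0 : ℂ) + ((Y 1 0 + Y 0 1 : ℝ) : ℂ) * Complex.I / 2)) * (z : ℂ))))))
  have e1 : (oc ^ (b + 1)) z = (1 - (z : ℂ) * conj (z : ℂ)) ^ (b + 1) := rfl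
  rw [e1]
  simp only [map_add, map_mul, map_div₀, Complex.conj_ofReal, Complex.conj_I, map_ofNat, one_pow]
  rcases n with _ | n
  · push_cast
    ring
  · rw [Nat.add_sub_cancel]
    push_cast
    ring

theorem hasDerivAt_RR {Y : Fin r → Matrix (Fin 2) (Fin 2) ℝ} {γ : ℝ → G r} (h : Curve Y γ)
    (i : Fin r) (b : ℕ) (v : VP) :
    HasDerivAt (fun t => RR b (γ t i) (JJ b v)) (JJ b (hact (Y i) v)) 0 := by
  induction v using Finsupp.induction_linear with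
  | zero =>
    simp only [map_zero]
    exact hasDerivAt_const _ _
  | add f g hf hg =>
    have h2 := hf.fun_add hg
    rw [← map_add (JJ b), ← map_add (hact (Y i))] at h2
    simp only [map_add] at h2 ⊢
    exact h2
  | single n c =>
    rw [JJ_hact]
    have h1 := (((hasDerivAt_nu h i).fun_pow n).fun_mul ((hasDerivAt_io h i).fun_pow
      (n + 2))).const_mul (oc ^ (b + 1))
    rw [h.one, Pi.one_apply, io_one, nu_one] at h1
    have h2 := h1.const_smul c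
    refine h2.congr_of_eventuallyEq (Eventually.of_forall fun t => ?_)
    simp only [JJ_single, map_smul, Pi.smul_apply, RR_mo]

end Q4.Lip
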