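import Mathlib

/-!
# Power bounded operators with a dense span of eigenvectors
-/

open Filter Topology

namespace Q4.Lip

/-- The averages of the powers of a number. -/
noncomputable def av (μ : ℂ) (N : ℕ) : ℂ := (N : ℂ)⁻¹ * ∑ k ∈ Finset.range N, μ ^ k

theorem av_one (N : ℕ) (hN : N ≠ 0) : av 1 N = 1 := by
  have : (N : ℂ) ≠ 0 := by exact_mod_cast hN
  rw [av]
  simp [this]

theorem av_tendsto_one : Tendsto (av 1) atTop (𝓝 1) := by
  refine tendsto_const_nhds.congr' ?_
  filter_upwards [eventually_ne_atTop 0] with N hN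
  exact (av_one N hN).symm

theorem av_tendsto_zero {μ : ℂ} (h1 : ‖μ‖ = 1) (hne : μ ≠ 1) : Tendsto (av μ) atTop (𝓝 0) := by
  have h2 : 0 < ‖μ - 1‖ := norm_pos_iff.2 (sub_ne_zero.2 hne)
  refine squeeze_zero_norm (a := fun N : ℕ => (2 / ‖μ - 1‖) * ((N : ℝ))⁻¹) (fun N => ?_) ?_
  · rw [av, norm_mul, norm_inv, Complex.norm_natCast, mul_comm, geom_sum_eq hne, norm_div]
    have h3 : ‖μ ^ N - 1‖ ≤ 2 := by
      refine (norm_sub_le _ _).trans ?_
      rw [norm_pow, h1, one_pow, norm_one]
      norm_num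
    gcongr
  · have := (tendsto_inv_atTop_zero (𝕜 := ℝ)).comp (tendsto_natCast_atTop_atTop (R := ℝ))
    have h3 := this.const_mul (2 / ‖μ - 1‖)
    rw [mul_zero] at h3
    exact h3

variable {E : Type} [NormedAddCommGroup E] [NormedSpace ℂ E]

theorem pow_eig {T : E →L[ℂ] E} {x : E} {μ : ℂ} (h : T x = μ • x) (k : ℕ) :
    (T ^ k) x = μ ^ k • x := by
  induction k with
  | zero => simp
  | succ k ih =>
    rw [pow_succ]
    change (T ^ k) (T x) = _
    rw [h, map_smul, ih, smul_smul, pow_succ, mul_comm]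

/-- The twisted averages of an operator. -/
noncomputable def AA (T : E →L[ℂ] E) (μ : ℂ) (N : ℕ) (x : E) : E :=
  (N : ℂ)⁻¹ • ∑ k ∈ Finset.range N, (μ⁻¹) ^ k • (T ^ k) x

theorem AA_eig {T : E →L[ℂ] E} {x : E} {ν : ℂ} (h : T x = ν • x) (μ : ℂ) (N : ℕ) :
    AA T μ N x = av (μ⁻¹ * ν) N • x := by
  rw [AA, av, mul_smul, Finset.sum_smul]
  congr 1
  refine Finset.sum_congr rfl fun k _ => ?_
  rw [pow_eig h, smul_smul, mul_pow]

theorem AA_add (T : E →L[ℂ] E) (μ : ℂ) (N : ℕ) (x y : E) :
    AA T μ N (x + y) = AA T μ N x + AA T μ N y := by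
  rw [AA, AA, AA, ← smul_add, ← Finset.sum_add_distrib]
  simp only [map_add, smul_add]

theorem AA_smul (T : E →L[ℂ] E) (μ : ℂ) (N : ℕ) (c : ℂ) (x : E) :
    AA T μ N (c • x) = c • AA T μ N x := by
  have h : ∑ k ∈ Finset.range N, (μ⁻¹) ^ k • (T ^ k) (c • x) =
      c • ∑ k ∈ Finset.range N, (μ⁻¹) ^ k • (T ^ k) x := by
    rw [Finset.smul_sum]
    refine Finset.sum_congr rfl fun k _ => ?_
    rw [map_smul, smul_comm]
  rw [AA, AA, h, smul_comm]

theorem AA_sub (T : E →L[ℂ] E) (μ : ℂ) (N : ℕ) (x y : E) :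
    AA T μ N (x - y) = AA T μ N x - AA T μ N y := by
  rw [AA, AA, AA, ← smul_sub, ← Finset.sum_sub_distrib]
  simp only [map_sub, smul_sub]

theorem AA_le {T : E →L[ℂ] E} {C : ℝ} (hC : 0 ≤ C) (hT : ∀ k x, ‖(T ^ k) x‖ ≤ C * ‖x‖) {μ : ℂ}
    (hμ : ‖μ‖ = 1) (N : ℕ) (x : E) : ‖AA T μ N x‖ ≤ C * ‖x‖ := by
  rcases eq_or_ne N 0 with rfl | hN
  · rw [AA]
    simp
    positivity
  · rw [AA, norm_smul, norm_inv, Complex.norm_natCast]
    have h1 : ‖∑ k ∈ Finset.range N, (μ⁻¹) ^ k • (T ^ k) x‖ ≤ N * (C * ‖x‖) := by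
      refine (norm_sum_le _ _).trans ?_
      calc ∑ k ∈ Finset.range N, ‖(μ⁻¹) ^ k • (T ^ k) x‖ ≤ ∑ _k ∈ Finset.range N, C * ‖x‖ := by
            refine Finset.sum_le_sum fun k _ => ?_
            rw [norm_smul, norm_pow, norm_inv, hμ, inv_one, one_pow, one_mul]
            exact hT k x
        _ = N * (C * ‖x‖) := by rw [Finset.sum_const, Finset.card_range, nsmul_eq_mul]
    have h2 : (0 : ℝ) < N := by exact_mod_cast Nat.pos_of_ne_zero hN
    calc (N : ℝ)⁻¹ * ‖∑ k ∈ Finset.range N, (μ⁻¹) ^ k • (T ^ k) x‖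
        ≤ (N : ℝ)⁻¹ * (N * (C * ‖x‖)) := by gcongr
      _ = C * ‖x‖ := by field_simp

/-- The bound for the coefficients. -/
theorem coef_bound {T : E →L[ℂ] E} {C : ℝ} (hC : 0 ≤ C) (hT : ∀ k x, ‖(T ^ k) x‖ ≤ C * ‖x‖)
    {e : ℕ → E} {l : ℕ → ℂ} (he : ∀ n, T (e n) = l n • e n) (hl : ∀ n, ‖l n‖ = 1)
    (hinj : Function.Injective l) (v : ℕ →₀ ℂ) (n : ℕ) :
    ‖v n • e n‖ ≤ C * ‖Finsupp.linearCombination ℂ e v‖ := by
  have hln : l n ≠ 0 := by
    intro h
    have := hl n
    rw [h, norm_zero] at this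
    exact zero_ne_one this
  have h1 : Tendsto (fun N => AA T (l n) N (Finsupp.linearCombination ℂ e v)) atTop
      (𝓝 (v n • e n)) := by
    induction v using Finsupp.induction_linear with
    | zero =>
      have : ∀ N, AA T (l n) N (0 : E) = 0 := by
        intro N
        rw [AA]
        simp
      rw [map_zero, Finsupp.zero_apply, zero_smul]
      simp only [this]
      exact tendsto_const_nhds
    | add f g hf hg =>
      rw [map_add, Finsupp.add_apply, add_smul]
      simp only [AA_add]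
      exact hf.add hg
    | single m c =>
      rw [Finsupp.linearCombination_single]
      simp only [AA_smul, AA_eig (he m)]
      by_cases hmn : m = n
      · subst hmn
        rw [Finsupp.single_eq_same, inv_mul_cancel₀ hln]
        have := (av_tendsto_one.smul_const (e m)).const_smul c
        rwa [one_smul] at this
      · rw [Finsupp.single_eq_of_ne (Ne.symm hmn), zero_smul]
        have h2 : (l n)⁻¹ * l m ≠ 1 := by
          intro h
          apply hmn
          apply hinj
          calc l m = l n * ((l n)⁻¹ * l m) := by field_simp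
            _ = l n := by rw [h, mul_one]
        have h3 : ‖(l n)⁻¹ * l m‖ = 1 := by
          rw [norm_mul, norm_inv, hl, hl, inv_one, one_mul]
        have := ((av_tendsto_zero h3 h2).smul_const (e m)).const_smul c
        rwa [zero_smul, smul_zero] at this
  refine le_of_tendsto h1.norm (Eventually.of_forall fun N => ?_)
  exact AA_le hC hT (hl n) N _

section

variable {T T' : E →L[ℂ] E} {C : ℝ} {e : ℕ → E} {l : ℕ → ℂ}

theorem lim_mem (he : ∀ n, T (e n) = l n • e n) (hl : ∀ n, ‖l n‖ = 1) {μ : ℂ} (hμ : ‖μ‖ = 1)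
    {v : E} (hv : v ∈ Submodule.span ℂ (Set.range e)) :
    ∃ w ∈ Submodule.span ℂ (e '' {n | l n = μ}), Tendsto (fun N => AA T μ N v) atTop (𝓝 w) := by
  have hμ0 : μ ≠ 0 := by
    intro h
    rw [h, norm_zero] at hμ
    exact zero_ne_one hμ
  induction hv using Submodule.span_induction with
  | mem v hv =>
    obtain ⟨n, rfl⟩ := hv
    by_cases hn : l n = μ
    · refine ⟨e n, Submodule.subset_span ⟨n, hn, rfl⟩, ?_⟩
      simp only [AA_eig (he n)]
      rw [hn, inv_mul_cancel₀ hμ0]
      have := av_tendsto_one.smul_const (e n)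
      rwa [one_smul] at this
    · refine ⟨0, Submodule.zero_mem _, ?_⟩
      simp only [AA_eig (he n)]
      have h2 : μ⁻¹ * l n ≠ 1 := by
        intro h
        apply hn
        calc l n = μ * (μ⁻¹ * l n) := by field_simp
          _ = μ := by rw [h, mul_one]
      have h3 : ‖μ⁻¹ * l n‖ = 1 := by
        rw [norm_mul, norm_inv, hl, hμ, inv_one, one_mul]
      have := (av_tendsto_zero h3 h2).smul_const (e n)
      rwa [zero_smul] at this
  | zero =>
    refine ⟨0, Submodule.zero_mem _, ?_⟩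
    have : ∀ N, AA T μ N (0 : E) = 0 := by
      intro N
      rw [AA]
      simp
    simp only [this]
    exact tendsto_const_nhds
  | add x y _ _ hx hy =>
    obtain ⟨w, hw, h1⟩ := hx
    obtain ⟨w', hw', h2⟩ := hy
    refine ⟨w + w', Submodule.add_mem _ hw hw', ?_⟩
    simp only [AA_add]
    exact h1.add h2
  | smul c x _ hx =>
    obtain ⟨w, hw, h1⟩ := hx
    refine ⟨c • w, Submodule.smul_mem _ _ hw, ?_⟩
    simp only [AA_smul]
    exact h1.const_smul c

theorem eig_mem (hC : 0 ≤ C) (hT : ∀ k x, ‖(T ^ k) x‖ ≤ C * ‖x‖)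
    (he : ∀ n, T (e n) = l n • e n) (hl : ∀ n, ‖l n‖ = 1) (hinj : Function.Injective l) {μ : ℂ}
    (hμ : ‖μ‖ = 1) {y : E} (hy : y ∈ (Submodule.span ℂ (Set.range e)).topologicalClosure)
    (hTy : T y = μ • y) : y ∈ Submodule.span ℂ (Set.range e) := by
  have hμ0 : μ ≠ 0 := by
    intro h
    rw [h, norm_zero] at hμ
    exact zero_ne_one hμ
  set L := Submodule.span ℂ (e '' {n | l n = μ}) with hL
  have hfin : FiniteDimensional ℂ L := by
    refine FiniteDimensional.span_of_finite ℂ (Set.Finite.image _ ?_)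
    refine Set.Subsingleton.finite fun m hm n hn => hinj ?_
    exact (show l m = μ from hm).trans (show l n = μ from hn).symm
  have hcl : IsClosed (L : Set E) := Submodule.closed_of_finiteDimensional L
  have hle : L ≤ Submodule.span ℂ (Set.range e) :=
    Submodule.span_mono (Set.image_subset_range _ _)
  apply hle
  have hmem : y ∈ closure (L : Set E) := by
    rw [Metric.mem_closure_iff]
    intro ε hε
    have hy' : y ∈ closure (Submodule.span ℂ (Set.range e) : Set E) := hy
    obtain ⟨v, hv, hd⟩ := Metric.mem_closure_iff.1 hy' (ε / (C + 1)) (by positivity)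
    obtain ⟨w, hw, hlim⟩ := lim_mem he hl hμ hv
    refine ⟨w, hw, ?_⟩
    have h1 : Tendsto (fun N => y - AA T μ N v) atTop (𝓝 (y - w)) := tendsto_const_nhds.sub hlim
    have h2 : ‖y - w‖ ≤ C * ‖y - v‖ := by
      refine le_of_tendsto h1.norm ?_
      filter_upwards [eventually_ne_atTop 0] with N hN
      have h3 : AA T μ N y = y := by
        rw [AA_eig hTy, inv_mul_cancel₀ hμ0, av_one N hN, one_smul]
      have h4 : y - AA T μ N v = AA T μ N (y - v) := by rw [AA_sub, h3]
      rw [h4]
      exact AA_le hC hT hμ N _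
    rw [dist_eq_norm] at hd ⊢
    calc ‖y - w‖ ≤ C * ‖y - v‖ := h2
      _ ≤ C * (ε / (C + 1)) := by gcongr
      _ < ε := by
        rw [mul_div_assoc', div_lt_iff₀ (by positivity)]
        nlinarith
  rwa [hcl.closure_eq] at hmem

theorem step (hC : 0 ≤ C) (hT : ∀ k x, ‖(T ^ k) x‖ ≤ C * ‖x‖) (hT' : ∀ k x, ‖(T' ^ k) x‖ ≤ C * ‖x‖)
    (hinv : ∀ x, T' (T x) = x)
    (he : ∀ n, T (e n) = l n • e n) (hl : ∀ n, ‖l n‖ = 1) (hinj : Function.Injective l) (μ : ℂ)
    {x : E} (hx : x ∈ (Submodule.span ℂ (Set.range e)).topologicalClosure)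
    (h : T x - μ • x ∈ Submodule.span ℂ (Set.range e)) : x ∈ Submodule.span ℂ (Set.range e) := by
  classical
  obtain ⟨c, hc⟩ := Finsupp.mem_span_range_iff_exists_finsupp.1 h
  set x' : E := c.sum fun n a => (if l n = μ then 0 else a / (l n - μ)) • e n with hx'
  set w : E := c.sum fun n a => (if l n = μ then a else 0) • e n with hw
  have hx'mem : x' ∈ Submodule.span ℂ (Set.range e) :=
    Submodule.sum_mem _ fun n _ => Submodule.smul_mem _ _ (Submodule.subset_span ⟨n, rfl⟩)
  have h1 : T x' - μ • x' = c.sum fun n a => (if l n = μ then 0 else a) • e n := by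
    rw [hx', Finsupp.sum, Finsupp.sum, map_sum, Finset.smul_sum, ← Finset.sum_sub_distrib]
    refine Finset.sum_congr rfl fun n _ => ?_
    rw [map_smul, he]
    split_ifs with hn
    · simp
    · have : l n - μ ≠ 0 := sub_ne_zero.2 hn
      rw [smul_smul, smul_smul, ← sub_smul]
      congr 1
      field_simp
  set y : E := x - x' with hy
  have hTy : T y - μ • y = w := by
    have h2 : T y - μ • y = (T x - μ • x) - (T x' - μ • x') := by
      rw [hy, map_sub, smul_sub]
      abel
    rw [h2, ← hc, h1, hw, Finsupp.sum, Finsupp.sum, Finsupp.sum, ← Finset.sum_sub_distrib]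
    refine Finset.sum_congr rfl fun n _ => ?_
    split_ifs with hn
    · simp
    · simp
  have hTw : T w = μ • w := by
    rw [hw, Finsupp.sum, map_sum, Finset.smul_sum]
    refine Finset.sum_congr rfl fun n _ => ?_
    rw [map_smul, he]
    split_ifs with hn
    · rw [hn, smul_comm]
    · simp
  have hTy' : T y = μ • y + w := by rw [← hTy]; abel
  have hy_cl : y ∈ (Submodule.span ℂ (Set.range e)).topologicalClosure :=
    Submodule.sub_mem _ hx (Submodule.le_topologicalClosure _ hx'mem)
  have hpow : ∀ k : ℕ, (T ^ (k + 1)) y = μ ^ (k + 1) • y + ((k + 1 : ℕ) * μ ^ k : ℂ) • w := by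
    intro k
    induction k with
    | zero =>
      rw [zero_add, pow_one, pow_one, hTy', pow_zero]
      simp
    | succ k ih =>
      have h3 : (T ^ (k + 1 + 1)) y = T ((T ^ (k + 1)) y) := by
        rw [pow_succ' T (k + 1)]
        rfl
      rw [h3, ih, map_add, map_smul, map_smul, hTy', hTw, smul_add, smul_smul, smul_smul]
      push_cast
      module
  have hw0 : w = 0 := by
    by_contra hne
    have hμ : ‖μ‖ = 1 := by
      have h3 : ∃ n, l n = μ := by
        by_contra hno
        push Not at hno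
        apply hne
        rw [hw, Finsupp.sum]
        refine Finset.sum_eq_zero fun n _ => ?_
        rw [if_neg (hno n), zero_smul]
      obtain ⟨n, hn⟩ := h3
      rw [← hn, hl]
    have h4 : ∀ k : ℕ, ((k + 1 : ℕ) : ℝ) * ‖w‖ ≤ (C + 1) * ‖y‖ := by
      intro k
      have h5 : ((k + 1 : ℕ) * μ ^ k : ℂ) • w = (T ^ (k + 1)) y - μ ^ (k + 1) • y := by
        rw [hpow k]
        abel
      have h6 : ‖((k + 1 : ℕ) * μ ^ k : ℂ) • w‖ = ((k + 1 : ℕ) : ℝ) * ‖w‖ := by
        rw [norm_smul, norm_mul, norm_pow, hμ, one_pow, mul_one, Complex.norm_natCast]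
      rw [← h6, h5]
      refine (norm_sub_le _ _).trans ?_
      rw [norm_smul, norm_pow, hμ, one_pow, one_mul]
      have := hT (k + 1) y
      linarith
    have hwpos : 0 < ‖w‖ := norm_pos_iff.2 hne
    obtain ⟨k, hk⟩ := exists_nat_gt ((C + 1) * ‖y‖ / ‖w‖)
    rw [div_lt_iff₀ hwpos] at hk
    have h7 := h4 k
    push_cast at h7
    nlinarith
  rw [hw0, add_zero] at hTy'
  have hymem : y ∈ Submodule.span ℂ (Set.range e) := by
    by_cases hy0 : y = 0
    · rw [hy0]
      exact Submodule.zero_mem _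
    have hypos : 0 < ‖y‖ := norm_pos_iff.2 hy0
    have hμ0 : μ ≠ 0 := by
      intro h0
      rw [h0, zero_smul] at hTy'
      apply hy0
      rw [← hinv y, hTy', map_zero]
    have hTy2 : T' y = μ⁻¹ • y := by
      have h3 : T' (T y) = T' (μ • y) := by rw [hTy']
      rw [hinv, map_smul] at h3
      calc T' y = μ⁻¹ • (μ • T' y) := by rw [smul_smul, inv_mul_cancel₀ hμ0, one_smul]
        _ = μ⁻¹ • y := by rw [← h3]
    have hbd : ∀ (S : E →L[ℂ] E) (ν : ℂ), (∀ k x, ‖(S ^ k) x‖ ≤ C * ‖x‖) → S y = ν • y →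
        ‖ν‖ ≤ 1 := by
      intro S ν hS hSy
      by_contra hgt
      push Not at hgt
      obtain ⟨k, hk⟩ := pow_unbounded_of_one_lt C hgt
      have h3 := hS k y
      rw [pow_eig hSy, norm_smul, norm_pow] at h3
      have h4 := le_of_mul_le_mul_right h3 hypos
      linarith
    have h3 := hbd T μ hT hTy'
    have h4 := hbd T' μ⁻¹ hT' hTy2
    rw [norm_inv] at h4
    have h5 : 1 ≤ ‖μ‖ := (inv_le_one₀ (norm_pos_iff.2 hμ0)).1 h4
    exact eig_mem hC hT he hl hinj (le_antisymm h3 h5) hy_cl hTy'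
  have : x = y + x' := by rw [hy]; abel
  rw [this]
  exact Submodule.add_mem _ hymem hx'mem

/-- A vector of the closed span of the eigenvectors which is contained in a finite dimensional
invariant subspace is a finite linear combination of eigenvectors. -/
theorem fin_mem (hC : 0 ≤ C) (hT : ∀ k x, ‖(T ^ k) x‖ ≤ C * ‖x‖)
    (hT' : ∀ k x, ‖(T' ^ k) x‖ ≤ C * ‖x‖) (hinv : ∀ x, T' (T x) = x)
    (he : ∀ n, T (e n) = l n • e n) (hl : ∀ n, ‖l n‖ = 1) (hinj : Function.Injective l)
    {W : Submodule ℂ E} [FiniteDimensional ℂ W] (hW : ∀ y ∈ W, T y ∈ W) {x : E} (hx : x ∈ W)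
    (hxc : x ∈ (Submodule.span ℂ (Set.range e)).topologicalClosure) :
    x ∈ Submodule.span ℂ (Set.range e) := by
  let A : Module.End ℂ E := T.toLinearMap
  have hAT : ∀ y, A y = T y := fun _ => rfl
  let R : W →ₗ[ℂ] W := T.toLinearMap.restrict hW
  have hR : ∀ y : W, ((R y : W) : E) = A y := fun y => rfl
  have h1 : ∀ (i : ℕ) (y : W), ((R ^ i) y : W) = ((A ^ i) (y : E) : E) := by
    intro i
    induction i with
    | zero => intro y; simp
    | succ i ih =>
      intro y
      rw [pow_succ, Module.End.mul_apply, ih, hR, pow_succ, Module.End.mul_apply]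
  have h2 : ∀ (P : Polynomial ℂ) (y : W),
      ((Polynomial.aeval R P) y : W) = (Polynomial.aeval A P) (y : E) := by
    intro P y
    rw [Polynomial.aeval_eq_sum_range, Polynomial.aeval_eq_sum_range, LinearMap.sum_apply,
      LinearMap.sum_apply, Submodule.coe_sum]
    refine Finset.sum_congr rfl fun i _ => ?_
    rw [LinearMap.smul_apply, LinearMap.smul_apply, Submodule.coe_smul, h1]
  have h3 : (Polynomial.aeval A R.charpoly) x = 0 := by
    have := h2 R.charpoly ⟨x, hx⟩
    rw [LinearMap.aeval_self_charpoly, LinearMap.zero_apply, Submodule.coe_zero] at this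
    exact this.symm
  have hcl : ∀ y ∈ (Submodule.span ℂ (Set.range e)).topologicalClosure,
      T y ∈ (Submodule.span ℂ (Set.range e)).topologicalClosure := by
    intro y hy
    have hmaps : Set.MapsTo T (Submodule.span ℂ (Set.range e) : Set E)
        (Submodule.span ℂ (Set.range e) : Set E) := by
      intro v hv
      induction hv using Submodule.span_induction with
      | mem v hv =>
        obtain ⟨n, rfl⟩ := hv
        rw [he]
        exact Submodule.smul_mem _ _ (Submodule.subset_span ⟨n, rfl⟩)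
      | zero => rw [map_zero]; exact Submodule.zero_mem _
      | add a b _ _ ha hb => rw [map_add]; exact Submodule.add_mem _ ha hb
      | smul c a _ ha => rw [map_smul]; exact Submodule.smul_mem _ _ ha
    exact hmaps.closure T.continuous hy
  have key : ∀ (d : ℕ) (P : Polynomial ℂ), P.natDegree = d → P ≠ 0 →
      ∀ y ∈ (Submodule.span ℂ (Set.range e)).topologicalClosure, (Polynomial.aeval A P) y = 0 →
        y ∈ Submodule.span ℂ (Set.range e) := by
    intro d
    induction d with
    | zero =>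
      intro P hd hP y _ hPy
      rw [Polynomial.eq_C_of_natDegree_eq_zero hd] at hPy hP
      rw [Polynomial.aeval_C] at hPy
      have h4 : P.coeff 0 • y = 0 := hPy
      have h5 : P.coeff 0 ≠ 0 := by
        intro h0
        rw [h0, map_zero] at hP
        exact hP rfl
      rw [(smul_eq_zero.1 h4).resolve_left h5]
      exact Submodule.zero_mem _
    | succ d ih =>
      intro P hd hP y hy hPy
      obtain ⟨μ, hμ⟩ := IsAlgClosed.exists_root P (by
        rw [Polynomial.degree_eq_natDegree hP, hd]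
        exact_mod_cast Nat.succ_ne_zero d)
      obtain ⟨Q, hQ⟩ := Polynomial.dvd_iff_isRoot.2 hμ
      have hQ0 : Q ≠ 0 := by
        rintro rfl
        rw [mul_zero] at hQ
        exact hP hQ
      have hdeg : Q.natDegree = d := by
        rw [hQ, Polynomial.natDegree_mul (Polynomial.X_sub_C_ne_zero μ) hQ0,
          Polynomial.natDegree_X_sub_C] at hd
        omega
      have h4 : T y - μ • y ∈ Submodule.span ℂ (Set.range e) := by
        refine ih Q hdeg hQ0 _ (Submodule.sub_mem _ (hcl y hy) (Submodule.smul_mem _ _ hy)) ?_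
        rw [hQ, mul_comm, map_mul, Module.End.mul_apply, map_sub, Polynomial.aeval_X,
          Polynomial.aeval_C] at hPy
        exact hPy
      exact step hC hT hT' hinv he hl hinj μ hy h4
  exact key _ R.charpoly rfl R.charpoly_monic.ne_zero x hxc h3

end

end Q4.Lip
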