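import Pool.Agent.Q4.Lip.Clos
import Pool.Agent.Q4.Lip.FinK

/-!
# The globalizations
-/

open Filter Topology ComplexConjugate

namespace Q4.Lip

open Q4.HC

theorem hasDerivAt_subtype {X : Type} [NormedAddCommGroup X] [NormedSpace ℂ X]
    {S : Submodule ℂ X} {f : ℝ → S} {f' : S} {t : ℝ}
    (h : HasDerivAt (fun t => (f t : X)) (f' : X) t) : HasDerivAt f f' t := by
  rw [hasDerivAt_iff_tendsto_slope] at h ⊢
  rw [Topology.IsInducing.subtypeVal.tendsto_nhds_iff]
  refine h.congr fun s => ?_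
  simp only [slope, vsub_eq_sub, Function.comp_apply]
  rfl

/-- The restriction of the representation to the closed subspace. -/
noncomputable def Rr (b : ℕ) : SL →* (EB b →L[ℂ] EB b) where
  toFun g := ((RR b g).comp (EB b).subtypeL).codRestrict (EB b) fun F => RR_mem b g F.2
  map_one' := by
    ext F : 1
    apply Subtype.ext
    change RR b 1 (F : C(Ds, ℂ)) = F
    rw [map_one]
    rfl
  map_mul' g h := by
    ext F : 1
    apply Subtype.ext
    change RR b (g * h) (F : C(Ds, ℂ)) = RR b g (RR b h (F : C(Ds, ℂ)))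
    rw [map_mul]
    rfl

theorem Rr_coe (b : ℕ) (g : SL) (F : EB b) : ((Rr b g F : EB b) : C(Ds, ℂ)) = RR b g F := rfl

theorem norm_Rr_le (b : ℕ) (g : SL) (F : EB b) : ‖Rr b g F‖ ≤ sz g ^ (2 * b) * ‖F‖ :=
  norm_RR_le b g F

theorem continuous_Rr (b : ℕ) (F : EB b) : Continuous fun g => Rr b g F :=
  Continuous.subtype_mk (continuous_RR b F) _

/-- The embedding into the closed subspace. -/
noncomputable def JE (b : ℕ) : VP →ₗ[ℂ] EB b :=
  (JJ b).codRestrict (EB b) fun v => Submodule.le_topologicalClosure _ ⟨v, rfl⟩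

theorem JE_coe (b : ℕ) (v : VP) : ((JE b v : EB b) : C(Ds, ℂ)) = JJ b v := rfl

theorem RR_rot_pow_le (b : ℕ) (θ : ℝ) (k : ℕ) (x : C(Ds, ℂ)) :
    ‖(RR b (rotS θ) ^ k) x‖ ≤ 1 * ‖x‖ := by
  induction k generalizing x with
  | zero => simp
  | succ k ih =>
    rw [pow_succ]
    change ‖(RR b (rotS θ) ^ k) (RR b (rotS θ) x)‖ ≤ _
    refine (ih _).trans ?_
    have := norm_RR_le b (rotS θ) x
    rw [sz_rotS, one_pow] at this
    linarith

theorem RR_rotS (b n : ℕ) : RR b (rotS 1) (mo b n) = lam n • mo b n :=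
  RR_mo_of_be (be_rotS 1) b n

theorem coef_le (b : ℕ) (v : VP) (n : ℕ) : ‖v n • mo b n‖ ≤ ‖JJ b v‖ := by
  have := coef_bound zero_le_one (RR_rot_pow_le b 1) (RR_rotS b) norm_lam lam_inj v n
  rwa [one_mul] at this

theorem JJ_inj (b : ℕ) : Function.Injective (JJ b) := by
  rw [injective_iff_map_eq_zero]
  intro v hv
  ext n
  have h1 := coef_le b v n
  rw [hv, norm_zero, norm_smul] at h1
  have h2 := norm_mo_pos b n
  have h3 : ‖v n‖ ≤ 0 := by
    by_contra h
    push Not at h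
    have : 0 < ‖v n‖ * ‖mo b n‖ := mul_pos h h2
    linarith
  exact norm_le_zero_iff.1 h3

theorem JE_inj (b : ℕ) : Function.Injective (JE b) := fun _ _ h =>
  JJ_inj b (congrArg Subtype.val h)

theorem JE_dense (b : ℕ) : DenseRange (JE b) := by
  rw [Metric.denseRange_iff]
  intro x r hr
  have hx : (x : C(Ds, ℂ)) ∈ closure (LinearMap.range (JJ b) : Set C(Ds, ℂ)) := x.2
  obtain ⟨y, ⟨v, rfl⟩, hv⟩ := Metric.mem_closure_iff.1 hx r hr
  exact ⟨v, hv⟩

theorem hasDerivAt_Rr {Y : Fin 2 → Matrix (Fin 2) (Fin 2) ℝ} {γ : ℝ → G 2} (h : Curve Y γ)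
    (b : ℕ) (v : VP) :
    HasDerivAt (fun t => Rr b (γ t 0) (JE b v)) (JE b (hact (Y 0) v)) 0 :=
  hasDerivAt_subtype (hasDerivAt_RR h 0 b v)

/-- The Banach space. -/
abbrev EE (b : ℕ) : Type := EB b × EB b

/-- The action of the second factor. -/
noncomputable def st (b : ℕ) (g : SL) : EE b →L[ℂ] EE b :=
  (((g 0 0 : ℝ) : ℂ) • ContinuousLinearMap.fst ℂ (EB b) (EB b) +
    ((g 0 1 : ℝ) : ℂ) • ContinuousLinearMap.snd ℂ (EB b) (EB b)).prod
  (((g 1 0 : ℝ) : ℂ) • ContinuousLinearMap.fst ℂ (EB b) (EB b) +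
    ((g 1 1 : ℝ) : ℂ) • ContinuousLinearMap.snd ℂ (EB b) (EB b))

theorem st_apply (b : ℕ) (g : SL) (x : EE b) :
    st b g x = (((g 0 0 : ℝ) : ℂ) • x.1 + ((g 0 1 : ℝ) : ℂ) • x.2,
      ((g 1 0 : ℝ) : ℂ) • x.1 + ((g 1 1 : ℝ) : ℂ) • x.2) := rfl

/-- The representations. -/
noncomputable def pr (b : ℕ) : G 2 →* (EE b →L[ℂ] EE b) where
  toFun g := (st b (g 1)).comp ((Rr b (g 0)).prodMap (Rr b (g 0)))
  map_one' := by
    refine ContinuousLinearMap.ext fun x => ?_
    change st b 1 (Rr b 1 x.1, Rr b 1 x.2) = x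
    rw [map_one, st_apply]
    simp
  map_mul' g h := by
    refine ContinuousLinearMap.ext fun x => ?_
    change st b (g 1 * h 1) (Rr b (g 0 * h 0) x.1, Rr b (g 0 * h 0) x.2) =
      st b (g 1) (Rr b (g 0) (st b (h 1) (Rr b (h 0) x.1, Rr b (h 0) x.2)).1,
        Rr b (g 0) (st b (h 1) (Rr b (h 0) x.1, Rr b (h 0) x.2)).2)
    have e : ∀ y, Rr b (g 0 * h 0) y = Rr b (g 0) (Rr b (h 0) y) := fun y => by
      rw [map_mul]
      rfl
    rw [st_apply, st_apply, st_apply, e, e]
    simp only [map_add, map_smul, Matrix.SpecialLinearGroup.coe_mul, Matrix.mul_apply,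
      Fin.sum_univ_two]
    push_cast
    refine Prod.ext ?_ ?_
    · simp only
      module
    · simp only
      module

theorem pr_apply (b : ℕ) (g : G 2) (x : EE b) : pr b g x =
    (((g 1 0 0 : ℝ) : ℂ) • Rr b (g 0) x.1 + ((g 1 0 1 : ℝ) : ℂ) • Rr b (g 0) x.2,
      ((g 1 1 0 : ℝ) : ℂ) • Rr b (g 0) x.1 + ((g 1 1 1 : ℝ) : ℂ) • Rr b (g 0) x.2) := rfl

theorem entry_le (g : SL) (i k : Fin 2) : |g i k| ≤ sz g := by
  have h1 : (al g).re = (g 0 0 + g 1 1) / 2 := by
    rw [al]
    simp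
  have h2 : (al g).im = (g 1 0 - g 0 1) / 2 := by
    rw [al]
    simp
  have h3 : (be g).re = (g 0 0 - g 1 1) / 2 := by
    rw [be]
    simp
  have h4 : (be g).im = (g 1 0 + g 0 1) / 2 := by
    rw [be]
    simp
  have a1 := Complex.abs_re_le_norm (al g)
  have a2 := Complex.abs_im_le_norm (al g)
  have a3 := Complex.abs_re_le_norm (be g)
  have a4 := Complex.abs_im_le_norm (be g)
  rw [h1, abs_le] at a1
  rw [h2, abs_le] at a2
  rw [h3, abs_le] at a3
  rw [h4, abs_le] at a4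
  rw [sz, abs_le]
  fin_cases i <;> fin_cases k
  · change -(‖al g‖ + ‖be g‖) ≤ g 0 0 ∧ g 0 0 ≤ ‖al g‖ + ‖be g‖
    constructor <;> linarith [a1.1, a1.2, a3.1, a3.2]
  · change -(‖al g‖ + ‖be g‖) ≤ g 0 1 ∧ g 0 1 ≤ ‖al g‖ + ‖be g‖
    constructor <;> linarith [a2.1, a2.2, a4.1, a4.2]
  · change -(‖al g‖ + ‖be g‖) ≤ g 1 0 ∧ g 1 0 ≤ ‖al g‖ + ‖be g‖
    constructor <;> linarith [a2.1, a2.2, a4.1, a4.2]
  · change -(‖al g‖ + ‖be g‖) ≤ g 1 1 ∧ g 1 1 ≤ ‖al g‖ + ‖be g‖
    constructor <;> linarith [a1.1, a1.2, a3.1, a3.2]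

theorem norm_pr_le (b : ℕ) (g : G 2) (x : EE b) :
    ‖pr b g x‖ ≤ 2 * (sz (g 0) ^ (2 * b) * sz (g 1)) * ‖x‖ := by
  have hx1 : ‖x.1‖ ≤ ‖x‖ := norm_fst_le x
  have hx2 : ‖x.2‖ ≤ ‖x‖ := norm_snd_le x
  have h0 := sz_pos (g 0)
  have h1 := sz_pos (g 1)
  have key : ∀ (i k : Fin 2) (y : EB b), ‖y‖ ≤ ‖x‖ →
      ‖((g 1 i k : ℝ) : ℂ) • Rr b (g 0) y‖ ≤ (sz (g 0) ^ (2 * b) * sz (g 1)) * ‖x‖ := by
    intro i k y hy
    rw [norm_smul, Complex.norm_real, Real.norm_eq_abs]
    have h3 := entry_le (g 1) i k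
    have h4 := norm_Rr_le b (g 0) y
    calc |g 1 i k| * ‖Rr b (g 0) y‖ ≤ sz (g 1) * (sz (g 0) ^ (2 * b) * ‖x‖) := by
          gcongr
          exact h4.trans (by gcongr)
      _ = _ := by ring
  rw [pr_apply, Prod.norm_def]
  refine max_le ?_ ?_
  · refine (norm_add_le _ _).trans ?_
    have e1 := key 0 0 x.1 hx1
    have e2 := key 0 1 x.2 hx2
    linarith
  · refine (norm_add_le _ _).trans ?_
    have e1 := key 1 0 x.1 hx1
    have e2 := key 1 1 x.2 hx2
    linarith

theorem continuous_entry (a i k : Fin 2) : Continuous fun g : G 2 => ((g a i k : ℝ) : ℂ) := by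
  have h : Continuous fun g : SL => g i k :=
    (continuous_subtype_val (p := fun A : Matrix (Fin 2) (Fin 2) ℝ => A.det = 1)).matrix_elem i k
  have h1 : Continuous fun g : G 2 => g a := continuous_apply (A := fun _ : Fin 2 => SL) a
  exact Complex.continuous_ofReal.comp (h.comp h1)

theorem continuous_pr (b : ℕ) (x : EE b) : Continuous fun g => pr b g x := by
  have h1 : Continuous fun g : G 2 => g 0 := continuous_apply (A := fun _ : Fin 2 => SL) 0
  have h2 : ∀ y : EB b, Continuous fun g : G 2 => Rr b (g 0) y := fun y =>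
    Continuous.comp (g := fun g : SL => Rr b g y) (f := fun g : G 2 => g 0) (continuous_Rr b y) h1
  exact (((continuous_entry 1 0 0).smul (h2 x.1)).add ((continuous_entry 1 0 1).smul (h2 x.2))).prodMk
    (((continuous_entry 1 1 0).smul (h2 x.1)).add ((continuous_entry 1 1 1).smul (h2 x.2)))

/-- The embeddings. -/
noncomputable def jn (b : ℕ) : VW →ₗ[ℂ] EE b := LinearMap.prodMap (JE b) (JE b)

theorem jn_apply (b : ℕ) (u : VW) : jn b u = (JE b u.1, JE b u.2) := rfl

theorem hasDerivAt_pr {Y : Fin 2 → Matrix (Fin 2) (Fin 2) ℝ} {γ : ℝ → G 2} (h : Curve Y γ)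
    (b : ℕ) (u : VW) : HasDerivAt (fun t => pr b (γ t) (jn b u)) (jn b (DD.act Y u)) 0 := by
  have e : ∀ i k, HasDerivAt (fun t => ((γ t 1 i k : ℝ) : ℂ)) (Y 1 i k : ℂ) 0 := fun i k =>
    (h.der 1 i k).ofReal_comp
  have h1 := hasDerivAt_Rr h b u.1
  have h2 := hasDerivAt_Rr h b u.2
  have h3 := (((e 0 0).smul h1).add ((e 0 1).smul h2)).prodMk
    (((e 1 0).smul h1).add ((e 1 1).smul h2))
  refine h3.congr_deriv ?_
  rw [h.one, DD_act, jn_apply, Pi.one_apply, Pi.one_apply, map_one, h.trace 1]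
  refine Prod.ext ?_ ?_
  · simp only [Matrix.SpecialLinearGroup.coe_one, Matrix.one_apply, Fin.isValue, ↓reduceIte,
      zero_ne_one, Complex.ofReal_one, Complex.ofReal_zero, one_smul, zero_smul, map_add, map_smul,
      one_apply_eq_self]
    abel
  · simp only [Matrix.SpecialLinearGroup.coe_one, Matrix.one_apply, Fin.isValue, ↓reduceIte,
      one_ne_zero, Complex.ofReal_one, Complex.ofReal_zero, one_smul, zero_smul, map_add, map_smul,
      map_sub, one_apply_eq_self, Complex.ofReal_neg, neg_smul]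
    abel

/-- The norms. -/
noncomputable def pn (b : ℕ) (u : VW) : ℝ := ‖jn b u‖

theorem globalization (b : ℕ) : IsGlobalization DD (pn b) (pr b) (jn b) where
  inj := fun _ _ h => Prod.ext (JE_inj b (congrArg Prod.fst h)) (JE_inj b (congrArg Prod.snd h))
  norm_eq _ := rfl
  dense := (JE_dense b).prodMap (JE_dense b)
  cont := continuous_pr b
  deriv _ _ h1 h2 u := hasDerivAt_pr (Curve.of_hom h1 h2) b u

/-! ### The `K`-finite vectors -/

theorem be_of_orth {k : SL} (h : (k : Matrix (Fin 2) (Fin 2) ℝ) *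
    (k : Matrix (Fin 2) (Fin 2) ℝ).transpose = 1) : be k = 0 := by
  have hdet := det_SL k
  have h00 := congrFun (congrFun h 0) 0
  have h01 := congrFun (congrFun h 0) 1
  have h11 := congrFun (congrFun h 1) 1
  simp only [Matrix.mul_apply, Fin.sum_univ_two, Matrix.transpose_apply, Matrix.one_apply,
    Fin.isValue, zero_ne_one, ↓reduceIte] at h00 h01 h11
  set a := (k : Matrix (Fin 2) (Fin 2) ℝ) 0 0
  set b := (k : Matrix (Fin 2) (Fin 2) ℝ) 0 1
  set c := (k : Matrix (Fin 2) (Fin 2) ℝ) 1 0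
  set d := (k : Matrix (Fin 2) (Fin 2) ℝ) 1 1
  have hdet' : a * d - b * c = 1 := hdet
  have h1 : (a - d) ^ 2 + (b + c) ^ 2 = 0 := by nlinarith
  have h2 : a - d = 0 := by nlinarith [sq_nonneg (a - d), sq_nonneg (b + c)]
  have h3 : c + b = 0 := by nlinarith [sq_nonneg (a - d), sq_nonneg (b + c)]
  change (((a - d : ℝ) : ℂ) + ((c + b : ℝ) : ℂ) * Complex.I) / 2 = 0
  rw [h2, h3]
  simp

theorem orth_rotS (θ : ℝ) : (rotS θ : Matrix (Fin 2) (Fin 2) ℝ) *
    (rotS θ : Matrix (Fin 2) (Fin 2) ℝ).transpose = 1 := by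
  have h := Real.sin_sq_add_cos_sq θ
  change !![Real.cos θ, -Real.sin θ; Real.sin θ, Real.cos θ] *
    (!![Real.cos θ, -Real.sin θ; Real.sin θ, Real.cos θ]).transpose = 1
  ext a b
  fin_cases a <;> fin_cases b
  · simp [Matrix.mul_apply, Fin.sum_univ_two]
    nlinarith
  · simp [Matrix.mul_apply, Fin.sum_univ_two]
    ring
  · simp [Matrix.mul_apply, Fin.sum_univ_two]
    ring
  · simp [Matrix.mul_apply, Fin.sum_univ_two]
    nlinarith

/-- An element of the first factor. -/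
def inl (g : SL) : G 2 := fun i => if i = 0 then g else 1

/-- An element of the second factor. -/
def inr (g : SL) : G 2 := fun i => if i = 0 then 1 else g

theorem inl_zero (g : SL) : inl g 0 = g := rfl
theorem inl_one (g : SL) : inl g 1 = 1 := rfl
theorem inr_zero (g : SL) : inr g 0 = 1 := rfl
theorem inr_one (g : SL) : inr g 1 = g := rfl

theorem inl_rot_mem (θ : ℝ) : inl (rotS θ) ∈ KK 2 := by
  intro i
  fin_cases i
  · exact orth_rotS θ
  · change ((1 : SL) : Matrix (Fin 2) (Fin 2) ℝ) * ((1 : SL) : Matrix (Fin 2) (Fin 2) ℝ).transpose = 1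
    simp

theorem rotS_neg_mul (θ : ℝ) : rotS (-θ) * rotS θ = 1 := by
  apply Subtype.ext
  change !![Real.cos (-θ), -Real.sin (-θ); Real.sin (-θ), Real.cos (-θ)] *
    !![Real.cos θ, -Real.sin θ; Real.sin θ, Real.cos θ] = 1
  have h := Real.sin_sq_add_cos_sq θ
  rw [Real.cos_neg, Real.sin_neg, Matrix.mul_fin_two, Matrix.one_fin_two]
  congr 1
  ext i k
  fin_cases i <;> fin_cases k
  · simp
    nlinarith
  · simp
    ring
  · simp
    ring
  · simp
    nlinarith

theorem kfinite (b : ℕ) (x : EE b) : IsKFinite (pr b) x ↔ x ∈ Set.range (jn b) := by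
  constructor
  · rintro ⟨W, hWf, hx, hW⟩
    have key : ∀ (L : EE b →L[ℂ] C(Ds, ℂ)),
        (∀ y, L (pr b (inl (rotS 1)) y) = RR b (rotS 1) (L y)) → (∀ y, L y ∈ EB b) →
        ∃ v, JJ b v = L x := by
      intro L hL hL'
      have h1 : L x ∈ Submodule.span ℂ (Set.range (mo b)) := by
        refine fin_mem (T := RR b (rotS 1)) (T' := RR b (rotS (-1))) zero_le_one
          (RR_rot_pow_le b 1) (RR_rot_pow_le b (-1)) (fun y => ?_) (RR_rotS b) norm_lam lam_inj
          (W := W.map L.toLinearMap) ?_ ⟨x, hx, rfl⟩ ?_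
        · have := DFunLike.congr_fun (map_mul (RR b) (rotS (-1)) (rotS 1)) y
          rw [rotS_neg_mul, map_one] at this
          exact this.symm
        · rintro _ ⟨y, hy, rfl⟩
          refine ⟨pr b (inl (rotS 1)) y, hW _ (inl_rot_mem 1) y hy, ?_⟩
          exact hL y
        · rw [span_mo]
          exact hL' x
      rw [span_mo] at h1
      exact h1
    obtain ⟨u, hu⟩ := key ((EB b).subtypeL.comp (ContinuousLinearMap.fst ℂ (EB b) (EB b)))
      (fun y => by
        change ((((inl (rotS 1)) 1 0 0 : ℝ) : ℂ) • Rr b (inl (rotS 1) 0) y.1 +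
          (((inl (rotS 1)) 1 0 1 : ℝ) : ℂ) • Rr b (inl (rotS 1) 0) y.2 : EB b).1 = RR b (rotS 1) y.1.1
        rw [inl_one, inl_zero]
        simp [Rr_coe]) (fun y => y.1.2)
    obtain ⟨v, hv⟩ := key ((EB b).subtypeL.comp (ContinuousLinearMap.snd ℂ (EB b) (EB b)))
      (fun y => by
        change ((((inl (rotS 1)) 1 1 0 : ℝ) : ℂ) • Rr b (inl (rotS 1) 0) y.1 +
          (((inl (rotS 1)) 1 1 1 : ℝ) : ℂ) • Rr b (inl (rotS 1) 0) y.2 : EB b).1 = RR b (rotS 1) y.2.1
        rw [inl_one, inl_zero]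
        simp [Rr_coe]) (fun y => y.2.2)
    exact ⟨(u, v), Prod.ext (Subtype.ext hu) (Subtype.ext hv)⟩
  · rintro ⟨u, rfl⟩
    classical
    set S : Finset ℕ := u.1.support ∪ u.2.support with hS
    set A : Set (EE b) := ((fun n => ((JE b (Finsupp.single n 1), 0) : EE b)) '' (S : Set ℕ)) ∪
      ((fun n => ((0, JE b (Finsupp.single n 1)) : EE b)) '' (S : Set ℕ)) with hA
    refine ⟨Submodule.span ℂ A, ?_, ?_, ?_⟩
    · exact FiniteDimensional.span_of_finite ℂ
        ((S.finite_toSet.image _).union (S.finite_toSet.image _))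
    · have h1 : ∀ w : VP, w.support ⊆ S → ∀ (L : EB b →ₗ[ℂ] EE b),
          (∀ n ∈ S, L (JE b (Finsupp.single n 1)) ∈ Submodule.span ℂ A) →
          L (JE b w) ∈ Submodule.span ℂ A := by
        intro w hw L hN
        rw [← Finsupp.sum_single w, Finsupp.sum, map_sum, map_sum]
        refine Submodule.sum_mem _ fun n hn => ?_
        have e : (Finsupp.single n (w n) : VP) = w n • Finsupp.single n 1 := by
          rw [Finsupp.smul_single, smul_eq_mul, mul_one]
        rw [e, map_smul, map_smul]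
        exact Submodule.smul_mem _ _ (hN n (hw hn))
      have h2 : jn b u = LinearMap.inl ℂ (EB b) (EB b) (JE b u.1) +
          LinearMap.inr ℂ (EB b) (EB b) (JE b u.2) := by
        rw [jn_apply, LinearMap.inl_apply, LinearMap.inr_apply, Prod.mk_add_mk, add_zero, zero_add]
      rw [h2]
      refine Submodule.add_mem _ (h1 u.1 Finset.subset_union_left _ fun n hn => ?_)
        (h1 u.2 Finset.subset_union_right _ fun n hn => ?_)
      · exact Submodule.subset_span (Or.inl ⟨n, hn, rfl⟩)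
      · exact Submodule.subset_span (Or.inr ⟨n, hn, rfl⟩)
    · intro k hk y hy
      have hbe := be_of_orth (hk 0)
      have hR : ∀ n, Rr b (k 0) (JE b (Finsupp.single n 1)) =
          ((al (k 0))⁻¹ ^ (2 * (n + 1))) • JE b (Finsupp.single n 1) := by
        intro n
        apply Subtype.ext
        change RR b (k 0) (JJ b (Finsupp.single n 1)) =
          ((al (k 0))⁻¹ ^ (2 * (n + 1))) • JJ b (Finsupp.single n 1)
        rw [JJ_single, one_smul, RR_mo_of_be hbe]
      induction hy using Submodule.span_induction with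
      | mem y hy =>
        rcases hy with ⟨n, hn, rfl⟩ | ⟨n, hn, rfl⟩
        · have h1 : pr b k ((JE b (Finsupp.single n 1), 0) : EE b) =
              (((k 1 0 0 : ℝ) : ℂ) * ((al (k 0))⁻¹ ^ (2 * (n + 1)))) •
                ((JE b (Finsupp.single n 1), 0) : EE b) +
              (((k 1 1 0 : ℝ) : ℂ) * ((al (k 0))⁻¹ ^ (2 * (n + 1)))) •
                ((0, JE b (Finsupp.single n 1)) : EE b) := by
            rw [pr_apply]
            simp only [map_zero, smul_zero, add_zero, hR, smul_smul, Prod.smul_mk, Prod.mk_add_mk,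
              zero_add]
          rw [h1]
          exact Submodule.add_mem _
            (Submodule.smul_mem _ _ (Submodule.subset_span (Or.inl ⟨n, hn, rfl⟩)))
            (Submodule.smul_mem _ _ (Submodule.subset_span (Or.inr ⟨n, hn, rfl⟩)))
        · have h1 : pr b k ((0, JE b (Finsupp.single n 1)) : EE b) =
              (((k 1 0 1 : ℝ) : ℂ) * ((al (k 0))⁻¹ ^ (2 * (n + 1)))) •
                ((JE b (Finsupp.single n 1), 0) : EE b) +
              (((k 1 1 1 : ℝ) : ℂ) * ((al (k 0))⁻¹ ^ (2 * (n + 1)))) •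
                ((0, JE b (Finsupp.single n 1)) : EE b) := by
            rw [pr_apply]
            simp only [map_zero, smul_zero, add_zero, hR, smul_smul, Prod.smul_mk, Prod.mk_add_mk,
              zero_add]
          rw [h1]
          exact Submodule.add_mem _
            (Submodule.smul_mem _ _ (Submodule.subset_span (Or.inl ⟨n, hn, rfl⟩)))
            (Submodule.smul_mem _ _ (Submodule.subset_span (Or.inr ⟨n, hn, rfl⟩)))
      | zero => rw [map_zero]; exact Submodule.zero_mem _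
      | add y z _ _ hy hz => rw [map_add]; exact Submodule.add_mem _ hy hz
      | smul c y _ hy => rw [map_smul]; exact Submodule.smul_mem _ _ hy

instance (b : ℕ) : CompleteSpace (EB b) :=
  (Submodule.isClosed_topologicalClosure (LinearMap.range (JJ b))).completeSpace_coe

theorem inNorm_of (b : ℕ) {w : G 2 → ℝ} {C : ℝ} (hC : 0 < C)
    (hw : ∀ g, sz (g 0) ^ (2 * b) * sz (g 1) ≤ C * w g) : InNorm DD w (pn b) :=
  ⟨EE b, inferInstance, inferInstance, inferInstance, pr b, jn b, globalization b, kfinite b, 2 * C,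
    by positivity, fun g v => by
      refine (norm_pr_le b g (jn b v)).trans ?_
      have h1 := hw g
      have h2 : 0 ≤ ‖jn b v‖ := norm_nonneg _
      change _ ≤ 2 * C * w g * ‖jn b v‖
      nlinarith⟩

end Q4.Lip
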