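import Pool.Agent.Q4.Lip.Glob
import Pool.Agent.Q4.Lip.Size

/-!
# The lower bound for the gap of the larger weight
-/

open Filter Topology ComplexConjugate
open scoped NNReal ENNReal

namespace Q4.Lip

open Q4.HC

/-- The test vectors. -/
noncomputable def tv (n : ℕ) : VW :=
  (Finsupp.single n 1, (-((1 : ℤ) : ℂ) * Complex.I) • Finsupp.single n 1)

theorem pn_smul (b : ℕ) (c : ℂ) (u : VW) : pn b (c • u) = ‖c‖ * pn b u := by
  rw [pn, map_smul, norm_smul]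
  rfl

theorem pn_tv (b n : ℕ) : pn b (tv n) = ‖mo b n‖ := by
  have h1 : ‖JE b (Finsupp.single n 1)‖ = ‖mo b n‖ := by
    change ‖JJ b (Finsupp.single n 1)‖ = _
    rw [JJ_single, one_smul]
  have h2 : ‖JE b ((-((1 : ℤ) : ℂ) * Complex.I) • Finsupp.single n 1)‖ = ‖mo b n‖ := by
    rw [map_smul, norm_smul, h1]
    simp
  rw [pn, tv, jn_apply, Prod.norm_def]
  change max ‖JE b (Finsupp.single n 1)‖
    ‖JE b ((-((1 : ℤ) : ℂ) * Complex.I) • Finsupp.single n 1)‖ = _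
  rw [h1, h2, max_self]

theorem sob_tv {c s : ℝ} {T : VW →ₗ[ℂ] VW} (hT : IsSobolev DD c s T) (n : ℕ) :
    T (tv n) = (((1 + c * ((-2 * ((n : ℤ) + 1) : ℤ) ^ 2 + 1)) ^ (s / 2) : ℝ) : ℂ) • tv n := by
  have h1 := hT _ _ (weight_single n 1 1 (by norm_num))
  rw [Fin.sum_univ_two] at h1
  simp only [Fin.isValue, ↓reduceIte, one_ne_zero] at h1
  rw [tv, h1]
  congr 4
  push_cast
  ring

theorem low {c : ℝ} (hc : 0 < c) (b : ℕ) : (b : ℝ≥0∞) ≤ dArrow DD c (pn 0) (pn b) := by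
  refine le_iInf₂ fun s hs => ?_
  obtain ⟨T, hT, C, hC, hle⟩ := hs
  suffices h : (b : ℝ) ≤ s by
    have h2 : (b : ℝ≥0) ≤ s := by exact_mod_cast h
    exact_mod_cast h2
  by_contra hlt
  push Not at hlt
  have hs0 : (0 : ℝ) ≤ s := s.2
  set K : ℝ := 1 + 5 * c with hK
  have hKpos : 0 < K := by positivity
  set C' : ℝ := 2 * C * K ^ ((s : ℝ) / 2) * (2 * ((b : ℝ) + 1)) ^ (b + 1) with hC'
  have key : ∀ n : ℕ, ((n : ℝ) + 1) ^ ((b : ℝ) - s) ≤ C' := by
    intro n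
    set N : ℝ := (n : ℝ) + 1 with hN
    have hN1 : 1 ≤ N := by rw [hN]; linarith [Nat.cast_nonneg (α := ℝ) n]
    have hN0 : 0 < N := by linarith
    have h1 : pn 0 (tv n) ≤ C * pn b (T (tv n)) := hle (tv n)
    rw [sob_tv hT, pn_smul, pn_tv, pn_tv, Complex.norm_real, Real.norm_of_nonneg (by positivity)] at h1
    have h2 := le_norm_mo n
    have h3 := norm_mo_le b n
    have h4 : (1 + c * ((-2 * ((n : ℤ) + 1) : ℤ) ^ 2 + 1)) ^ ((s : ℝ) / 2) ≤
        K ^ ((s : ℝ) / 2) * N ^ (s : ℝ) := by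
      have e1 : (1 + c * (((-2 * ((n : ℤ) + 1) : ℤ) : ℝ) ^ 2 + 1)) ≤ K * N ^ 2 := by
        have e2 : ((-2 * ((n : ℤ) + 1) : ℤ) : ℝ) = -2 * N := by
          rw [hN]
          push_cast
          ring
        rw [e2, hK]
        nlinarith [mul_pos hc hN0]
      have e3 : (K * N ^ 2) ^ ((s : ℝ) / 2) = K ^ ((s : ℝ) / 2) * N ^ (s : ℝ) := by
        rw [Real.mul_rpow hKpos.le (by positivity), ← Real.rpow_natCast N 2,
          ← Real.rpow_mul hN0.le]
        congr 2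
        push_cast
        ring
      rw [← e3]
      exact Real.rpow_le_rpow (by positivity) e1 (by positivity)
    have h5 : 1 / (2 * N) ≤ C * ((K ^ ((s : ℝ) / 2) * N ^ (s : ℝ)) *
        (2 * ((b : ℝ) + 1) / N) ^ (b + 1)) := by
      refine h2.trans (h1.trans ?_)
      gcongr
    have h6 : (2 * ((b : ℝ) + 1) / N) ^ (b + 1) = (2 * ((b : ℝ) + 1)) ^ (b + 1) / (N ^ b * N) := by
      rw [div_pow, pow_succ N b]
    rw [h6, div_le_iff₀ (by positivity)] at h5
    have h7 : C * ((K ^ ((s : ℝ) / 2) * N ^ (s : ℝ)) *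
        ((2 * ((b : ℝ) + 1)) ^ (b + 1) / (N ^ b * N))) * (2 * N) = C' * N ^ (s : ℝ) / N ^ b := by
      rw [hC']
      field_simp
    rw [h7, le_div_iff₀ (by positivity), one_mul] at h5
    rw [Real.rpow_sub hN0, Real.rpow_natCast, div_le_iff₀ (by positivity)]
    exact h5
  have hlim : Tendsto (fun n : ℕ => ((n : ℝ) + 1) ^ ((b : ℝ) - s)) atTop atTop :=
    (tendsto_rpow_atTop (by linarith)).comp
      (tendsto_atTop_add_const_right _ _ tendsto_natCast_atTop_atTop)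
  obtain ⟨n, hn⟩ := (hlim.eventually_gt_atTop C').exists
  exact absurd (key n) (not_le.2 hn)

/-- The lower bound for the gap. -/
theorem gap_low {c : ℝ} (hc : 0 < c) (b : ℕ) :
    (b : ℝ≥0∞) ≤ gap DD c (wt (wb b) (1 / 2)) := by
  refine (low hc b).trans ?_
  refine le_trans (le_max_left _ (dArrow DD c (pn b) (pn 0))) ?_
  exact le_iSup₂_of_le (pn 0) (inNorm_of 0 two_pos (std_le b)) (le_iSup₂_of_le (pn b)
    (inNorm_of b two_pos (prod_le b)) le_rfl)

end Q4.Lip
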