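import Pool.Agent.Q4.Lip.Arb2
import Pool.Agent.Q4.Lip.Low

/-!
# The upper bound for the gap of the weight `w_b`
-/

open Filter Topology ComplexConjugate
open scoped NNReal ENNReal

namespace Q4.Lip

open Q4.HC

/-- A point with a prescribed value of the hyperbolic sine. -/
theorem exists_time (n : ℕ) : ∃ t : ℝ, 0 < t ∧ Real.cosh t ^ 2 = (n : ℝ) + 2 ∧
    1 / 2 ≤ (Real.sinh t / Real.cosh t) ^ n := by
  refine ⟨Real.arsinh (Real.sqrt ((n : ℝ) + 1)), ?_, ?_, ?_⟩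
  · exact Real.arsinh_pos_iff.2 (Real.sqrt_pos.2 (by positivity))
  · have h1 := Real.cosh_sq (Real.arsinh (Real.sqrt ((n : ℝ) + 1)))
    rw [Real.sinh_arsinh, Real.sq_sqrt (by positivity)] at h1
    rw [h1]
    ring
  · set t := Real.arsinh (Real.sqrt ((n : ℝ) + 1)) with ht
    have h1 := Real.cosh_sq t
    have hs : Real.sinh t = Real.sqrt ((n : ℝ) + 1) := Real.sinh_arsinh _
    have hs2 : Real.sinh t ^ 2 = (n : ℝ) + 1 := by rw [hs, Real.sq_sqrt (by positivity)]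
    have hs0 : 0 ≤ Real.sinh t := by rw [hs]; positivity
    have hc0 : 0 < Real.cosh t := Real.cosh_pos t
    set x := Real.sinh t / Real.cosh t with hx
    have hx0 : 0 ≤ x := by positivity
    have hx2 : x ^ 2 = ((n + 1 : ℕ) : ℝ) / (((n + 1 : ℕ) : ℝ) + 1) := by
      rw [hx, div_pow, h1, hs2]
      push_cast
      rfl
    have hx1 : x ≤ 1 := by
      have : x ^ 2 ≤ 1 := by
        rw [hx2]
        exact div_le_one_of_le₀ (by linarith) (by positivity)
      nlinarith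
    exact (half_le_pow hx0 hx2).trans (pow_le_pow_of_le_one hx0 hx1 (Nat.le_succ n))

section

variable {E : Type} [NormedAddCommGroup E] [NormedSpace ℂ E]
  {p : VW → ℝ} {π : G 2 →* (E →L[ℂ] E)} {j : VW →ₗ[ℂ] E} {b : ℕ} {C K : ℝ}

theorem Bd.upper (h : Bd p π j b C) (hK : ∀ v : VW, ‖j (v.1, 0)‖ ≤ K * ‖j v‖) (n : ℕ) :
    ‖j (Finsupp.single n 1, 0)‖ ≤ 4 * C ^ 2 * K * ‖j (Finsupp.single 0 1, 0)‖ := by
  obtain ⟨Λ, hΛ, hbd⟩ := h.functional hK n
  obtain ⟨t, ht, hc, hx⟩ := exists_time n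
  have h1 := (h.sys hΛ).zero_eq t ht
  have hq := h.q_pos n
  have hC := h.pos
  have hK0 : 0 ≤ K := by
    have := (norm_nonneg _).trans (hK (Finsupp.single n 1, 0))
    by_contra hneg
    push Not at hneg
    have : K * ‖j (Finsupp.single n 1, 0)‖ < 0 := mul_neg_of_neg_of_pos hneg hq
    linarith
  have hc0 := Real.cosh_pos t
  have hs0 : 0 < Real.sinh t := Real.sinh_pos_iff.2 ht
  have h2 : ‖Λ (π (inl (dg t)) (j (Finsupp.single 0 1, 0)))‖ =
      ((n : ℝ) + 1) / ((n : ℝ) + 2) * (Real.sinh t / Real.cosh t) ^ n := by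
    rw [h1, norm_div, norm_mul, norm_pow, norm_pow, Complex.norm_real, Complex.norm_real,
      Real.norm_of_nonneg hc0.le, Real.norm_of_nonneg hs0.le]
    have e : ‖(n : ℂ) + 1‖ = (n : ℝ) + 1 := by
      have : (n : ℂ) + 1 = ((n + 1 : ℕ) : ℂ) := by push_cast; rfl
      rw [this, Complex.norm_natCast]
      push_cast
      rfl
    rw [e, pow_add, hc, div_pow]
    field_simp
  have h3 : 1 / 4 ≤ ‖Λ (π (inl (dg t)) (j (Finsupp.single 0 1, 0)))‖ := by
    rw [h2]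
    have e : 1 / 2 ≤ ((n : ℝ) + 1) / ((n : ℝ) + 2) := by
      rw [div_le_div_iff₀ (by norm_num) (by positivity)]
      have : (0 : ℝ) ≤ n := Nat.cast_nonneg n
      linarith
    calc (1 : ℝ) / 4 = 1 / 2 * (1 / 2) := by norm_num
      _ ≤ _ := by gcongr
  have h4 := hbd (π (inl (dg t)) (j (Finsupp.single 0 1, 0)))
  have h5 := h.bounded (dg t) (Finsupp.single 0 1)
  have h6 : 1 / 4 ≤ C * K / ‖j (Finsupp.single n 1, 0)‖ * (C * ‖j (Finsupp.single 0 1, 0)‖) := by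
    refine h3.trans (h4.trans ?_)
    gcongr
  rw [div_mul_eq_mul_div, le_div_iff₀ hq] at h6
  linarith

theorem Bd.lower (h : Bd p π j b C) (hK : ∀ v : VW, ‖j (v.1, 0)‖ ≤ K * ‖j v‖) (m : ℕ) :
    ‖j (Finsupp.single 0 1, 0)‖ ≤ 2 * ((m : ℝ) + 2) * (C ^ 2 * K) * ‖j (Finsupp.single m 1, 0)‖ := by
  obtain ⟨Λ, hΛ, hbd⟩ := h.functional hK 0
  obtain ⟨t, ht, hc, hx⟩ := exists_time m
  have h1 := ((h.sys hΛ).all_eq t ht m).1
  have hq := h.q_pos 0
  have hC := h.pos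
  have hK0 : 0 ≤ K := by
    have := (norm_nonneg _).trans (hK (Finsupp.single 0 1, 0))
    by_contra hneg
    push Not at hneg
    have : K * ‖j (Finsupp.single 0 1, 0)‖ < 0 := mul_neg_of_neg_of_pos hneg hq
    linarith
  have hc0 := Real.cosh_pos t
  have hs0 : 0 < Real.sinh t := Real.sinh_pos_iff.2 ht
  have h2 : ‖Λ (π (inl (dg t)) (j (Finsupp.single m 1, 0)))‖ =
      1 / ((m : ℝ) + 2) * (Real.sinh t / Real.cosh t) ^ m := by
    have e := congrArg norm h1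
    rw [norm_mul, norm_pow, norm_pow, norm_neg, Complex.norm_real, Complex.norm_real,
      Real.norm_of_nonneg hc0.le, Real.norm_of_nonneg hs0.le, pow_add, hc] at e
    have hcm : 0 < Real.cosh t ^ m := by positivity
    rw [div_pow, div_mul_div_comm, one_mul, eq_div_iff (by positivity)]
    linarith
  have h3 : 1 / (2 * ((m : ℝ) + 2)) ≤ ‖Λ (π (inl (dg t)) (j (Finsupp.single m 1, 0)))‖ := by
    rw [h2]
    calc 1 / (2 * ((m : ℝ) + 2)) = 1 / ((m : ℝ) + 2) * (1 / 2) := by field_simp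
      _ ≤ _ := by gcongr
  have h4 := hbd (π (inl (dg t)) (j (Finsupp.single m 1, 0)))
  have h5 := h.bounded (dg t) (Finsupp.single m 1)
  have h6 : 1 / (2 * ((m : ℝ) + 2)) ≤
      C * K / ‖j (Finsupp.single 0 1, 0)‖ * (C * ‖j (Finsupp.single m 1, 0)‖) := by
    refine h3.trans (h4.trans ?_)
    gcongr
  rw [div_mul_eq_mul_div, div_le_div_iff₀ (by positivity) hq] at h6
  linarith

end

/-! ### The Sobolev operator of order four -/

/-- The eigenvalues of the Sobolev operator of order four. -/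
noncomputable def sv (c : ℝ) (n : ℕ) : ℝ := (1 + c * ((-2 * ((n : ℤ) + 1) : ℤ) ^ 2 + 1)) ^ ((4 : ℝ) / 2)

/-- The Sobolev operator of order four. -/
noncomputable def sobP (c : ℝ) : VP →ₗ[ℂ] VP :=
  Finsupp.linearCombination ℂ fun n => (Finsupp.single n (sv c n : ℂ) : VP)

theorem sobP_apply (c : ℝ) (v : VP) (n : ℕ) : sobP c v n = (sv c n : ℂ) * v n := by
  have h : Finsupp.lapply n ∘ₗ sobP c = (sv c n : ℂ) • (Finsupp.lapply n : VP →ₗ[ℂ] ℂ) := by
    refine Finsupp.lhom_ext fun m z => ?_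
    change sobP c (Finsupp.single m z) n = (sv c n : ℂ) • (Finsupp.single m z : VP) n
    rw [sobP, Finsupp.linearCombination_single, Finsupp.smul_single, smul_eq_mul,
      Finsupp.single_apply, Finsupp.single_apply]
    split_ifs with hnm
    · rw [hnm, smul_eq_mul, mul_comm]
    · rw [smul_zero]
  exact LinearMap.congr_fun h v

/-- The Sobolev operator of order four. -/
noncomputable def sobW (c : ℝ) : VW →ₗ[ℂ] VW := LinearMap.prodMap (sobP c) (sobP c)

theorem isSobolev_sobW (c : ℝ) : IsSobolev DD c 4 (sobW c) := by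
  intro k v hv
  by_cases hv0 : v = 0
  · rw [hv0, map_zero, smul_zero]
  obtain ⟨h1, h2, h3, h4⟩ := (isWeight_iff k v).1 hv
  have h5 := sq_eq_one hv0 h3 h4
  have h6 : ((k 1 : ℤ) : ℝ) ^ 2 = 1 := by exact_mod_cast h5
  have key : ∀ u : VP, (∀ n, u n ≠ 0 → k 0 = -2 * ((n : ℤ) + 1)) → sobP c u =
      (((1 + c * ∑ i, (k i : ℝ) ^ 2) ^ ((4 : ℝ) / 2) : ℝ) : ℂ) • u := by
    intro u hu
    ext n
    rw [sobP_apply, Finsupp.smul_apply, smul_eq_mul]
    by_cases hn : u n = 0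
    · rw [hn, mul_zero, mul_zero]
    · rw [Fin.sum_univ_two, h6, hu n hn, sv]
  exact Prod.ext (key _ h1) (key _ h2)

theorem sv_ge {c : ℝ} (hc : 0 < c) (n : ℕ) : 16 * c ^ 2 * ((n : ℝ) + 1) ^ 4 ≤ sv c n := by
  have e : sv c n = (1 + c * (4 * ((n : ℝ) + 1) ^ 2 + 1)) ^ 2 := by
    rw [sv]
    have : ((4 : ℝ) / 2) = ((2 : ℕ) : ℝ) := by norm_num
    rw [this, Real.rpow_natCast]
    push_cast
    ring
  rw [e]
  have h1 : 4 * c * ((n : ℝ) + 1) ^ 2 ≤ 1 + c * (4 * ((n : ℝ) + 1) ^ 2 + 1) := by nlinarith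
  calc 16 * c ^ 2 * ((n : ℝ) + 1) ^ 4 = (4 * c * ((n : ℝ) + 1) ^ 2) ^ 2 := by ring
    _ ≤ _ := by gcongr

theorem summable_inv_sq : Summable fun n : ℕ => 1 / ((n : ℝ) + 1) ^ 2 := by
  have h1 := (summable_nat_add_iff 1).2 (Real.summable_one_div_nat_pow.2 one_lt_two)
  refine h1.congr fun n => ?_
  push_cast
  rfl

/-- Two norms of `Norm(V, w_b)` are at distance at most four. -/
theorem dominated {c : ℝ} (hc : 0 < c) {b : ℕ} {p p' : VW → ℝ} (hp : InNorm DD (wb b) p)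
    (hp' : InNorm DD (wb b) p') : Dominated p fun v => p' (sobW c v) := by
  obtain ⟨E, _, _, _, π, j, hE, -, C, hC, hg⟩ := hp
  obtain ⟨E', _, _, _, π', j', hE', -, C', hC', hg'⟩ := hp'
  have h := Bd.of hE hC hg
  have h' := Bd.of hE' hC' hg'
  obtain ⟨K, hK1, hK⟩ := h.proj
  obtain ⟨K', hK1', hK'⟩ := h'.proj
  have hq := h.q_pos 0
  have hq' := h'.q_pos 0
  set q := ‖j (Finsupp.single 0 1, 0)‖ with hqdef
  set q' := ‖j' (Finsupp.single 0 1, 0)‖ with hqdef'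
  set S : ℝ := ∑' n : ℕ, 1 / ((n : ℝ) + 1) ^ 2 with hS
  have hS0 : 0 < S := summable_inv_sq.tsum_pos (fun n => by positivity) 0 (by norm_num)
  set M : ℝ := 4 * C ^ 2 * K * q with hM
  set M' : ℝ := C' ^ 3 * K' ^ 2 / (4 * c ^ 2 * q') with hM'
  have hM0 : 0 < M := by positivity
  have hM0' : 0 < M' := by positivity
  refine ⟨(1 + K) * (M * (M' * S)), by positivity, fun v => ?_⟩
  set P : ℝ := p' (sobW c v) with hP
  have hP0 : 0 ≤ P := by rw [hP, ← hE'.norm_eq]; exact norm_nonneg _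
  -- the coefficients
  have hcoef : ∀ u : VP, ‖j' (sobP c u, 0)‖ ≤ K' * P → ∀ n, ‖u n‖ ≤ M' * P * (1 / ((n : ℝ) + 1) ^ 2) := by
    intro u hu n
    have h1 := h'.coef (sobP c u) n
    have h2 := h'.lower (fun v => (hK' v).2.2.1) n
    have h3 := h'.q_pos n
    have h4 := sv_ge hc n
    have hn0 : (0 : ℝ) ≤ n := Nat.cast_nonneg n
    have h5 : 0 ≤ sv c n := le_trans (by positivity) h4
    rw [sobP_apply, norm_mul, Complex.norm_real, Real.norm_of_nonneg h5] at h1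
    have h6 : sv c n * ‖u n‖ * q' ≤ C' * (K' * P) * (2 * ((n : ℝ) + 2) * (C' ^ 2 * K')) := by
      calc sv c n * ‖u n‖ * q' ≤ sv c n * ‖u n‖ * (2 * ((n : ℝ) + 2) * (C' ^ 2 * K') *
            ‖j' (Finsupp.single n 1, 0)‖) := by gcongr
        _ = (sv c n * ‖u n‖ * ‖j' (Finsupp.single n 1, 0)‖) *
            (2 * ((n : ℝ) + 2) * (C' ^ 2 * K')) := by ring
        _ ≤ (C' * ‖j' (sobP c u, 0)‖) * (2 * ((n : ℝ) + 2) * (C' ^ 2 * K')) := by gcongr
        _ ≤ _ := by gcongr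
    have h7 : 16 * c ^ 2 * ((n : ℝ) + 1) ^ 4 * ‖u n‖ * q' ≤
        C' * (K' * P) * (2 * (2 * ((n : ℝ) + 1)) * (C' ^ 2 * K')) := by
      refine le_trans (by gcongr) (h6.trans ?_)
      gcongr
      linarith
    rw [hM', mul_one_div, div_mul_eq_mul_div, div_div, le_div_iff₀ (by positivity)]
    have hpos : 0 < 4 * ((n : ℝ) + 1) := by positivity
    have h8 : ‖u n‖ * (4 * c ^ 2 * q' * ((n : ℝ) + 1) ^ 2) * (((n : ℝ) + 1) * (4 * ((n : ℝ) + 1))) ≤
        C' ^ 3 * K' ^ 2 * P * (4 * ((n : ℝ) + 1)) := by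
      calc ‖u n‖ * (4 * c ^ 2 * q' * ((n : ℝ) + 1) ^ 2) * (((n : ℝ) + 1) * (4 * ((n : ℝ) + 1)))
          = 16 * c ^ 2 * ((n : ℝ) + 1) ^ 4 * ‖u n‖ * q' := by ring
        _ ≤ _ := h7
        _ = _ := by ring
    have h9 : ‖u n‖ * (4 * c ^ 2 * q' * ((n : ℝ) + 1) ^ 2) * (4 * ((n : ℝ) + 1)) ≤
        C' ^ 3 * K' ^ 2 * P * (4 * ((n : ℝ) + 1)) := by
      refine le_trans ?_ h8
      have : (1 : ℝ) ≤ (n : ℝ) + 1 := by linarith
      have h10 : 4 * ((n : ℝ) + 1) ≤ ((n : ℝ) + 1) * (4 * ((n : ℝ) + 1)) :=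
        le_mul_of_one_le_left hpos.le this
      exact mul_le_mul_of_nonneg_left h10 (by positivity)
    exact le_of_mul_le_mul_right h9 hpos
  -- the norms of the two components
  have hcomp : ∀ u : VP, ‖j' (sobP c u, 0)‖ ≤ K' * P → ‖j (u, 0)‖ ≤ M * (M' * S) * P := by
    intro u hu
    have h1 : j (u, 0) = ∑ n ∈ u.support, u n • j (Finsupp.single n 1, 0) := by
      have h2 : ((u, 0) : VW) = ∑ n ∈ u.support, u n • ((Finsupp.single n 1, 0) : VW) := by
        refine Prod.ext ?_ ?_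
        · rw [Prod.fst_sum]
          conv_lhs => rw [← Finsupp.sum_single u]
          rw [Finsupp.sum]
          refine Finset.sum_congr rfl fun n _ => ?_
          change _ = u n • Finsupp.single n 1
          rw [Finsupp.smul_single, smul_eq_mul, mul_one]
        · rw [Prod.snd_sum]
          simp
      rw [h2, map_sum]
      simp only [map_smul]
    rw [h1]
    calc ‖∑ n ∈ u.support, u n • j (Finsupp.single n 1, 0)‖
        ≤ ∑ n ∈ u.support, ‖u n • j (Finsupp.single n 1, 0)‖ := norm_sum_le _ _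
      _ ≤ ∑ n ∈ u.support, (M' * P * (1 / ((n : ℝ) + 1) ^ 2)) * M := by
        refine Finset.sum_le_sum fun n _ => ?_
        rw [norm_smul]
        exact mul_le_mul (hcoef u hu n) (h.upper (fun v => (hK v).2.2.1) n) (norm_nonneg _)
          (by positivity)
      _ = (M' * P * M) * ∑ n ∈ u.support, 1 / ((n : ℝ) + 1) ^ 2 := by
        rw [Finset.mul_sum]
        refine Finset.sum_congr rfl fun n _ => ?_
        ring
      _ ≤ (M' * P * M) * S := by
        gcongr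
        exact summable_inv_sq.sum_le_tsum _ (fun n _ => by positivity)
      _ = _ := by ring
  have hsob : sobW c v = (sobP c v.1, sobP c v.2) := rfl
  have e1 : ‖j' (sobP c v.1, 0)‖ ≤ K' * P := by
    have := (hK' (sobW c v)).2.2.1
    rw [hE'.norm_eq, hE'.norm_eq] at this
    rw [hE'.norm_eq]
    exact this
  have e2 : ‖j' (sobP c v.2, 0)‖ ≤ K' * P := by
    have := (hK' (sobW c v)).1
    rw [hE'.norm_eq, hE'.norm_eq] at this
    rw [hE'.norm_eq]
    exact this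
  have f1 := hcomp v.1 e1
  have f2 := hcomp v.2 e2
  have f3 : ‖j (0, v.2)‖ ≤ K * ‖j (v.2, 0)‖ := (hK (v.2, 0)).2.1
  have f4 : p v ≤ ‖j (v.1, 0)‖ + ‖j (0, v.2)‖ := by
    rw [← hE.norm_eq]
    have e : v = (v.1, 0) + (0, v.2) := by simp
    calc ‖j v‖ = ‖j (v.1, 0) + j (0, v.2)‖ := by rw [← map_add, ← e]
      _ ≤ _ := norm_add_le _ _
  have f5 : K * ‖j (v.2, 0)‖ ≤ K * (M * (M' * S) * P) := mul_le_mul_of_nonneg_left f2 (by linarith)
  calc p v ≤ M * (M' * S) * P + K * (M * (M' * S) * P) := by linarith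
    _ = _ := by ring

/-- The upper bound for the gap. -/
theorem gap_up {c : ℝ} (hc : 0 < c) (b : ℕ) : gap DD c (wb b) ≤ 4 := by
  have key : ∀ p p', InNorm DD (wb b) p → InNorm DD (wb b) p' → dArrow DD c p p' ≤ 4 := by
    intro p p' hp hp'
    have h1 : dArrow DD c p p' ≤ ((4 : ℝ≥0) : ℝ≥0∞) :=
      iInf₂_le (4 : ℝ≥0) ⟨sobW c, isSobolev_sobW c, dominated hc hp hp'⟩
    exact_mod_cast h1
  refine iSup₂_le fun p hp => iSup₂_le fun q hq => ?_
  exact max_le (key p q hp hq) (key q p hq hp)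

end Q4.Lip
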