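import Pool.Agent.Q4.Lip.Defs
import Pool.Agent.Q4.HC.TDeriv

/-!
# The module: the tensor product of a holomorphic discrete series with the standard representation
-/

open Filter Topology ComplexConjugate

namespace Q4.Lip

open Q4.HC

/-- The underlying space of the lowest weight module of weight two. -/
abbrev VP : Type := ℕ →₀ ℂ

/-- The raising operator `z^n ↦ (n + 2) z^(n + 1)`. -/
noncomputable def Sp : Module.End ℂ VP :=
  Finsupp.linearCombination ℂ fun n => (Finsupp.single (n + 1) ((n : ℂ) + 2) : VP)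

/-- The lowering operator `z^n ↦ n z^(n - 1)`. -/
noncomputable def Sm : Module.End ℂ VP :=
  Finsupp.linearCombination ℂ fun n => (Finsupp.single (n - 1) (n : ℂ) : VP)

/-- The diagonal operator `z^n ↦ (n + 1) z^n`. -/
noncomputable def Mm : Module.End ℂ VP :=
  Finsupp.linearCombination ℂ fun n => (Finsupp.single n ((n : ℂ) + 1) : VP)

theorem Sp_single (n : ℕ) (c : ℂ) :
    Sp (Finsupp.single n c) = Finsupp.single (n + 1) (c * ((n : ℂ) + 2)) := by
  rw [Sp, Finsupp.linearCombination_single, Finsupp.smul_single, smul_eq_mul]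

theorem Sm_single (n : ℕ) (c : ℂ) :
    Sm (Finsupp.single n c) = Finsupp.single (n - 1) (c * (n : ℂ)) := by
  rw [Sm, Finsupp.linearCombination_single, Finsupp.smul_single, smul_eq_mul]

theorem Mm_single (n : ℕ) (c : ℂ) :
    Mm (Finsupp.single n c) = Finsupp.single n (c * ((n : ℂ) + 1)) := by
  rw [Mm, Finsupp.linearCombination_single, Finsupp.smul_single, smul_eq_mul]

theorem b1 (v : VP) : Sp (Sm v) = Sm (Sp v) - (2 : ℂ) • Mm v := by
  have h : Sp ∘ₗ Sm = Sm ∘ₗ Sp - (2 : ℂ) • Mm := by
    refine Finsupp.lhom_ext fun n c => ?_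
    change Sp (Sm (Finsupp.single n c)) = Sm (Sp (Finsupp.single n c)) -
      (2 : ℂ) • Mm (Finsupp.single n c)
    rw [Sm_single, Sp_single, Sp_single, Sm_single, Mm_single, Finsupp.smul_single, smul_eq_mul,
      Nat.add_sub_cancel, ← Finsupp.single_sub]
    rcases n with _ | n
    · have e1 : c * ((0 : ℕ) : ℂ) * (((0 - 1 : ℕ) : ℂ) + 2) = 0 := by simp
      have e2 : c * (((0 : ℕ) : ℂ) + 2) * ((0 + 1 : ℕ) : ℂ) - 2 * (c * (((0 : ℕ) : ℂ) + 1)) = 0 := by
        push_cast
        ring
      rw [e1, e2, Finsupp.single_zero, Finsupp.single_zero]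
    · rw [Nat.add_sub_cancel]
      congr 1
      push_cast
      ring
  exact LinearMap.congr_fun h v

theorem b2 (v : VP) : Mm (Sp v) = Sp (Mm v) + Sp v := by
  have h : Mm ∘ₗ Sp = Sp ∘ₗ Mm + Sp := by
    refine Finsupp.lhom_ext fun n c => ?_
    change Mm (Sp (Finsupp.single n c)) = Sp (Mm (Finsupp.single n c)) + Sp (Finsupp.single n c)
    rw [Mm_single, Sp_single, Sp_single, Mm_single, ← Finsupp.single_add]
    congr 1
    push_cast
    ring
  exact LinearMap.congr_fun h v

theorem b3 (v : VP) : Mm (Sm v) = Sm (Mm v) - Sm v := by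
  have h : Mm ∘ₗ Sm = Sm ∘ₗ Mm - Sm := by
    refine Finsupp.lhom_ext fun n c => ?_
    change Mm (Sm (Finsupp.single n c)) = Sm (Mm (Finsupp.single n c)) - Sm (Finsupp.single n c)
    rw [Mm_single, Sm_single, Sm_single, Mm_single, ← Finsupp.single_sub]
    rcases n with _ | n
    · simp
    · rw [Nat.add_sub_cancel]
      congr 1
      push_cast
      ring
  exact LinearMap.congr_fun h v

/-- The operator `h`. -/
noncomputable def oh : Module.End ℂ VP := Sp - Sm

/-- The operator `e`. -/
noncomputable def oe : Module.End ℂ VP :=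
  Complex.I • (Mm - (1 / 2 : ℂ) • Sm - (1 / 2 : ℂ) • Sp)

/-- The operator `f`. -/
noncomputable def of : Module.End ℂ VP :=
  Complex.I • (-Mm - (1 / 2 : ℂ) • Sm - (1 / 2 : ℂ) • Sp)

theorem oh_apply (v : VP) : oh v = Sp v - Sm v := rfl

theorem oe_apply (v : VP) : oe v =
    Complex.I • (Mm v - (1 / 2 : ℂ) • Sm v - (1 / 2 : ℂ) • Sp v) := rfl

theorem of_apply (v : VP) : of v =
    Complex.I • (-Mm v - (1 / 2 : ℂ) • Sm v - (1 / 2 : ℂ) • Sp v) := rfl

theorem lie_he (v : VP) : oh (oe v) - oe (oh v) = (2 : ℂ) • oe v := by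
  simp only [oh_apply, oe_apply, map_sub, map_smul, b1, b2, b3]
  module

theorem lie_hf (v : VP) : oh (of v) - of (oh v) = (-2 : ℂ) • of v := by
  simp only [oh_apply, of_apply, map_sub, map_smul, map_neg, b1, b2, b3]
  module

theorem lie_ef (v : VP) : oe (of v) - of (oe v) = oh v := by
  have h1 : oe (of v) - of (oe v) = (Complex.I * Complex.I) • (-oh v) := by
    simp only [oh_apply, oe_apply, of_apply, map_sub, map_smul, map_neg, b1, b2, b3]
    module
  rw [h1, Complex.I_mul_I, neg_one_smul, neg_neg]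

/-- The module. -/
abbrev VW : Type := VP × VP

/-- The module `V⁺ ⊗ ℂ²` of `SL(2, ℝ) × SL(2, ℝ)`. -/
noncomputable def DD : Ops 2 VW where
  h := fun i u => if i = 0 then (oh u.1, oh u.2) else (u.1, -u.2)
  e := fun i u => if i = 0 then (oe u.1, oe u.2) else (u.2, 0)
  f := fun i u => if i = 0 then (of u.1, of u.2) else (0, u.1)

theorem DD_h0 (u : VW) : DD.h 0 u = (oh u.1, oh u.2) := rfl
theorem DD_e0 (u : VW) : DD.e 0 u = (oe u.1, oe u.2) := rfl
theorem DD_f0 (u : VW) : DD.f 0 u = (of u.1, of u.2) := rfl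
theorem DD_h1 (u : VW) : DD.h 1 u = (u.1, -u.2) := rfl
theorem DD_e1 (u : VW) : DD.e 1 u = (u.2, 0) := rfl
theorem DD_f1 (u : VW) : DD.f 1 u = (0, u.1) := rfl

theorem lie_action : DD.IsLieAction where
  lin_h i := by
    fin_cases i
    · exact (LinearMap.prodMap oh oh).isLinear
    · exact (LinearMap.prodMap LinearMap.id (-LinearMap.id) : VW →ₗ[ℂ] VW).isLinear
  lin_e i := by
    fin_cases i
    · exact (LinearMap.prodMap oe oe).isLinear
    · exact (LinearMap.prod (LinearMap.snd ℂ VP VP) 0 : VW →ₗ[ℂ] VW).isLinear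
  lin_f i := by
    fin_cases i
    · exact (LinearMap.prodMap of of).isLinear
    · exact (LinearMap.prod 0 (LinearMap.fst ℂ VP VP) : VW →ₗ[ℂ] VW).isLinear
  he i v := by
    fin_cases i
    · exact Prod.ext (lie_he _) (lie_he _)
    · change ((v.2, -0) : VW) - (-v.2, 0) = (2 : ℂ) • ((v.2, 0) : VW)
      refine Prod.ext ?_ ?_
      · change v.2 - -v.2 = (2 : ℂ) • v.2
        module
      · simp
  hf i v := by
    fin_cases i
    · exact Prod.ext (lie_hf _) (lie_hf _)
    · change ((0, -v.1) : VW) - (0, v.1) = (-2 : ℂ) • ((0, v.1) : VW)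
      refine Prod.ext ?_ ?_
      · simp
      · change -v.1 - v.1 = (-2 : ℂ) • v.1
        module
  ef i v := by
    fin_cases i
    · exact Prod.ext (lie_ef _) (lie_ef _)
    · change ((v.1, 0) : VW) - (0, v.2) = (v.1, -v.2)
      refine Prod.ext ?_ ?_
      · simp
      · simp
  comm i k hik v := by
    fin_cases i <;> fin_cases k
    · exact absurd rfl hik
    · refine ⟨?_, ?_, ?_, ?_, ?_, ?_⟩
      · exact Prod.ext rfl (map_neg oh v.2)
      · exact Prod.ext rfl (map_zero oh)
      · exact Prod.ext (map_zero oh) rfl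
      · exact Prod.ext rfl (map_zero oe)
      · exact Prod.ext (map_zero oe) rfl
      · exact Prod.ext (map_zero of) rfl
    · refine ⟨?_, ?_, ?_, ?_, ?_, ?_⟩
      · exact Prod.ext rfl (map_neg oh v.2).symm
      · exact Prod.ext rfl (map_neg oe v.2).symm
      · exact Prod.ext rfl (map_neg of v.2).symm
      · exact Prod.ext rfl (map_zero oe).symm
      · exact Prod.ext rfl (map_zero of).symm
      · exact Prod.ext (map_zero of).symm rfl
    · exact absurd rfl hik

theorem of_sub_oe (v : VP) : of v - oe v = (-2 * Complex.I) • Mm v := by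
  rw [of_apply, oe_apply]
  module

theorem Mm_apply (v : VP) (n : ℕ) : Mm v n = ((n : ℂ) + 1) * v n := by
  have h : Finsupp.lapply n ∘ₗ Mm = ((n : ℂ) + 1) • (Finsupp.lapply n : VP →ₗ[ℂ] ℂ) := by
    refine Finsupp.lhom_ext fun m c => ?_
    change Mm (Finsupp.single m c) n = ((n : ℂ) + 1) • (Finsupp.single m c : VP) n
    rw [Mm_single, Finsupp.single_apply, Finsupp.single_apply]
    split_ifs with hnm
    · rw [hnm, smul_eq_mul, mul_comm]
    · rw [smul_zero]
  exact LinearMap.congr_fun h v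

theorem weight_zero (k : ℤ) (v : VP) :
    of v - oe v = ((k : ℂ) * Complex.I) • v ↔ ∀ n, v n ≠ 0 → k = -2 * ((n : ℤ) + 1) := by
  rw [of_sub_oe]
  constructor
  · intro h n hn
    have h2 := DFunLike.congr_fun h n
    simp only [Finsupp.smul_apply, Mm_apply, smul_eq_mul] at h2
    have h3 : ((k : ℂ) + 2 * (n + 1)) * (Complex.I * v n) = 0 := by linear_combination -h2
    have h4 : (k : ℂ) + 2 * (n + 1) = 0 :=
      (mul_eq_zero.1 h3).resolve_right (mul_ne_zero Complex.I_ne_zero hn)
    have h5 : ((k + 2 * ((n : ℤ) + 1) : ℤ) : ℂ) = 0 := by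
      push_cast
      exact h4
    have h6 : k + 2 * ((n : ℤ) + 1) = 0 := by exact_mod_cast h5
    linarith
  · intro h
    ext n
    simp only [Finsupp.smul_apply, Mm_apply, smul_eq_mul]
    by_cases hn : v n = 0
    · rw [hn]
      ring
    · rw [h n hn]
      push_cast
      ring

theorem isWeight_iff (k : Fin 2 → ℤ) (u : VW) : DD.IsWeight k u ↔
    (∀ n, u.1 n ≠ 0 → k 0 = -2 * ((n : ℤ) + 1)) ∧ (∀ n, u.2 n ≠ 0 → k 0 = -2 * ((n : ℤ) + 1)) ∧
      (-u.2 = ((k 1 : ℂ) * Complex.I) • u.1 ∧ u.1 = ((k 1 : ℂ) * Complex.I) • u.2) := by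
  have h0 : DD.f 0 u - DD.e 0 u = ((k 0 : ℂ) * Complex.I) • u ↔
      (∀ n, u.1 n ≠ 0 → k 0 = -2 * ((n : ℤ) + 1)) ∧
        (∀ n, u.2 n ≠ 0 → k 0 = -2 * ((n : ℤ) + 1)) := by
    rw [← weight_zero, ← weight_zero, DD_f0, DD_e0, Prod.ext_iff]
    exact Iff.rfl
  have h1 : DD.f 1 u - DD.e 1 u = ((k 1 : ℂ) * Complex.I) • u ↔
      (-u.2 = ((k 1 : ℂ) * Complex.I) • u.1 ∧ u.1 = ((k 1 : ℂ) * Complex.I) • u.2) := by
    rw [DD_f1, DD_e1, Prod.ext_iff]
    change ((0 - u.2 = _) ∧ (u.1 - 0 = _)) ↔ _
    rw [zero_sub, sub_zero]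
    exact Iff.rfl
  rw [Ops.IsWeight, Fin.forall_fin_two, h0, h1, and_assoc]

theorem sq_eq_one {k : ℤ} {u : VW} (hu : u ≠ 0) (h1 : -u.2 = ((k : ℂ) * Complex.I) • u.1)
    (h2 : u.1 = ((k : ℂ) * Complex.I) • u.2) : k ^ 2 = 1 := by
  have h3 : ∀ x : VP, x = ((k : ℂ) ^ 2) • x → x ≠ 0 → (k : ℂ) ^ 2 = 1 := by
    intro x hx hne
    have h4 : ((k : ℂ) ^ 2 - 1) • x = 0 := by
      rw [sub_smul, one_smul, ← hx, sub_self]
    exact sub_eq_zero.1 ((smul_eq_zero.1 h4).resolve_right hne)
  have h5 : u.1 = ((k : ℂ) ^ 2) • u.1 := by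
    have : u.2 = -(((k : ℂ) * Complex.I) • u.1) := by rw [← h1, neg_neg]
    rw [this, smul_neg, smul_smul] at h2
    have e : ((k : ℂ) * Complex.I) * ((k : ℂ) * Complex.I) = -(k : ℂ) ^ 2 := by
      linear_combination (k : ℂ) ^ 2 * Complex.I_sq
    rwa [e, neg_smul, neg_neg] at h2
  have h6 : u.2 = ((k : ℂ) ^ 2) • u.2 := by
    rw [h2, smul_smul] at h1
    have e : ((k : ℂ) * Complex.I) * ((k : ℂ) * Complex.I) = -(k : ℂ) ^ 2 := by
      linear_combination (k : ℂ) ^ 2 * Complex.I_sq
    rw [e, neg_smul] at h1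
    exact neg_injective h1
  have h7 : (k : ℂ) ^ 2 = 1 := by
    by_cases hx : u.1 = 0
    · refine h3 _ h6 fun hy => hu (Prod.ext hx hy)
    · exact h3 _ h5 hx
  exact_mod_cast h7

theorem weight_single (n : ℕ) (c : ℂ) (s : ℤ) (hs : s ^ 2 = 1) :
    DD.IsWeight (fun i => if i = 0 then -2 * ((n : ℤ) + 1) else s)
      ((Finsupp.single n c, (-(s : ℂ) * Complex.I) • Finsupp.single n c) : VW) := by
  rw [isWeight_iff]
  have hs' : (s : ℂ) ^ 2 = 1 := by exact_mod_cast hs
  refine ⟨fun m hm => ?_, fun m hm => ?_, ?_, ?_⟩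
  · have : n = m := by
      by_contra hne
      exact hm (Finsupp.single_eq_of_ne (Ne.symm hne))
    rw [if_pos rfl, this]
  · have : n = m := by
      by_contra hne
      apply hm
      rw [Finsupp.smul_apply, Finsupp.single_eq_of_ne (Ne.symm hne), smul_zero]
    rw [if_pos rfl, this]
  · change -((-(s : ℂ) * Complex.I) • (Finsupp.single n c : VP)) = ((s : ℂ) * Complex.I) • _
    module
  · change (Finsupp.single n c : VP) = ((s : ℂ) * Complex.I) • ((-(s : ℂ) * Complex.I) • _)
    rw [smul_smul]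
    have e : ((s : ℂ) * Complex.I) * (-(s : ℂ) * Complex.I) = 1 := by
      linear_combination (-(s : ℂ) ^ 2) * Complex.I_sq + hs'
    rw [e, one_smul]

theorem span_weight : Submodule.span ℂ {v : VW | ∃ k, DD.IsWeight k v} = ⊤ := by
  rw [eq_top_iff]
  rintro ⟨u, v⟩ -
  have key : ∀ n c, ((Finsupp.single n c, 0) : VW) ∈
      Submodule.span ℂ {v : VW | ∃ k, DD.IsWeight k v} ∧ ((0, Finsupp.single n c) : VW) ∈
      Submodule.span ℂ {v : VW | ∃ k, DD.IsWeight k v} := by
    intro n c
    have h1 : ((Finsupp.single n c, (-((1 : ℤ) : ℂ) * Complex.I) • Finsupp.single n c) : VW) ∈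
        Submodule.span ℂ {v : VW | ∃ k, DD.IsWeight k v} :=
      Submodule.subset_span ⟨_, weight_single n c 1 (by norm_num)⟩
    have h2 : ((Finsupp.single n c, (-((-1 : ℤ) : ℂ) * Complex.I) • Finsupp.single n c) : VW) ∈
        Submodule.span ℂ {v : VW | ∃ k, DD.IsWeight k v} :=
      Submodule.subset_span ⟨_, weight_single n c (-1) (by norm_num)⟩
    constructor
    · have h3 := Submodule.smul_mem _ (1 / 2 : ℂ) (Submodule.add_mem _ h1 h2)
      convert! h3 using 1
      refine Prod.ext ?_ ?_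
      · change (Finsupp.single n c : VP) = (1 / 2 : ℂ) • (_ + _)
        module
      · change (0 : VP) = (1 / 2 : ℂ) • (_ + _)
        push_cast
        module
    · have h3 := Submodule.smul_mem _ (Complex.I / 2 : ℂ) (Submodule.sub_mem _ h1 h2)
      convert! h3 using 1
      refine Prod.ext ?_ ?_
      · change (0 : VP) = (Complex.I / 2 : ℂ) • (_ - _)
        rw [sub_self, smul_zero]
      · change (Finsupp.single n c : VP) = (Complex.I / 2 : ℂ) •
          ((-((1 : ℤ) : ℂ) * Complex.I) • Finsupp.single n c -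
            (-((-1 : ℤ) : ℂ) * Complex.I) • Finsupp.single n c)
        rw [← sub_smul, smul_smul]
        have e : (Complex.I / 2 : ℂ) * (-((1 : ℤ) : ℂ) * Complex.I -
            -((-1 : ℤ) : ℂ) * Complex.I) = 1 := by
          push_cast
          linear_combination (-1 : ℂ) * Complex.I_sq
        rw [e, one_smul]
  have h1 : ((u, 0) : VW) ∈ Submodule.span ℂ {v : VW | ∃ k, DD.IsWeight k v} := by
    induction u using Finsupp.induction_linear with
    | zero => exact Submodule.zero_mem _
    | add f g hf hg =>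
      have := Submodule.add_mem _ hf hg
      simpa using this
    | single n c => exact (key n c).1
  have h2 : ((0, v) : VW) ∈ Submodule.span ℂ {v : VW | ∃ k, DD.IsWeight k v} := by
    induction v using Finsupp.induction_linear with
    | zero => exact Submodule.zero_mem _
    | add f g hf hg =>
      have := Submodule.add_mem _ hf hg
      simpa using this
    | single n c => exact (key n c).2
  have := Submodule.add_mem _ h1 h2
  simpa using this

theorem admissible (k : Fin 2 → ℤ) :
    FiniteDimensional ℂ (Submodule.span ℂ {v : VW | DD.IsWeight k v}) := by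
  classical
  by_cases hex : ∃ n : ℕ, k 0 = -2 * ((n : ℤ) + 1)
  · obtain ⟨n, hn⟩ := hex
    have hle : Submodule.span ℂ {v : VW | DD.IsWeight k v} ≤
        Submodule.span ℂ {((Finsupp.single n 1, 0) : VW), (0, Finsupp.single n 1)} := by
      rw [Submodule.span_le]
      intro u hu
      obtain ⟨h1, h2, -⟩ := (isWeight_iff k u).1 hu
      have h3 : ∀ x : VP, (∀ m, x m ≠ 0 → k 0 = -2 * ((m : ℤ) + 1)) →
          x = x n • Finsupp.single n 1 := by
        intro x hx
        ext m
        rw [Finsupp.smul_apply, smul_eq_mul]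
        by_cases hm : m = n
        · rw [hm, Finsupp.single_eq_same, mul_one]
        · rw [Finsupp.single_eq_of_ne hm, mul_zero]
          by_contra hne
          have := hx m hne
          rw [hn] at this
          apply hm
          omega
      have h4 : u = u.1 n • ((Finsupp.single n 1, 0) : VW) + u.2 n • ((0, Finsupp.single n 1) : VW) := by
        refine Prod.ext ?_ ?_
        · change u.1 = u.1 n • Finsupp.single n 1 + u.2 n • 0
          rw [smul_zero, add_zero]
          exact h3 _ h1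
        · change u.2 = u.1 n • 0 + u.2 n • Finsupp.single n 1
          rw [smul_zero, zero_add]
          exact h3 _ h2
      rw [h4]
      exact Submodule.add_mem _ (Submodule.smul_mem _ _ (Submodule.subset_span (by simp)))
        (Submodule.smul_mem _ _ (Submodule.subset_span (by simp)))
    have : FiniteDimensional ℂ
        (Submodule.span ℂ {((Finsupp.single n 1, 0) : VW), (0, Finsupp.single n 1)}) :=
      FiniteDimensional.span_of_finite ℂ (by simp)
    exact Submodule.finiteDimensional_of_le hle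
  · have h0 : Submodule.span ℂ {v : VW | DD.IsWeight k v} = ⊥ := by
      rw [Submodule.span_eq_bot]
      intro u hu
      obtain ⟨h1, h2, -⟩ := (isWeight_iff k u).1 hu
      push Not at hex
      refine Prod.ext ?_ ?_
      · ext m
        by_contra hne
        exact hex m (h1 m hne)
      · ext m
        by_contra hne
        exact hex m (h2 m hne)
    rw [h0]
    infer_instance

theorem fin_gen : ∃ S : Finset VW, ∀ W : Submodule ℂ VW, (∀ v ∈ S, v ∈ W) →
    (∀ i, ∀ v ∈ W, DD.h i v ∈ W ∧ DD.e i v ∈ W ∧ DD.f i v ∈ W) → W = ⊤ := by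
  classical
  refine ⟨{((Finsupp.single 0 1, 0) : VW)}, fun W hS hW => ?_⟩
  have h0 : ((Finsupp.single 0 1, 0) : VW) ∈ W := hS _ (by simp)
  have hSp : ∀ u ∈ W, ((Sp u.1, Sp u.2) : VW) ∈ W := by
    intro u hu
    obtain ⟨h1, h2, h3⟩ := hW 0 u hu
    have h4 := Submodule.smul_mem _ (1 / 2 : ℂ) (Submodule.add_mem _ h1
      (Submodule.smul_mem _ Complex.I (Submodule.add_mem _ h2 h3)))
    have key : ∀ x : VP, Sp x = (1 / 2 : ℂ) • (oh x + Complex.I • (oe x + of x)) := by
      intro x
      have : Complex.I • (oe x + of x) = (Complex.I * Complex.I) • (-Sm x - Sp x) := by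
        rw [oe_apply, of_apply]
        module
      rw [this, Complex.I_mul_I, oh_apply]
      module
    convert! h4 using 1
    exact Prod.ext (key _) (key _)
  have h1 : ∀ n : ℕ, ((Finsupp.single n 1, 0) : VW) ∈ W := by
    intro n
    induction n with
    | zero => exact h0
    | succ n ih =>
      have h2 := Submodule.smul_mem _ ((n : ℂ) + 2)⁻¹ (hSp _ ih)
      convert! h2 using 1
      have hne : (n : ℂ) + 2 ≠ 0 := by exact_mod_cast (by omega : n + 2 ≠ 0)
      refine Prod.ext ?_ ?_
      · change (Finsupp.single (n + 1) 1 : VP) = ((n : ℂ) + 2)⁻¹ • Sp (Finsupp.single n 1)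
        rw [Sp_single, Finsupp.smul_single, smul_eq_mul, one_mul, inv_mul_cancel₀ hne]
      · change (0 : VP) = ((n : ℂ) + 2)⁻¹ • Sp 0
        rw [map_zero, smul_zero]
  have h2 : ∀ n : ℕ, ((0, Finsupp.single n 1) : VW) ∈ W := fun n => (hW 1 _ (h1 n)).2.2
  rw [eq_top_iff]
  rintro ⟨u, v⟩ -
  have h3 : ((u, 0) : VW) ∈ W := by
    induction u using Finsupp.induction_linear with
    | zero => exact Submodule.zero_mem _
    | add f g hf hg =>
      have := Submodule.add_mem _ hf hg
      simpa using this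
    | single n c =>
      have := Submodule.smul_mem _ c (h1 n)
      simpa using this
  have h4 : ((0, v) : VW) ∈ W := by
    induction v using Finsupp.induction_linear with
    | zero => exact Submodule.zero_mem _
    | add f g hf hg =>
      have := Submodule.add_mem _ hf hg
      simpa using this
    | single n c =>
      have := Submodule.smul_mem _ c (h2 n)
      simpa using this
  have := Submodule.add_mem _ h3 h4
  simpa using this

theorem harishChandra : DD.IsHarishChandra where
  toIsLieAction := lie_action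
  span := span_weight
  admissible := admissible
  fin_gen := fin_gen

/-- The action of the Lie algebra of the first factor. -/
noncomputable def hact (Y : Matrix (Fin 2) (Fin 2) ℝ) : Module.End ℂ VP :=
  ((Y 0 0 : ℝ) : ℂ) • oh + ((Y 0 1 : ℝ) : ℂ) • oe + ((Y 1 0 : ℝ) : ℂ) • of

theorem DD_act (Y : Fin 2 → Matrix (Fin 2) (Fin 2) ℝ) (u : VW) :
    DD.act Y u = (hact (Y 0) u.1 + (((Y 1 0 0 : ℝ) : ℂ) • u.1 + ((Y 1 0 1 : ℝ) : ℂ) • u.2),
      hact (Y 0) u.2 + (((Y 1 1 0 : ℝ) : ℂ) • u.1 - ((Y 1 0 0 : ℝ) : ℂ) • u.2)) := by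
  rw [Ops.act, Fin.sum_univ_two, DD_h0, DD_e0, DD_f0, DD_h1, DD_e1, DD_f1]
  refine Prod.ext ?_ ?_
  · change _ = hact (Y 0) u.1 + _
    rw [hact]
    simp only [Prod.smul_fst, Prod.fst_add, LinearMap.add_apply, LinearMap.smul_apply, smul_zero,
      add_zero]
  · change _ = hact (Y 0) u.2 + _
    rw [hact]
    simp only [Prod.smul_snd, Prod.snd_add, LinearMap.add_apply, LinearMap.smul_apply, smul_zero,
      add_zero, smul_neg]
    abel

end Q4.Lip
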